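import Pool.Agent.LibKS39.Defs

open Finset Function
open scoped Classical

namespace KS39

/-- the count. -/
noncomputable def L6_N {V : Type} (X : Finset V) (pos : V → Prop) (lam : V → ℝ) (a : V) : ℕ :=
  (X.filter (fun p => pos p ∧ lam a < lam p)).card +
    (X.filter (fun p => ¬ pos p ∧ lam p < lam a)).card

theorem L6_aux {V : Type} (X : Finset V) (pos : V → Prop) (lam : V → ℝ) :
    Set.InjOn lam (X : Set V) → ∀ k : ℕ,
    (((X.filter (fun a => ¬ pos a ∧ L6_N X pos lam a = k)).card : ℤ) -
      ((X.filter (fun a => pos a ∧ L6_N X pos lam a = k)).card : ℤ)) =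
      (if k < (X.filter (fun a => ¬ pos a)).card then 1 else 0) -
        (if k < (X.filter (fun a => pos a)).card then 1 else 0) := by
  induction X using Finset.induction_on_max_value lam with
  | empty => intro _ k; simp
  | insert b s hb hmax ih =>
    intro hinj k
    have hinj' : Set.InjOn lam (s : Set V) := hinj.mono (by simp)
    have ih := ih hinj'
    have hlt : ∀ a ∈ s, lam a < lam b := by
      intro a ha
      refine lt_of_le_of_ne (hmax a ha) ?_
      intro h
      have hab : a = b := hinj (by simp [ha]) (by simp) h
      exact hb (hab ▸ ha)
    have hNb : L6_N (insert b s) pos lam b = (s.filter (fun a => ¬ pos a)).card := by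
      unfold L6_N
      have h1 : (insert b s).filter (fun p => pos p ∧ lam b < lam p) = ∅ := by
        refine Finset.filter_eq_empty_iff.2 ?_
        intro x hx h
        rcases Finset.mem_insert.1 hx with rfl | hx
        · exact lt_irrefl _ h.2
        · exact lt_asymm h.2 (hlt x hx)
      have h2 : (insert b s).filter (fun p => ¬ pos p ∧ lam p < lam b) =
          s.filter (fun a => ¬ pos a) := by
        ext x
        simp only [Finset.mem_filter, Finset.mem_insert]
        constructor
        · rintro ⟨hx | hx, h, h'⟩
          · subst hx; exact absurd h' (lt_irrefl _)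
          · exact ⟨hx, h⟩
        · rintro ⟨hx, h⟩
          exact ⟨Or.inr hx, h, hlt x hx⟩
      rw [h1, h2]; simp
    have h2' : ∀ a ∈ s, (insert b s).filter (fun p => ¬ pos p ∧ lam p < lam a) =
        s.filter (fun p => ¬ pos p ∧ lam p < lam a) := by
      intro a ha
      rw [Finset.filter_insert, if_neg]
      intro h
      exact lt_asymm h.2 (hlt a ha)
    by_cases hpb : pos b
    · have hNs : ∀ a ∈ s, L6_N (insert b s) pos lam a = L6_N s pos lam a + 1 := by
        intro a ha
        unfold L6_N
        rw [h2' a ha, Finset.filter_insert, if_pos ⟨hpb, hlt a ha⟩,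
          Finset.card_insert_of_notMem (by simp [hb])]
        omega
      have e1 : (insert b s).filter (fun a => ¬ pos a ∧ L6_N (insert b s) pos lam a = k) =
          s.filter (fun a => ¬ pos a ∧ L6_N s pos lam a + 1 = k) := by
        rw [Finset.filter_insert, if_neg (fun h => h.1 hpb)]
        refine Finset.filter_congr ?_
        intro a ha
        rw [hNs a ha]
      have e2 : ((insert b s).filter (fun a => pos a ∧ L6_N (insert b s) pos lam a = k)).card =
          (s.filter (fun a => pos a ∧ L6_N s pos lam a + 1 = k)).card +
            (if (s.filter (fun a => ¬ pos a)).card = k then 1 else 0) := by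
        have e3 : s.filter (fun a => pos a ∧ L6_N (insert b s) pos lam a = k) =
            s.filter (fun a => pos a ∧ L6_N s pos lam a + 1 = k) := by
          refine Finset.filter_congr ?_
          intro a ha
          rw [hNs a ha]
        rw [Finset.filter_insert, hNb]
        by_cases hk : (s.filter (fun a => ¬ pos a)).card = k
        · rw [if_pos ⟨hpb, hk⟩, if_pos hk, Finset.card_insert_of_notMem (by simp [hb]), e3]
        · rw [if_neg (fun h => hk h.2), if_neg hk, e3, add_zero]
      have e4 : ((insert b s).filter (fun a => ¬ pos a)) = s.filter (fun a => ¬ pos a) := by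
        rw [Finset.filter_insert, if_neg (fun h => h hpb)]
      have e5 : ((insert b s).filter (fun a => pos a)).card = (s.filter (fun a => pos a)).card + 1 := by
        rw [Finset.filter_insert, if_pos hpb, Finset.card_insert_of_notMem (by simp [hb])]
      rw [e1, e2, e4, e5]
      rcases k with _ | k
      · have z1 : s.filter (fun a => ¬ pos a ∧ L6_N s pos lam a + 1 = 0) = ∅ :=
          Finset.filter_eq_empty_iff.2 (by intro x _ h; omega)
        have z2 : s.filter (fun a => pos a ∧ L6_N s pos lam a + 1 = 0) = ∅ :=
          Finset.filter_eq_empty_iff.2 (by intro x _ h; omega)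
        rw [z1, z2]
        simp only [Finset.card_empty]
        push_cast
        split_ifs <;> omega
      · have z1 : s.filter (fun a => ¬ pos a ∧ L6_N s pos lam a + 1 = k + 1) =
            s.filter (fun a => ¬ pos a ∧ L6_N s pos lam a = k) := by
          refine Finset.filter_congr ?_
          intro a _; constructor <;> rintro ⟨h, h'⟩ <;> exact ⟨h, by omega⟩
        have z2 : s.filter (fun a => pos a ∧ L6_N s pos lam a + 1 = k + 1) =
            s.filter (fun a => pos a ∧ L6_N s pos lam a = k) := by
          refine Finset.filter_congr ?_
          intro a _; constructor <;> rintro ⟨h, h'⟩ <;> exact ⟨h, by omega⟩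
        rw [z1, z2]
        have h := ih k
        push_cast
        split_ifs at h ⊢ <;> omega
    · have hNs : ∀ a ∈ s, L6_N (insert b s) pos lam a = L6_N s pos lam a := by
        intro a ha
        unfold L6_N
        rw [h2' a ha, Finset.filter_insert, if_neg (fun h => hpb h.1)]
      have e1 : ((insert b s).filter (fun a => ¬ pos a ∧ L6_N (insert b s) pos lam a = k)).card =
          (s.filter (fun a => ¬ pos a ∧ L6_N s pos lam a = k)).card +
            (if (s.filter (fun a => ¬ pos a)).card = k then 1 else 0) := by
        have e3 : s.filter (fun a => ¬ pos a ∧ L6_N (insert b s) pos lam a = k) =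
            s.filter (fun a => ¬ pos a ∧ L6_N s pos lam a = k) := by
          refine Finset.filter_congr ?_
          intro a ha
          rw [hNs a ha]
        rw [Finset.filter_insert, hNb]
        by_cases hk : (s.filter (fun a => ¬ pos a)).card = k
        · rw [if_pos ⟨hpb, hk⟩, if_pos hk, Finset.card_insert_of_notMem (by simp [hb]), e3]
        · rw [if_neg (fun h => hk h.2), if_neg hk, e3, add_zero]
      have e2 : (insert b s).filter (fun a => pos a ∧ L6_N (insert b s) pos lam a = k) =
          s.filter (fun a => pos a ∧ L6_N s pos lam a = k) := by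
        rw [Finset.filter_insert, if_neg (fun h => hpb h.1)]
        refine Finset.filter_congr ?_
        intro a ha
        rw [hNs a ha]
      have e4 : ((insert b s).filter (fun a => ¬ pos a)).card =
          (s.filter (fun a => ¬ pos a)).card + 1 := by
        rw [Finset.filter_insert, if_pos hpb, Finset.card_insert_of_notMem (by simp [hb])]
      have e5 : ((insert b s).filter (fun a => pos a)) = (s.filter (fun a => pos a)) := by
        rw [Finset.filter_insert, if_neg hpb]
      rw [e1, e2, e4, e5]
      have h := ih k
      push_cast
      split_ifs at h ⊢ <;> omega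

/-- label walk. -/
theorem label_walk {V : Type} (X : Finset V) (pos : V → Prop) (lam : V → ℝ)
    (hinj : Set.InjOn lam (X : Set V)) (k : ℕ) :
    (X.filter (fun a => pos a ∧ (X.filter (fun p => pos p ∧ lam a < lam p)).card +
        (X.filter (fun p => ¬ pos p ∧ lam p < lam a)).card = k)).card ≤
      (X.filter (fun a => ¬ pos a ∧ (X.filter (fun p => pos p ∧ lam a < lam p)).card +
        (X.filter (fun p => ¬ pos p ∧ lam p < lam a)).card = k)).card + 1 ∧
    (X.filter (fun a => ¬ pos a ∧ (X.filter (fun p => pos p ∧ lam a < lam p)).card +
        (X.filter (fun p => ¬ pos p ∧ lam p < lam a)).card = k)).card ≤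
      (X.filter (fun a => pos a ∧ (X.filter (fun p => pos p ∧ lam a < lam p)).card +
        (X.filter (fun p => ¬ pos p ∧ lam p < lam a)).card = k)).card + 1 := by
  have h := L6_aux X pos lam hinj k
  unfold L6_N at h
  constructor <;> (split_ifs at h <;> omega)

end KS39
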