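import Pool.Agent.LibKS39.Defs

open Finset Function
open scoped Classical

namespace KS39

theorem A1_key {V : Type} [Fintype V] {m : ℕ} (x : V → Fin m → ℝ) (ℓ : Fin m → ℝ)
    (hℓ : ∀ v, ℓ ⬝ᵥ x v = 1) (s : ℕ) (φ : Fin s → Fin m → ℝ) (J : Finset (Fin s))
    (hJ : m ≤ J.card)
    (hsh : (univ.image (fun v : V => univ.filter (fun j : Fin s => 0 < φ j ⬝ᵥ x v))).Shatters J) :
    False := by
  let w : Option J → (Fin m → ℝ) := fun o => o.elim ℓ (fun j => φ j)
  have hnot : ¬ LinearIndependent ℝ w := by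
    intro h
    have h1 := h.fintype_card_le_finrank
    rw [Module.finrank_fin_fun, Fintype.card_option, Fintype.card_coe] at h1
    omega
  obtain ⟨g, hg, i0, hi0⟩ := Fintype.not_linearIndependent_iff.mp hnot
  have key : ∀ g : Option J → ℝ, ∑ i, g i • w i = 0 →
      (0 < g none ∨ (g none = 0 ∧ ∃ j, 0 < g (some j))) → False := by
    intro g hg hc
    obtain ⟨u, hu, hJu⟩ := hsh (t := J.filter (fun j => ∃ h : j ∈ J, 0 < g (some ⟨j, h⟩)))
      (filter_subset _ _)
    obtain ⟨v, -, rfl⟩ := mem_image.mp hu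
    have hv : ∀ j : J, (0 < φ j ⬝ᵥ x v ↔ 0 < g (some j)) := by
      intro j
      have h1 := Finset.ext_iff.mp hJu (j : Fin s)
      simp only [mem_inter, mem_filter, mem_univ, true_and] at h1
      constructor
      · intro h
        obtain ⟨_, _, h2⟩ := h1.1 ⟨j.2, h⟩
        exact h2
      · intro h
        exact (h1.2 ⟨j.2, j.2, h⟩).2
    have hsum : g none * (ℓ ⬝ᵥ x v) + ∑ j : J, g (some j) * (φ j ⬝ᵥ x v) = 0 := by
      have h1 := congrArg (fun y => y ⬝ᵥ x v) hg
      simp only [Fintype.sum_option, add_dotProduct, sum_dotProduct, smul_dotProduct,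
        zero_dotProduct, smul_eq_mul, w, Option.elim] at h1
      exact h1
    rw [hℓ, mul_one] at hsum
    have hnn : ∀ j : J, 0 ≤ g (some j) * (φ j ⬝ᵥ x v) := by
      intro j
      by_cases h : 0 < g (some j)
      · exact (mul_pos h ((hv j).2 h)).le
      · exact mul_nonneg_of_nonpos_of_nonpos (not_lt.mp h)
          (not_lt.mp (fun hh => h ((hv j).1 hh)))
    rcases hc with h | ⟨h, j, hj⟩
    · have h2 := Finset.sum_nonneg (s := (univ : Finset J)) (fun j _ => hnn j)
      linarith
    · have h2 : 0 < ∑ j : J, g (some j) * (φ j ⬝ᵥ x v) :=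
        Finset.sum_pos' (fun j _ => hnn j) ⟨j, mem_univ _, mul_pos hj ((hv j).2 hj)⟩
      linarith
  have hneg : ∑ i, (-g) i • w i = 0 := by
    simp only [Pi.neg_apply, neg_smul, sum_neg_distrib, hg, neg_zero]
  rcases lt_trichotomy (g none) 0 with h | h | h
  · exact key (-g) hneg (Or.inl (by simpa using h))
  · cases i0 with
    | none => exact hi0 h
    | some j =>
      rcases lt_or_gt_of_ne hi0 with h2 | h2
      · exact key (-g) hneg (Or.inr ⟨by simpa using h, j, by simpa using h2⟩)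
      · exact key g hg (Or.inr ⟨h, j, h2⟩)
  · exact key g hg (Or.inl h)

/-- Sauer–Shelah for sign vectors of `s` functionals at the points `x v`. -/
theorem cells {V : Type} [Fintype V] {m : ℕ} (x : V → Fin m → ℝ) (ℓ : Fin m → ℝ)
    (hℓ : ∀ v, ℓ ⬝ᵥ x v = 1) (s : ℕ) (φ : Fin s → Fin m → ℝ) :
    (univ.image (fun v : V => univ.filter (fun j : Fin s => 0 < φ j ⬝ᵥ x v))).card ≤ Phi m s := by
  refine (card_le_card_shatterer _).trans ?_
  have hsub : (univ.image (fun v : V => univ.filter
      (fun j : Fin s => 0 < φ j ⬝ᵥ x v))).shatterer ⊆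
      (range m).biUnion (fun k => powersetCard k (univ : Finset (Fin s))) := by
    intro t ht
    rw [mem_shatterer] at ht
    rw [mem_biUnion]
    refine ⟨t.card, mem_range.2 ?_, mem_powersetCard.2 ⟨subset_univ _, rfl⟩⟩
    by_contra hcon
    exact A1_key x ℓ hℓ s φ t (not_lt.mp hcon) ht
  refine (card_le_card hsub).trans (card_biUnion_le.trans ?_)
  unfold Phi
  refine sum_le_sum (fun k _ => ?_)
  rw [card_powersetCard, card_univ, Fintype.card_fin]

end KS39
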