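import Pool.Agent.LibKS39.Defs

open Finset Function
open scoped Classical

namespace KS39

theorem one_le_Phi {m s : ℕ} (hm : 1 ≤ m) : 1 ≤ Phi m s := by
  unfold Phi
  have h := Finset.single_le_sum (s := range m) (f := fun k => s.choose k)
    (fun k _ => Nat.zero_le _) (Finset.mem_range.2 hm)
  simpa using h

theorem le_Phi {m s : ℕ} (hm : 2 ≤ m) : s ≤ Phi m s := by
  unfold Phi
  have h := Finset.single_le_sum (s := range m) (f := fun k => s.choose k)
    (fun k _ => Nat.zero_le _) (Finset.mem_range.2 (show 1 < m by omega))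
  simpa using h

/-- `Σ_{k ≤ m} C(s,k) ≤ (s+1)^m`. -/
theorem Phi_le (m s : ℕ) : Phi (m + 1) s ≤ (s + 1) ^ m := by
  unfold Phi
  rw [add_pow]
  refine Finset.sum_le_sum fun k hk => ?_
  have hk' : k ≤ m := by have := Finset.mem_range.1 hk; omega
  have h1 : 1 ≤ m.choose k := Nat.choose_pos hk'
  calc s.choose k ≤ s ^ k := Nat.choose_le_pow s k
    _ = s ^ k * 1 ^ (m - k) * 1 := by simp
    _ ≤ s ^ k * 1 ^ (m - k) * m.choose k := Nat.mul_le_mul_left _ h1

end KS39
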