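import Mathlib

/-!
Definitions for the k-set / halving hyperplane bound in all dimensions (MP_971713_co).

`V` is a finite set of points, `x v ∈ ℝ^m` are homogeneous coordinates (`m = d`),
functionals are vectors acting by the dot product.
-/

open Finset Function
open scoped Classical

namespace KS39

/-- Determinant of a family of `m` row vectors of `ℝ^m`. -/
noncomputable def DET {m : ℕ} (w : Fin m → Fin m → ℝ) : ℝ := Matrix.det (Matrix.of w)

/-- General position: any `m` distinct points are linearly independent. -/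
def GP {V : Type} {m : ℕ} (x : V → Fin m → ℝ) : Prop :=
  ∀ v : Fin m → V, Injective v → DET (fun i => x (v i)) ≠ 0

/-- `y` lies in the open cone spanned by `x (v 0), …, x (v (m-1))`. -/
def InCone {V : Type} {m : ℕ} (x : V → Fin m → ℝ) (v : Fin m → V) (y : Fin m → ℝ) : Prop :=
  ∃ t : Fin m → ℝ, (∀ i, 0 < t i) ∧ y = ∑ i, t i • x (v i)

/-- The mixed tuple: `v l` for `l ∈ I`, `q (v l)` otherwise. -/
noncomputable def mix {V : Type} {m : ℕ} (q : V → V) (v : Fin m → V) (I : Finset (Fin m)) :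
    Fin m → V :=
  fun l => if l ∈ I then v l else q (v l)

/-- Determinant of the mixed tuple. -/
noncomputable def DD {V : Type} {m : ℕ} (x : V → Fin m → ℝ) (q : V → V) (v : Fin m → V)
    (I : Finset (Fin m)) : ℝ := DET (fun l => x (mix q v I l))

/-- Sauer–Shelah number: number of subsets of size `< m` of an `s`-set. -/
def Phi (m s : ℕ) : ℕ := ∑ k ∈ range m, s.choose k

/-- The `2m` points `v i`, `q (v i)` are pairwise distinct (for idempotent `q`). -/
structure Basic {V : Type} {m : ℕ} (q : V → V) (v : Fin m → V) : Prop where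
  inj : Injective v
  injq : Injective (fun i => q (v i))
  ne : ∀ i, q (v i) ≠ v i

def SignOK {V : Type} {m : ℕ} (x : V → Fin m → ℝ) (q : V → V) (I : Finset (Fin m)) (i : Fin m)
    (v : Fin m → V) : Prop := 0 < DD x q v I * DD x q v (insert i I)

def RatioOK {V : Type} {m : ℕ} (x : V → Fin m → ℝ) (q : V → V) (η : ℝ) (I : Finset (Fin m))
    (i j : Fin m) (v : Fin m → V) : Prop :=
  |DD x q v I * DD x q v (insert i (insert j I)) - DD x q v (insert i I) * DD x q v (insert j I)|
    ≤ η * |DD x q v (insert i I) * DD x q v (insert j I)|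

structure Nice {V : Type} {m : ℕ} (x : V → Fin m → ℝ) (q : V → V) (η : ℝ) (v : Fin m → V) :
    Prop where
  basic : Basic q v
  sign : ∀ (I : Finset (Fin m)) (i : Fin m), i ∉ I → SignOK x q I i v
  ratio : ∀ (I : Finset (Fin m)) (i j : Fin m), i ≠ j → i ∉ I → j ∉ I → RatioOK x q η I i j v

/-- `j`-th coordinate of `x a` in the frame `x (Q 0), …, x (Q (m-1))` (Cramer). -/
noncomputable def coef {V : Type} {m : ℕ} (x : V → Fin m → ℝ) (Q : Fin m → V) (a : V)
    (j : Fin m) : ℝ :=
  DET (update (fun l => x (Q l)) j (x a)) / DET (fun l => x (Q l))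

/-- `i`-th coordinate of `z` in the frame `x ∘ v`. -/
noncomputable def al {V : Type} {m : ℕ} (x : V → Fin m → ℝ) (v : Fin m → V)
    (z : Fin m → ℝ) (i : Fin m) : ℝ :=
  DET (update (fun l => x (v l)) i z) / DET (fun l => x (v l))

/-- The hyperplane through the lifted points `(x (v l), h (v l))` has exactly `k` lifted points
strictly above it. -/
def Lev {V : Type} [Fintype V] {m : ℕ} (x : V → Fin m → ℝ) (h : V → ℝ) (v : Fin m → V) (k : ℕ) :
    Prop :=
  ∃ ψ : Fin m → ℝ, (∀ l, ψ ⬝ᵥ x (v l) = h (v l)) ∧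
    (univ.filter (fun p => ψ ⬝ᵥ x p < h p)).card = k

/-- The ray `y + s w` (`s > 0`) leaves the cone of `x ∘ v` through the facet opposite to `i`. -/
def Exit {V : Type} {m : ℕ} (x : V → Fin m → ℝ) (y w : Fin m → ℝ) (v : Fin m → V) (i : Fin m) :
    Prop :=
  al x v w i < 0 ∧ ∃ s : ℝ, 0 < s ∧ al x v y i + s * al x v w i = 0 ∧
    ∀ l, l ≠ i → 0 < al x v y l + s * al x v w l

/-- The ray `y + s w` (`s > 0`) enters the cone of `x ∘ v` through the facet opposite to `i`. -/
def Enter {V : Type} {m : ℕ} (x : V → Fin m → ℝ) (y w : Fin m → ℝ) (v : Fin m → V) (i : Fin m) :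
    Prop :=
  0 < al x v w i ∧ ∃ s : ℝ, 0 < s ∧ al x v y i + s * al x v w i = 0 ∧
    ∀ l, l ≠ i → 0 < al x v y l + s * al x v w l

/-- General position of a finite set in `ℝ^d`: no hyperplane contains more than `d` points. -/
def GenPos (d : ℕ) (S : Finset (Fin d → ℝ)) : Prop :=
  ∀ (a : Fin d → ℝ) (b : ℝ), a ≠ 0 → (S.filter (fun p => a ⬝ᵥ p = b)).card ≤ d

/-- `T` is a `k`-hyperplane of `S`. -/
def IsKHyp {d : ℕ} (S : Finset (Fin d → ℝ)) (k : ℕ) (T : Finset (Fin d → ℝ)) : Prop :=
  T ⊆ S ∧ T.card = d ∧ ∃ (a : Fin d → ℝ) (b : ℝ), a ≠ 0 ∧ (∀ p ∈ T, a ⬝ᵥ p = b) ∧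
    (S.filter (fun p => b < a ⬝ᵥ p)).card = k

end KS39
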