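import Pool.Agent.LibKS39.A2
import Pool.Agent.LibKS39.Defs

open Finset Function
open scoped Classical

namespace KS39

theorem B1_not_shatters {V : Type} [Fintype V] {m : ℕ} (x : V → Fin m → ℝ)
    (𝒜 : Finset (Finset V))
    (h𝒜 : ∀ A ∈ 𝒜, ∃ ψ : Fin m → ℝ, (∀ v, ψ ⬝ᵥ x v ≠ 0) ∧ ∀ v, v ∈ A ↔ 0 < ψ ⬝ᵥ x v)
    (J : Finset V) (hJ : 𝒜.Shatters J) : J.card ≤ m := by
  by_contra hlt
  push Not at hlt
  -- dependency
  have hdep : ¬ LinearIndependent ℝ (fun v : J => x v) := by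
    intro hli
    have := hli.fintype_card_le_finrank
    rw [Fintype.card_coe, Module.finrank_fin_fun] at this
    omega
  rw [Fintype.not_linearIndependent_iff] at hdep
  obtain ⟨g, hg, i, hi⟩ := hdep
  -- wlog some coefficient is positive
  obtain ⟨c, hc, j, hj⟩ : ∃ c : J → ℝ, ∑ v, c v • x v = 0 ∧ ∃ j, 0 < c j := by
    rcases lt_or_gt_of_ne hi with h | h
    · refine ⟨fun v => - g v, ?_, i, by simpa using h⟩
      simp only [neg_smul, Finset.sum_neg_distrib, hg, neg_zero]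
    · exact ⟨g, hg, i, h⟩
  let P : Finset V := J.filter (fun v => ∃ h : v ∈ J, 0 < c ⟨v, h⟩)
  obtain ⟨A, hA, hAP⟩ := hJ (show P ⊆ J from Finset.filter_subset _ _)
  obtain ⟨ψ, hψ, hψA⟩ := h𝒜 A hA
  have key : ∀ v : J, 0 < ψ ⬝ᵥ x v ↔ 0 < c v := by
    intro v
    have h1 : (v : V) ∈ J ∩ A ↔ (v : V) ∈ P := by rw [hAP]
    rw [Finset.mem_inter] at h1
    rw [← hψA v]
    constructor
    · intro h
      have := h1.1 ⟨v.2, h⟩
      obtain ⟨_, h2, h3⟩ := Finset.mem_filter.1 this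
      exact h3
    · intro h
      exact (h1.2 (Finset.mem_filter.2 ⟨v.2, v.2, h⟩)).2
  have hsum : ∑ v : J, c v * (ψ ⬝ᵥ x v) = 0 := by
    have : ψ ⬝ᵥ (∑ v : J, c v • x v) = 0 := by rw [hc, dotProduct_zero]
    rw [dotProduct_sum] at this
    simpa [dotProduct_smul, smul_eq_mul] using this
  have hpos : 0 < ∑ v : J, c v * (ψ ⬝ᵥ x v) := by
    apply Finset.sum_pos'
    · intro v _
      by_cases h : 0 < c v
      · exact (mul_pos h ((key v).2 h)).le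
      · have h2 : ¬ 0 < ψ ⬝ᵥ x v := fun h3 => h ((key v).1 h3)
        exact mul_nonneg_of_nonpos_of_nonpos (not_lt.1 h) (not_lt.1 h2)
    · exact ⟨j, Finset.mem_univ _, mul_pos hj ((key j).2 hj)⟩
  rw [hsum] at hpos
  exact lt_irrefl _ hpos

/-- finitely many functionals, none vanishing on `V`, realise all sign patterns. -/
theorem reps {V : Type} [Fintype V] {m : ℕ} (x : V → Fin m → ℝ) :
    ∃ H : Finset (Fin m → ℝ), (∀ φ ∈ H, ∀ v, φ ⬝ᵥ x v ≠ 0) ∧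
      H.card ≤ (Fintype.card V + 1) ^ m ∧
      ∀ ψ : Fin m → ℝ, (∀ v, ψ ⬝ᵥ x v ≠ 0) →
        ∃ φ ∈ H, ∀ v, (0 < φ ⬝ᵥ x v ↔ 0 < ψ ⬝ᵥ x v) := by
  let 𝒜 : Finset (Finset V) := Finset.univ.filter
    (fun A => ∃ ψ : Fin m → ℝ, (∀ v, ψ ⬝ᵥ x v ≠ 0) ∧ ∀ v, v ∈ A ↔ 0 < ψ ⬝ᵥ x v)
  have h𝒜 : ∀ A ∈ 𝒜, ∃ ψ : Fin m → ℝ, (∀ v, ψ ⬝ᵥ x v ≠ 0) ∧ ∀ v, v ∈ A ↔ 0 < ψ ⬝ᵥ x v :=
    fun A hA => (Finset.mem_filter.1 hA).2
  choose! F hF using h𝒜
  refine ⟨𝒜.image F, ?_, ?_, ?_⟩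
  · intro φ hφ
    obtain ⟨A, hA, rfl⟩ := Finset.mem_image.1 hφ
    exact (hF A hA).1
  · refine Finset.card_image_le.trans ?_
    refine (Finset.card_le_card_shatterer 𝒜).trans ?_
    refine Finset.card_shatterer_le_sum_vcDim.trans ?_
    have hdim : 𝒜.vcDim ≤ m := by
      refine Finset.sup_le ?_
      intro J hJ
      exact B1_not_shatters x 𝒜 (fun A hA => (Finset.mem_filter.1 hA).2) J
        (Finset.mem_shatterer.1 hJ)
    refine le_trans ?_ (Phi_le m (Fintype.card V))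
    unfold Phi
    apply Finset.sum_le_sum_of_subset
    intro k hk
    rw [Finset.mem_Iic] at hk
    rw [Finset.mem_range]
    omega
  · intro ψ hψ
    let A : Finset V := Finset.univ.filter (fun v => 0 < ψ ⬝ᵥ x v)
    have hA : A ∈ 𝒜 := Finset.mem_filter.2 ⟨Finset.mem_univ _, ψ, hψ, fun v => by simp [A]⟩
    refine ⟨F A, Finset.mem_image_of_mem F hA, fun v => ?_⟩
    rw [← (hF A hA).2 v]
    simp [A]

end KS39
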