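import Pool.Agent.LibKS39.Defs

open Finset Function
open scoped Classical

namespace KS39

theorem C1_pigeon {V A : Type} [DecidableEq A] (R : Finset V) (f : V → A) (Φ : ℕ) (hΦ : (R.image f).card ≤ Φ) :
    ∃ S ⊆ R, R.card ≤ Φ * S.card ∧ ∀ u ∈ S, ∀ v ∈ S, f u = f v := by
  rcases R.eq_empty_or_nonempty with hR | hR
  · refine ⟨∅, Finset.empty_subset _, by simp [hR], by simp⟩
  · obtain ⟨c, hc, hmax⟩ := Finset.exists_max_image (R.image f)
      (fun c => (R.filter (fun x => f x = c)).card) (hR.image f)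
    refine ⟨R.filter (fun x => f x = c), Finset.filter_subset _ _, ?_, ?_⟩
    · have h1 := Finset.card_le_mul_card_image R (f := f) _ hmax
      calc R.card ≤ (R.filter (fun x => f x = c)).card * (R.image f).card := h1
        _ ≤ (R.filter (fun x => f x = c)).card * Φ := Nat.mul_le_mul_left _ hΦ
        _ = Φ * (R.filter (fun x => f x = c)).card := Nat.mul_comm _ _
    · intro u hu v hv
      rw [(Finset.mem_filter.mp hu).2, (Finset.mem_filter.mp hv).2]

theorem C1_tuple {V : Type} [Fintype V] {E : Type} (H : Finset E) (P : E → V → Prop) (s : ℕ)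
    (hs : 1 ≤ s) (w : E → ℝ) (hw : ∀ e, 0 < w e) (hV : 2 ≤ Fintype.card V) (hH : H.Nonempty) :
    ∃ φ : Fin s → E, (∀ j, φ j ∈ H) ∧ ∀ u v,
      (2 * Real.log (Fintype.card V) / s) * ∑ e ∈ H, w e <
        ∑ e ∈ H.filter (fun e => ¬ (P e u ↔ P e v)), w e →
      ∃ j, ¬ (P (φ j) u ↔ P (φ j) v) := by
  set n := Fintype.card V with hn
  set W := ∑ e ∈ H, w e with hW
  set δ := 2 * Real.log (n : ℝ) / s with hδ
  have hWpos : 0 < W := Finset.sum_pos (fun e _ => hw e) hH
  have hn0 : (0 : ℝ) < (n : ℝ) := by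
    have : 0 < n := by omega
    exact_mod_cast this
  have hs0 : (s : ℝ) ≠ 0 := by
    have : s ≠ 0 := by omega
    exact_mod_cast this
  by_contra hcon0
  have hcon : ∀ φ : Fin s → E, (∀ j, φ j ∈ H) → ∃ u v, δ * W <
      ∑ e ∈ H.filter (fun e => ¬ (P e u ↔ P e v)), w e ∧ ∀ j, (P (φ j) u ↔ P (φ j) v) := by
    intro φ hφ
    by_contra h
    apply hcon0
    refine ⟨φ, hφ, fun u v huv => ?_⟩
    by_contra h2
    apply h
    refine ⟨u, v, huv, fun j => ?_⟩
    by_contra h3
    exact h2 ⟨j, h3⟩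
  let sep : V × V → ℝ := fun p => ∑ e ∈ H.filter (fun e => ¬ (P e p.1 ↔ P e p.2)), w e
  let far : Finset (V × V) := univ.filter (fun p => δ * W < sep p)
  let wt : (Fin s → E) → ℝ := fun φ => ∏ j, w (φ j)
  let T : Finset (Fin s → E) := Fintype.piFinset (fun _ : Fin s => H)
  let N : V × V → Finset (Fin s → E) := fun p =>
    Fintype.piFinset (fun _ : Fin s => H.filter (fun e => (P e p.1 ↔ P e p.2)))
  have hwt : ∀ φ, 0 < wt φ := fun φ => Finset.prod_pos (fun j _ => hw _)
  have htot : ∑ φ ∈ T, wt φ = W ^ s := by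
    have h := Finset.prod_univ_sum (fun _ : Fin s => H) (fun _ e => w e)
    rw [Finset.prod_const, Finset.card_univ, Fintype.card_fin] at h
    exact h.symm
  have hN : ∀ p, ∑ φ ∈ N p, wt φ = (W - sep p) ^ s := by
    intro p
    have h := Finset.prod_univ_sum
      (fun _ : Fin s => H.filter (fun e => (P e p.1 ↔ P e p.2))) (fun _ e => w e)
    rw [Finset.prod_const, Finset.card_univ, Fintype.card_fin] at h
    have h2 := Finset.sum_filter_add_sum_filter_not H (fun e => (P e p.1 ↔ P e p.2)) w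
    have h3 : W - sep p = ∑ e ∈ H.filter (fun e => (P e p.1 ↔ P e p.2)), w e := by
      simp only [sep, hW]
      linarith
    rw [h3]
    exact h.symm
  have hle : W ^ s ≤ ∑ p ∈ far, (W - sep p) ^ s := by
    rw [← htot]
    calc ∑ φ ∈ T, wt φ ≤ ∑ φ ∈ T, ∑ p ∈ far, (if φ ∈ N p then wt φ else 0) := by
          refine Finset.sum_le_sum ?_
          intro φ hφ
          have hφ' : ∀ j, φ j ∈ H := Fintype.mem_piFinset.mp hφ
          obtain ⟨u, v, huv, hj⟩ := hcon φ hφ'
          have hmem : (u, v) ∈ far := Finset.mem_filter.mpr ⟨Finset.mem_univ _, huv⟩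
          have hNm : φ ∈ N (u, v) :=
            Fintype.mem_piFinset.mpr (fun j => Finset.mem_filter.mpr ⟨hφ' j, hj j⟩)
          calc wt φ = (if φ ∈ N (u, v) then wt φ else 0) := by rw [if_pos hNm]
            _ ≤ ∑ p ∈ far, (if φ ∈ N p then wt φ else 0) :=
              Finset.single_le_sum (f := fun p => (if φ ∈ N p then wt φ else 0))
                (fun p _ => by
                  split_ifs
                  · exact (hwt φ).le
                  · exact le_rfl) hmem
      _ = ∑ p ∈ far, ∑ φ ∈ T, (if φ ∈ N p then wt φ else 0) := Finset.sum_comm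
      _ ≤ ∑ p ∈ far, (W - sep p) ^ s := by
          refine Finset.sum_le_sum ?_
          intro p _
          rw [← hN p, ← Finset.sum_filter]
          refine Finset.sum_le_sum_of_subset_of_nonneg ?_ (fun φ _ _ => (hwt φ).le)
          intro φ hφ
          exact (Finset.mem_filter.mp hφ).2
  have hexp : Real.exp (-δ) ^ s = ((n : ℝ) ^ 2)⁻¹ := by
    rw [← Real.exp_nat_mul]
    have h1 : (s : ℝ) * -δ = -(2 * Real.log n) := by
      simp only [hδ]
      field_simp
    rw [h1, Real.exp_neg]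
    congr 1
    have h2 : (2 : ℝ) * Real.log n = ((2 : ℕ) : ℝ) * Real.log n := by norm_num
    rw [h2, Real.exp_nat_mul, Real.exp_log hn0]
  have hbound : ∀ p ∈ far, (W - sep p) ^ s < ((n : ℝ) ^ 2)⁻¹ * W ^ s := by
    intro p hp
    have hfar : δ * W < sep p := (Finset.mem_filter.mp hp).2
    have hsepW : sep p ≤ W :=
      Finset.sum_le_sum_of_subset_of_nonneg (Finset.filter_subset _ _) (fun e _ _ => (hw e).le)
    have h0 : 0 ≤ W - sep p := by linarith
    have h1 : W - sep p < (1 - δ) * W := by linarith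
    have h2 : (1 - δ) * W ≤ Real.exp (-δ) * W := by
      apply mul_le_mul_of_nonneg_right _ hWpos.le
      have := Real.add_one_le_exp (-δ)
      linarith
    calc (W - sep p) ^ s < (Real.exp (-δ) * W) ^ s :=
          pow_lt_pow_left₀ (lt_of_lt_of_le h1 h2) h0 (by omega)
      _ = ((n : ℝ) ^ 2)⁻¹ * W ^ s := by rw [mul_pow, hexp]
  have hWs : 0 < W ^ s := pow_pos hWpos s
  rcases far.eq_empty_or_nonempty with hfe | hfn
  · rw [hfe, Finset.sum_empty] at hle
    linarith
  · have h1 : ∑ p ∈ far, (W - sep p) ^ s < ∑ _p ∈ far, ((n : ℝ) ^ 2)⁻¹ * W ^ s :=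
      Finset.sum_lt_sum_of_nonempty hfn hbound
    rw [Finset.sum_const, nsmul_eq_mul] at h1
    have hcard : (far.card : ℝ) ≤ (n : ℝ) ^ 2 := by
      have h2 : far.card ≤ n ^ 2 := by
        calc far.card ≤ (univ : Finset (V × V)).card := Finset.card_filter_le _ _
          _ = n ^ 2 := by rw [Finset.card_univ, Fintype.card_prod, sq]
      exact_mod_cast h2
    have h3 : (far.card : ℝ) * (((n : ℝ) ^ 2)⁻¹ * W ^ s) ≤ W ^ s := by
      have hn2 : (0 : ℝ) < (n : ℝ) ^ 2 := by positivity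
      calc (far.card : ℝ) * (((n : ℝ) ^ 2)⁻¹ * W ^ s)
          ≤ (n : ℝ) ^ 2 * (((n : ℝ) ^ 2)⁻¹ * W ^ s) :=
            mul_le_mul_of_nonneg_right hcard (by positivity)
        _ = W ^ s := by
            rw [← mul_assoc, mul_inv_cancel₀ (ne_of_gt hn2), one_mul]
    linarith

/-- a large subset of `R`, all pairs of which are separated by few (weighted) elements of `H`. -/
theorem short {V : Type} [Fintype V] {E : Type} (H : Finset E) (P : E → V → Prop) (Φ s : ℕ)
    (hs : 1 ≤ s) (hΦ : 1 ≤ Φ)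
    (hcells : ∀ φ : Fin s → E, (∀ j, φ j ∈ H) →
      (univ.image (fun v : V => univ.filter (fun j => P (φ j) v))).card ≤ Φ)
    (w : E → ℝ) (hw : ∀ e, 0 < w e) (hV : 2 ≤ Fintype.card V) (R : Finset V) :
    ∃ S ⊆ R, R.card ≤ Φ * S.card ∧ ∀ u ∈ S, ∀ v ∈ S,
      ∑ e ∈ H.filter (fun e => ¬ (P e u ↔ P e v)), w e ≤
        (2 * Real.log (Fintype.card V) / s) * ∑ e ∈ H, w e := by
  rcases H.eq_empty_or_nonempty with hH | hH
  · refine ⟨R, Finset.Subset.refl _, Nat.le_mul_of_pos_left _ hΦ, ?_⟩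
    intro u _ v _
    simp [hH]
  · obtain ⟨φ, hφ, hsep⟩ := C1_tuple H P s hs w hw hV hH
    have him : (R.image (fun v : V => (univ.filter (fun j => P (φ j) v) : Finset (Fin s)))).card
        ≤ Φ :=
      le_trans (Finset.card_le_card (Finset.image_subset_image (Finset.subset_univ R)))
        (hcells φ hφ)
    obtain ⟨S, hSR, hcard, hS⟩ := C1_pigeon R _ Φ him
    refine ⟨S, hSR, hcard, ?_⟩
    intro u hu v hv
    by_contra hcon
    obtain ⟨j, hj⟩ := hsep u v (not_le.mp hcon)
    apply hj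
    have h := Finset.ext_iff.mp (hS u hu v hv) j
    simpa using h

end KS39
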