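import Pool.Agent.LibKS39.Defs

open Finset Function
open scoped Classical

namespace KS39

theorem C2_exp_le (t : ℝ) (h0 : 0 ≤ t) (h1 : t ≤ 1) : Real.exp t ≤ 1 + 2 * t := by
  have hc := convexOn_exp.2 (Set.mem_univ (0:ℝ)) (Set.mem_univ (1:ℝ))
    (show (0:ℝ) ≤ 1 - t by linarith) h0 (by ring)
  have he : Real.exp 1 < 2.7182818286 := Real.exp_one_lt_d9
  simp only [smul_eq_mul, mul_zero, mul_one, zero_add, Real.exp_zero] at hc
  nlinarith

theorem C2_aux {V : Type} [Fintype V] {E : Type} (H : Finset E) (sep : E → V → V → Prop)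
    (Φ : ℕ) (hΦ : 1 ≤ Φ) (δ : ℝ) (hδ : 0 ≤ δ)
    (hshort : ∀ w : E → ℝ, (∀ e, 0 < w e) → ∀ R : Finset V, R.Nonempty →
      ∃ S ⊆ R, R.card ≤ Φ * S.card ∧ ∀ u ∈ S, ∀ v ∈ S,
        ∑ e ∈ H.filter (fun e => sep e u v), w e ≤ δ * ∑ e ∈ H, w e)
    (L : ℝ) (hL : L = Fintype.card V / Φ + 1) (lam : ℝ) (hlam : lam * L = 1) (hlam0 : 0 < lam) :
    ∀ (k : ℕ) (R : Finset V), R.card = k → ∀ w : E → ℝ, (∀ e, 0 < w e) →
      ∃ q : V → V, (∀ v ∈ R, q v ∈ R) ∧ (∀ v ∈ R, q (q v) = q v) ∧
        (R.Nonempty → ((R.image q).card : ℝ) ≤ Φ * Real.log R.card + 1) ∧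
        (∀ c, ((R.filter (fun v => q v = c)).card : ℝ) ≤ L) ∧
        ∑ e ∈ H, w e * Real.exp (lam * ((R.filter (fun v => sep e v (q v))).card : ℝ)) ≤
          (∑ e ∈ H, w e) * Real.exp (2 * lam * δ * R.card) := by
  intro k
  induction k using Nat.strong_induction_on with
  | _ k ih =>
  intro R hR w hw
  have hΦ0 : (0:ℝ) < Φ := by exact_mod_cast hΦ
  have hL0 : 0 ≤ L := by
    rw [hL]; positivity
  rcases R.eq_empty_or_nonempty with hRe | hRn
  · subst hRe
    refine ⟨id, by simp, by simp, by simp, ?_, ?_⟩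
    · intro c
      simpa using hL0
    · simp
  · obtain ⟨S, hSR, hScard, hS⟩ := hshort w hw R hRn
    have hRpos : 0 < R.card := hRn.card_pos
    -- the size m
    obtain ⟨m, hm⟩ : ∃ m : ℕ, m = (R.card + Φ - 1) / Φ := ⟨_, rfl⟩
    have hm1 : 1 ≤ m := by
      rw [hm, Nat.le_div_iff_mul_le (by omega)]
      omega
    have hmR : R.card ≤ Φ * m := by
      have h1 := Nat.lt_mul_div_succ (R.card + Φ - 1) (show 0 < Φ by omega)
      rw [← hm] at h1
      have h2 : Φ * (m + 1) = Φ * m + Φ := by ring
      rw [h2] at h1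
      omega
    have hmS : m ≤ S.card := by
      have h1 : m < S.card + 1 := by
        rw [hm, Nat.div_lt_iff_lt_mul (by omega)]
        have h2 : (S.card + 1) * Φ = Φ * S.card + Φ := by ring
        rw [h2]
        omega
      omega
    have hmL : (m : ℝ) ≤ L := by
      have h1 : m * Φ ≤ R.card + Φ - 1 := by
        rw [hm]; exact Nat.div_mul_le_self _ _
      have h2 : R.card ≤ Fintype.card V := Finset.card_le_univ R
      have h3 : m * Φ ≤ Fintype.card V + Φ := by omega
      have h4 : (m:ℝ) * Φ ≤ Fintype.card V + Φ := by exact_mod_cast h3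
      rw [hL]
      have h5 : (Fintype.card V : ℝ) / Φ + 1 = (Fintype.card V + Φ) / Φ := by
        field_simp
      rw [h5, le_div_iff₀ hΦ0]
      exact h4
    obtain ⟨S', hS'S, hS'card⟩ := Finset.exists_subset_card_eq hmS
    have hS'n : S'.Nonempty := by
      rw [← Finset.card_pos]; omega
    obtain ⟨c, hc⟩ := hS'n
    have hS'R : S' ⊆ R := hS'S.trans hSR
    obtain ⟨R', hR'⟩ : ∃ R' : Finset V, R' = R \ S' := ⟨_, rfl⟩
    have hR'card : R'.card + m = R.card := by
      rw [hR', ← hS'card]
      exact Finset.card_sdiff_add_card_eq_card hS'R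
    have hR'lt : R'.card < k := by omega
    obtain ⟨cr, hcr⟩ : ∃ cr : E → ℝ, cr = fun e => ((S'.filter (fun v => sep e v c)).card : ℝ) :=
      ⟨_, rfl⟩
    obtain ⟨w', hw'⟩ : ∃ w' : E → ℝ, w' = fun e => w e * Real.exp (lam * cr e) := ⟨_, rfl⟩
    have hw'pos : ∀ e, 0 < w' e := by
      intro e
      rw [hw']
      exact mul_pos (hw e) (Real.exp_pos _)
    obtain ⟨q', hq1, hq2, hq3, hq4, hq5⟩ := ih R'.card hR'lt R' rfl w' hw'pos
    have hmemR' : ∀ v, v ∈ R' ↔ v ∈ R ∧ v ∉ S' := by
      intro v
      rw [hR', Finset.mem_sdiff]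
    obtain ⟨q, hq⟩ : ∃ q : V → V, q = fun v => if v ∈ S' then c else q' v := ⟨_, rfl⟩
    have hqS : ∀ v, v ∈ S' → q v = c := by
      intro v hv
      rw [hq]; simp [hv]
    have hqR : ∀ v, v ∉ S' → q v = q' v := by
      intro v hv
      rw [hq]; simp [hv]
    refine ⟨q, ?_, ?_, ?_, ?_, ?_⟩
    · intro v hv
      by_cases hvS : v ∈ S'
      · rw [hqS v hvS]; exact hS'R hc
      · rw [hqR v hvS]
        exact ((hmemR' _).1 (hq1 v ((hmemR' v).2 ⟨hv, hvS⟩))).1
    · intro v hv
      by_cases hvS : v ∈ S'
      · rw [hqS v hvS, hqS c hc]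
      · have h1 : v ∈ R' := (hmemR' v).2 ⟨hv, hvS⟩
        have h2 := (hmemR' _).1 (hq1 v h1)
        rw [hqR v hvS, hqR _ h2.2]
        exact hq2 v h1
    · intro _
      have hsub : R.image q ⊆ insert c (R'.image q') := by
        intro y hy
        rw [Finset.mem_image] at hy
        obtain ⟨v, hv, rfl⟩ := hy
        by_cases hvS : v ∈ S'
        · rw [hqS v hvS]; exact Finset.mem_insert_self _ _
        · rw [hqR v hvS]
          exact Finset.mem_insert_of_mem
            (Finset.mem_image_of_mem _ ((hmemR' v).2 ⟨hv, hvS⟩))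
      have hcard : (R.image q).card ≤ (R'.image q').card + 1 :=
        (Finset.card_le_card hsub).trans (Finset.card_insert_le _ _)
      have hlogR : 0 ≤ Real.log R.card := Real.log_nonneg (by exact_mod_cast hRpos)
      rcases R'.eq_empty_or_nonempty with hR'e | hR'n
      · rw [hR'e] at hcard
        simp only [Finset.image_empty, Finset.card_empty, zero_add] at hcard
        have h1 : ((R.image q).card : ℝ) ≤ 1 := by exact_mod_cast hcard
        have h2 : 0 ≤ (Φ : ℝ) * Real.log R.card := by positivity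
        linarith
      · have h3 := hq3 hR'n
        have hR'pos : 0 < R'.card := hR'n.card_pos
        have hR'r : (0:ℝ) < R'.card := by exact_mod_cast hR'pos
        have hRr : (0:ℝ) < R.card := by exact_mod_cast hRpos
        have h4 : Real.log ((R'.card : ℝ) / R.card) ≤ (R'.card : ℝ) / R.card - 1 :=
          Real.log_le_sub_one_of_pos (by positivity)
        rw [Real.log_div hR'r.ne' hRr.ne'] at h4
        have h5 : (R'.card : ℝ) / R.card - 1 = - (m / R.card) := by
          have h6 : (R.card : ℝ) = R'.card + m := by exact_mod_cast hR'card.symm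
          rw [h6]
          have h7 : ((R'.card : ℝ) + m) ≠ 0 := by
            rw [← h6]; exact hRr.ne'
          field_simp
          ring
        have h6 : 1 ≤ (Φ : ℝ) * (m / R.card) := by
          rw [← mul_div_assoc, le_div_iff₀ hRr, one_mul]
          exact_mod_cast hmR
        have h7 : (Φ : ℝ) * Real.log R'.card ≤ Φ * Real.log R.card - 1 := by
          have h8 : Real.log R'.card ≤ Real.log R.card - m / R.card := by linarith
          have h9 := mul_le_mul_of_nonneg_left h8 hΦ0.le
          rw [mul_sub] at h9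
          linarith
        have h8 : ((R.image q).card : ℝ) ≤ (R'.image q').card + 1 := by exact_mod_cast hcard
        linarith
    · intro d
      by_cases hdc : d = c
      · subst hdc
        have hsub : R.filter (fun v => q v = d) ⊆ S' := by
          intro v hv
          rw [Finset.mem_filter] at hv
          by_contra hvS
          have h1 : v ∈ R' := (hmemR' v).2 ⟨hv.1, hvS⟩
          have h2 := (hmemR' _).1 (hq1 v h1)
          rw [← hqR v hvS, hv.2] at h2
          exact h2.2 hc
        have h1 : ((R.filter (fun v => q v = d)).card : ℝ) ≤ m := by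
          exact_mod_cast (Finset.card_le_card hsub).trans_eq hS'card
        exact h1.trans hmL
      · have hsub : R.filter (fun v => q v = d) ⊆ R'.filter (fun v => q' v = d) := by
          intro v hv
          rw [Finset.mem_filter] at hv
          have hvS : v ∉ S' := by
            intro hvS
            exact hdc (by rw [← hv.2, hqS v hvS])
          rw [Finset.mem_filter]
          exact ⟨(hmemR' v).2 ⟨hv.1, hvS⟩, by rw [← hqR v hvS]; exact hv.2⟩
        have h1 : ((R.filter (fun v => q v = d)).card : ℝ) ≤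
            ((R'.filter (fun v => q' v = d)).card : ℝ) := by
          exact_mod_cast Finset.card_le_card hsub
        exact h1.trans (hq4 d)
    · -- the weight estimate
      have hsplit : ∀ e, ((R.filter (fun v => sep e v (q v))).card : ℝ) =
          cr e + ((R'.filter (fun v => sep e v (q' v))).card : ℝ) := by
        intro e
        have h1 : R.filter (fun v => sep e v (q v)) =
            S'.filter (fun v => sep e v c) ∪ R'.filter (fun v => sep e v (q' v)) := by
          ext v
          simp only [Finset.mem_filter, Finset.mem_union]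
          constructor
          · rintro ⟨hv, hs⟩
            by_cases hvS : v ∈ S'
            · left
              rw [hqS v hvS] at hs
              exact ⟨hvS, hs⟩
            · right
              rw [hqR v hvS] at hs
              exact ⟨(hmemR' v).2 ⟨hv, hvS⟩, hs⟩
          · rintro (⟨hv, hs⟩ | ⟨hv, hs⟩)
            · refine ⟨hS'R hv, ?_⟩
              rw [hqS v hv]; exact hs
            · have h2 := (hmemR' v).1 hv
              refine ⟨h2.1, ?_⟩
              rw [hqR v h2.2]; exact hs
        have hdisj : Disjoint (S'.filter (fun v => sep e v c))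
            (R'.filter (fun v => sep e v (q' v))) := by
          rw [Finset.disjoint_left]
          intro v hv hv'
          exact ((hmemR' v).1 (Finset.mem_filter.1 hv').1).2 (Finset.mem_filter.1 hv).1
        rw [h1, Finset.card_union_of_disjoint hdisj, hcr]
        push_cast
        rfl
      have hE1 : ∑ e ∈ H, w e * Real.exp (lam * ((R.filter (fun v => sep e v (q v))).card : ℝ)) =
          ∑ e ∈ H, w' e * Real.exp (lam * ((R'.filter (fun v => sep e v (q' v))).card : ℝ)) := by
        refine Finset.sum_congr rfl (fun e _ => ?_)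
        rw [hsplit e, hw', mul_add, Real.exp_add, mul_assoc]
      have hcr0 : ∀ e, 0 ≤ cr e := by
        intro e; rw [hcr]; exact Nat.cast_nonneg _
      have hcrm : ∀ e, cr e ≤ m := by
        intro e
        rw [hcr]
        have h1 : (S'.filter (fun v => sep e v c)).card ≤ m :=
          (Finset.card_filter_le _ _).trans_eq hS'card
        show ((S'.filter (fun v => sep e v c)).card : ℝ) ≤ m
        exact_mod_cast h1
      have hW' : ∑ e ∈ H, w' e ≤ (∑ e ∈ H, w e) * (1 + 2 * lam * δ * m) := by
        have h1 : ∀ e ∈ H, w' e ≤ w e + 2 * lam * (w e * cr e) := by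
          intro e _
          rw [hw']
          have h2 : lam * cr e ≤ 1 := by
            calc lam * cr e ≤ lam * L :=
                  mul_le_mul_of_nonneg_left ((hcrm e).trans hmL) hlam0.le
              _ = 1 := hlam
          have h3 := C2_exp_le (lam * cr e) (mul_nonneg hlam0.le (hcr0 e)) h2
          have h4 := mul_le_mul_of_nonneg_left h3 (hw e).le
          calc w e * Real.exp (lam * cr e) ≤ w e * (1 + 2 * (lam * cr e)) := h4
            _ = w e + 2 * lam * (w e * cr e) := by ring
        have h2 : ∑ e ∈ H, w e * cr e =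
            ∑ v ∈ S', ∑ e ∈ H.filter (fun e => sep e v c), w e := by
          have h3 : ∀ e ∈ H, w e * cr e = ∑ v ∈ S', if sep e v c then w e else 0 := by
            intro e _
            rw [← Finset.sum_filter, Finset.sum_const, nsmul_eq_mul, hcr, mul_comm]
          rw [Finset.sum_congr rfl h3, Finset.sum_comm]
          refine Finset.sum_congr rfl (fun v _ => ?_)
          rw [Finset.sum_filter]
        have h3 : ∑ v ∈ S', ∑ e ∈ H.filter (fun e => sep e v c), w e ≤
            ∑ v ∈ S', δ * ∑ e ∈ H, w e :=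
          Finset.sum_le_sum (fun v hv => hS v (hS'S hv) c (hS'S hc))
        rw [Finset.sum_const, hS'card, nsmul_eq_mul] at h3
        calc ∑ e ∈ H, w' e ≤ ∑ e ∈ H, (w e + 2 * lam * (w e * cr e)) := Finset.sum_le_sum h1
          _ = ∑ e ∈ H, w e + 2 * lam * ∑ e ∈ H, w e * cr e := by
              rw [Finset.sum_add_distrib, ← Finset.mul_sum]
          _ ≤ ∑ e ∈ H, w e + 2 * lam * (m * (δ * ∑ e ∈ H, w e)) := by
              rw [h2]
              have h5 : 0 ≤ 2 * lam := by linarith
              linarith [mul_le_mul_of_nonneg_left h3 h5]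
          _ = (∑ e ∈ H, w e) * (1 + 2 * lam * δ * m) := by ring
      have hW0 : 0 ≤ ∑ e ∈ H, w e := Finset.sum_nonneg (fun e _ => (hw e).le)
      have hexp : 1 + 2 * lam * δ * m ≤ Real.exp (2 * lam * δ * m) := by
        have := Real.add_one_le_exp (2 * lam * δ * m)
        linarith
      rw [hE1]
      calc ∑ e ∈ H, w' e * Real.exp (lam * ((R'.filter (fun v => sep e v (q' v))).card : ℝ))
          ≤ (∑ e ∈ H, w' e) * Real.exp (2 * lam * δ * R'.card) := hq5
        _ ≤ ((∑ e ∈ H, w e) * Real.exp (2 * lam * δ * m)) *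
              Real.exp (2 * lam * δ * R'.card) := by
            refine mul_le_mul_of_nonneg_right ?_ (Real.exp_pos _).le
            exact hW'.trans (mul_le_mul_of_nonneg_left hexp hW0)
        _ = (∑ e ∈ H, w e) * Real.exp (2 * lam * δ * R.card) := by
            have h6 : (R.card : ℝ) = R'.card + m := by exact_mod_cast hR'card.symm
            rw [mul_assoc, ← Real.exp_add, h6]
            congr 2
            ring

/-- multiplicative weights: an idempotent assignment with few crossings for every `e ∈ H`. -/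
theorem mwu {V : Type} [Fintype V] {E : Type} (H : Finset E) (sep : E → V → V → Prop)
    (Φ : ℕ) (hΦ : 1 ≤ Φ) (δ : ℝ) (hδ : 0 ≤ δ) (hH : H.Nonempty)
    (hshort : ∀ w : E → ℝ, (∀ e, 0 < w e) → ∀ R : Finset V, R.Nonempty →
      ∃ S ⊆ R, R.card ≤ Φ * S.card ∧ ∀ u ∈ S, ∀ v ∈ S,
        ∑ e ∈ H.filter (fun e => sep e u v), w e ≤ δ * ∑ e ∈ H, w e) :
    ∃ q : V → V, (∀ v, q (q v) = q v) ∧
      ((univ.image q).card : ℝ) ≤ Φ * Real.log (Fintype.card V) + 1 ∧
      (∀ c, ((univ.filter (fun v => q v = c)).card : ℝ) ≤ Fintype.card V / Φ + 1) ∧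
      ∀ e ∈ H, ((univ.filter (fun v => sep e v (q v))).card : ℝ) ≤
        (Fintype.card V / Φ + 1) * Real.log H.card + 2 * δ * Fintype.card V := by
  obtain ⟨L, hL⟩ : ∃ L : ℝ, L = Fintype.card V / Φ + 1 := ⟨_, rfl⟩
  have hΦ0 : (0:ℝ) < Φ := by exact_mod_cast hΦ
  have hL0 : 0 < L := by rw [hL]; positivity
  have hlam : L⁻¹ * L = 1 := inv_mul_cancel₀ hL0.ne'
  have hlam0 : 0 < L⁻¹ := inv_pos.2 hL0
  obtain ⟨q, hq1, hq2, hq3, hq4, hq5⟩ := C2_aux H sep Φ hΦ δ hδ hshort L hL L⁻¹ hlam hlam0
    (univ : Finset V).card univ rfl (fun _ => 1) (fun _ => one_pos)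
  refine ⟨q, fun v => hq2 v (Finset.mem_univ v), ?_, ?_, ?_⟩
  · rcases (univ : Finset V).eq_empty_or_nonempty with hV | hV
    · have h0 : Fintype.card V = 0 := by
        rw [← Finset.card_univ, hV, Finset.card_empty]
      rw [hV, h0]
      simp
    · have := hq3 hV
      rw [Finset.card_univ] at this
      exact this
  · intro c
    rw [← hL]
    exact hq4 c
  · intro e he
    rw [← hL]
    obtain ⟨X, hX⟩ : ∃ X : ℝ, X = ((univ.filter (fun v => sep e v (q v))).card : ℝ) := ⟨_, rfl⟩
    rw [← hX]
    have h1 : Real.exp (L⁻¹ * X) ≤ (H.card : ℝ) * Real.exp (2 * L⁻¹ * δ * Fintype.card V) := by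
      have h2 : (1:ℝ) * Real.exp (L⁻¹ * ((univ.filter (fun v => sep e v (q v))).card : ℝ)) ≤
          ∑ e ∈ H, (1:ℝ) * Real.exp (L⁻¹ * ((univ.filter (fun v => sep e v (q v))).card : ℝ)) :=
        Finset.single_le_sum
          (f := fun e => (1:ℝ) * Real.exp (L⁻¹ * ((univ.filter (fun v => sep e v (q v))).card : ℝ)))
          (fun e _ => by positivity) he
      rw [← hX] at h2
      have h3 := h2.trans hq5
      simp only [one_mul, Finset.sum_const, nsmul_eq_mul, mul_one, Finset.card_univ] at h3
      exact h3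
    have hHpos : (0:ℝ) < H.card := by exact_mod_cast hH.card_pos
    have h2 : L⁻¹ * X ≤ Real.log H.card + 2 * L⁻¹ * δ * Fintype.card V := by
      have h3 := Real.log_le_log (Real.exp_pos _) h1
      rw [Real.log_exp, Real.log_mul hHpos.ne' (Real.exp_pos _).ne', Real.log_exp] at h3
      exact h3
    have h3 := mul_le_mul_of_nonneg_left h2 hL0.le
    have h4 : L * (L⁻¹ * X) = X := by
      rw [← mul_assoc, mul_inv_cancel₀ hL0.ne', one_mul]
    have h5 : L * (Real.log H.card + 2 * L⁻¹ * δ * Fintype.card V) =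
        L * Real.log H.card + 2 * δ * Fintype.card V := by
      field_simp
    rw [h4, h5] at h3
    exact h3

end KS39
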