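import Pool.Agent.LibKS39.A1
import Pool.Agent.LibKS39.A2
import Pool.Agent.LibKS39.B1
import Pool.Agent.LibKS39.C1
import Pool.Agent.LibKS39.C2
import Pool.Agent.LibKS39.Defs

open Finset Function
open scoped Classical

namespace KS39

/-- perturbation of a functional to one that vanishes nowhere and keeps the nonzero signs. -/
theorem C3_perturb {V : Type} [Fintype V] {m : ℕ} (x : V → Fin m → ℝ) (ℓ : Fin m → ℝ)
    (hℓ : ∀ v, ℓ ⬝ᵥ x v = 1) (φ : Fin m → ℝ) :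
    ∃ ψ : Fin m → ℝ, (∀ v, ψ ⬝ᵥ x v ≠ 0) ∧
      (∀ v, 0 < φ ⬝ᵥ x v → 0 < ψ ⬝ᵥ x v) ∧ (∀ v, φ ⬝ᵥ x v < 0 → ψ ⬝ᵥ x v < 0) := by
  have h : ∀ᶠ ε in nhdsWithin (0 : ℝ) (Set.Ioi 0), ∀ v, φ ⬝ᵥ x v ≠ 0 → ε < |φ ⬝ᵥ x v| := by
    rw [Filter.eventually_all]
    intro v
    by_cases hv : φ ⬝ᵥ x v = 0
    · exact Filter.Eventually.of_forall (fun ε h => absurd hv h)
    · filter_upwards [Ioo_mem_nhdsGT (abs_pos.mpr hv)] with ε hε _
      exact hε.2
  obtain ⟨ε, hε, hpos⟩ := (h.and self_mem_nhdsWithin).exists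
  have hpos' : 0 < ε := hpos
  have key : ∀ v, (φ + ε • ℓ) ⬝ᵥ x v = φ ⬝ᵥ x v + ε := by
    intro v
    rw [add_dotProduct, smul_dotProduct, hℓ v, smul_eq_mul, mul_one]
  refine ⟨φ + ε • ℓ, ?_, ?_, ?_⟩
  · intro v
    rw [key v]
    by_cases hv : φ ⬝ᵥ x v = 0
    · rw [hv, zero_add]; exact hpos'.ne'
    · have := hε v hv
      intro h0
      have h1 : φ ⬝ᵥ x v = -ε := by linarith
      rw [h1, abs_neg, abs_of_pos hpos'] at this
      exact lt_irrefl _ this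
  · intro v hv
    rw [key v]; linarith
  · intro v hv
    rw [key v]
    have := hε v hv.ne
    rw [abs_of_neg hv] at this
    linarith

/-- the low-crossing assignment. -/
theorem assign {V : Type} [Fintype V] {m : ℕ} (hm : 1 ≤ m) (x : V → Fin m → ℝ) (ℓ : Fin m → ℝ)
    (hℓ : ∀ v, ℓ ⬝ᵥ x v = 1) (hV : 2 ≤ Fintype.card V) (s : ℕ) (hs : 1 ≤ s) :
    ∃ q : V → V, (∀ v, q (q v) = q v) ∧
      ((univ.image q).card : ℝ) ≤ Phi m s * Real.log (Fintype.card V) + 1 ∧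
      (∀ c, ((univ.filter (fun v => q v = c)).card : ℝ) ≤ Fintype.card V / Phi m s + 1) ∧
      ∀ φ : Fin m → ℝ,
        ((univ.filter (fun v => (φ ⬝ᵥ x v) * (φ ⬝ᵥ x (q v)) < 0)).card : ℝ) ≤
          (Fintype.card V / Phi m s + 1) * (m * Real.log (Fintype.card V + 1)) +
            4 * Fintype.card V * Real.log (Fintype.card V) / s := by
  obtain ⟨H, hH0, hHc, hH⟩ := reps x
  have hHne : H.Nonempty := by
    obtain ⟨φ, hφ, -⟩ := hH ℓ (fun v => by rw [hℓ v]; exact one_ne_zero)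
    exact ⟨φ, hφ⟩
  have hΦ : 1 ≤ Phi m s := one_le_Phi hm
  have hlogn : 0 ≤ Real.log (Fintype.card V) := Real.log_natCast_nonneg _
  have hδ : (0 : ℝ) ≤ 2 * Real.log (Fintype.card V) / s := by positivity
  obtain ⟨q, hq1, hq2, hq3, hq4⟩ := mwu H (fun e u v => ¬ ((0 < e ⬝ᵥ x u) ↔ (0 < e ⬝ᵥ x v)))
    (Phi m s) hΦ (2 * Real.log (Fintype.card V) / s) hδ hHne
    (fun w hw R _ => by
      obtain ⟨S, hS1, hS2, hS3⟩ := short H (fun e v => 0 < e ⬝ᵥ x v) (Phi m s) s hs hΦ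
        (fun φ _ => by convert cells x ℓ hℓ s φ) w hw hV R
      refine ⟨S, hS1, hS2, fun u hu v hv => ?_⟩
      convert hS3 u hu v hv)
  refine ⟨q, hq1, hq2, hq3, ?_⟩
  intro φ
  obtain ⟨ψ, hψ0, hψp, hψn⟩ := C3_perturb x ℓ hℓ φ
  obtain ⟨e, he, hes⟩ := hH ψ hψ0
  have hsub : (univ.filter (fun v => (φ ⬝ᵥ x v) * (φ ⬝ᵥ x (q v)) < 0)) ⊆
      univ.filter (fun v => ¬ ((0 < e ⬝ᵥ x v) ↔ (0 < e ⬝ᵥ x (q v)))) := by
    intro v hv
    rw [mem_filter] at hv ⊢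
    refine ⟨hv.1, ?_⟩
    rw [hes v, hes (q v)]
    rcases mul_neg_iff.mp hv.2 with ⟨h1, h2⟩ | ⟨h1, h2⟩
    · have h3 := hψp v h1
      have h4 := hψn (q v) h2
      intro h
      exact absurd (h.mp h3) (not_lt.mpr h4.le)
    · have h3 := hψn v h1
      have h4 := hψp (q v) h2
      intro h
      exact absurd (h.mpr h4) (not_lt.mpr h3.le)
  have h1 : ((univ.filter (fun v => (φ ⬝ᵥ x v) * (φ ⬝ᵥ x (q v)) < 0)).card : ℝ) ≤
      (univ.filter (fun v => ¬ ((0 < e ⬝ᵥ x v) ↔ (0 < e ⬝ᵥ x (q v))))).card := by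
    exact_mod_cast card_le_card hsub
  have h2 : ((univ.filter (fun v => ¬ ((0 < e ⬝ᵥ x v) ↔ (0 < e ⬝ᵥ x (q v))))).card : ℝ) ≤
      (Fintype.card V / Phi m s + 1) * Real.log H.card +
        2 * (2 * Real.log (Fintype.card V) / s) * Fintype.card V := by
    convert hq4 e he
  have hlogH : Real.log H.card ≤ m * Real.log (Fintype.card V + 1) := by
    have hc : (0 : ℝ) < H.card := by exact_mod_cast hHne.card_pos
    calc Real.log H.card ≤ Real.log (((Fintype.card V + 1) ^ m : ℕ) : ℝ) :=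
          Real.log_le_log hc (by exact_mod_cast hHc)
      _ = m * Real.log (Fintype.card V + 1) := by
          push_cast
          rw [Real.log_pow]
  have h3 : ((Fintype.card V : ℝ) / Phi m s + 1) * Real.log H.card ≤
      (Fintype.card V / Phi m s + 1) * (m * Real.log (Fintype.card V + 1)) :=
    mul_le_mul_of_nonneg_left hlogH (by positivity)
  have h4 : 2 * (2 * Real.log (Fintype.card V) / s) * Fintype.card V =
      4 * Fintype.card V * Real.log (Fintype.card V) / s := by ring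
  rw [← h4]
  exact h1.trans (h2.trans (by linarith))

end KS39
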