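import Pool.Agent.LibKS39.Defs

open Finset Function
open scoped Classical

namespace KS39

/-- one of the probes lies in the interval -/
theorem D1_probe {ax lam ay by' : ℝ} {L : ℕ} (hlam : 0 < lam) (hlen : lam ≤ by' - ay)
    (h1 : ay - (ax + lam) ≤ L * lam) (h2 : ax - by' ≤ L * lam) :
    ∃ j ∈ range (4 * L + 7), ay < ax - (L + 1) * lam + j * (lam / 2) ∧
      ax - (L + 1) * lam + j * (lam / 2) < by' := by
  by_cases h : ay < ax - (L + 1) * lam
  · refine ⟨0, Finset.mem_range.2 (by omega), ?_, ?_⟩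
    · push_cast
      linarith
    · push_cast
      linarith
  · have h : ax - (L + 1) * lam ≤ ay := not_lt.1 h
    have hz : 0 ≤ (ay - (ax - (L + 1) * lam)) / (lam / 2) := by
      apply div_nonneg
      · linarith
      · linarith
    have hf1 := Nat.floor_le hz
    have hf2 := Nat.lt_floor_add_one ((ay - (ax - (L + 1) * lam)) / (lam / 2))
    set f := ⌊(ay - (ax - (L + 1) * lam)) / (lam / 2)⌋₊
    rw [le_div_iff₀ (by linarith)] at hf1
    rw [div_lt_iff₀ (by linarith)] at hf2
    refine ⟨f + 1, ?_, ?_, ?_⟩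
    · rw [Finset.mem_range]
      have h3 : (f : ℝ) * (lam / 2) ≤ (4 * L + 4) * (lam / 2) := by
        refine hf1.trans ?_
        linarith
      have h4 : (f : ℝ) ≤ 4 * L + 4 := le_of_mul_le_mul_right h3 (by linarith)
      have h5 : f ≤ 4 * L + 4 := by exact_mod_cast h4
      omega
    · push_cast
      linarith
    · push_cast
      linarith

/-- few longer intervals are close to a given one -/
theorem D1_one {V : Type} (X : Finset V) (a b : V → ℝ) (κ : ℝ) (L : ℕ)
    (hκ : ∀ t : ℝ, ((X.filter (fun v => a v < t ∧ t < b v)).card : ℝ) ≤ κ) (x : V)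
    (hx : a x < b x) :
    ((X.filter (fun y => b x - a x ≤ b y - a y ∧ a y - b x ≤ L * (b x - a x) ∧
      a x - b y ≤ L * (b x - a x))).card : ℝ) ≤ (4 * L + 7) * κ := by
  have hsub : X.filter (fun y => b x - a x ≤ b y - a y ∧ a y - b x ≤ L * (b x - a x) ∧
      a x - b y ≤ L * (b x - a x)) ⊆
      (range (4 * L + 7)).biUnion (fun j => X.filter (fun v =>
        a v < a x - (L + 1) * (b x - a x) + j * ((b x - a x) / 2) ∧
        a x - (L + 1) * (b x - a x) + j * ((b x - a x) / 2) < b v)) := by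
    intro y hy
    rw [Finset.mem_filter] at hy
    obtain ⟨hyX, h1, h2, h3⟩ := hy
    obtain ⟨j, hj, h4, h5⟩ := D1_probe (ax := a x) (lam := b x - a x) (ay := a y) (by' := b y)
      (L := L) (by linarith) h1 (by linarith) h3
    rw [Finset.mem_biUnion]
    exact ⟨j, hj, Finset.mem_filter.2 ⟨hyX, h4, h5⟩⟩
  have h1 := Finset.card_le_card hsub
  have h2 := h1.trans Finset.card_biUnion_le
  have h3 : ((X.filter (fun y => b x - a x ≤ b y - a y ∧ a y - b x ≤ L * (b x - a x) ∧
      a x - b y ≤ L * (b x - a x))).card : ℝ) ≤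
      ∑ j ∈ range (4 * L + 7), ((X.filter (fun v =>
        a v < a x - (L + 1) * (b x - a x) + j * ((b x - a x) / 2) ∧
        a x - (L + 1) * (b x - a x) + j * ((b x - a x) / 2) < b v)).card : ℝ) := by
    exact_mod_cast h2
  refine h3.trans ?_
  refine (Finset.sum_le_sum (fun j _ => hκ _)).trans ?_
  rw [Finset.sum_const, Finset.card_range, nsmul_eq_mul]
  push_cast
  exact le_rfl

/-- interval lemma: few pairs of intervals are close relative to the shorter one. -/
theorem interval_lemma {V : Type} (X : Finset V) (a b : V → ℝ) (hab : ∀ v ∈ X, a v < b v)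
    (κ : ℝ) (L : ℕ)
    (hκ : ∀ t : ℝ, ((X.filter (fun v => a v < t ∧ t < b v)).card : ℝ) ≤ κ) :
    (((X ×ˢ X).filter (fun p : V × V =>
        a p.2 - b p.1 ≤ L * min (b p.1 - a p.1) (b p.2 - a p.2) ∧
        a p.1 - b p.2 ≤ L * min (b p.1 - a p.1) (b p.2 - a p.2))).card : ℝ) ≤
      2 * (4 * L + 7) * κ * X.card := by
  -- the two orderings
  let Y : V → Finset V := fun x => X.filter (fun y => b x - a x ≤ b y - a y ∧
    a y - b x ≤ L * (b x - a x) ∧ a x - b y ≤ L * (b x - a x))
  have hY : ∀ x ∈ X, ((Y x).card : ℝ) ≤ (4 * L + 7) * κ := fun x hx =>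
    D1_one X a b κ L hκ x (hab x hx)
  let A : Finset (V × V) := X.biUnion (fun x => (Y x).image (fun y => (x, y)))
  let B : Finset (V × V) := X.biUnion (fun x => (Y x).image (fun y => (y, x)))
  have hA : (A.card : ℝ) ≤ (4 * L + 7) * κ * X.card := by
    have h1 : (A.card : ℝ) ≤ ∑ x ∈ X, ((Y x).card : ℝ) := by
      have : A.card ≤ ∑ x ∈ X, (Y x).card :=
        Finset.card_biUnion_le.trans (Finset.sum_le_sum (fun x _ => Finset.card_image_le))
      exact_mod_cast this
    refine h1.trans ((Finset.sum_le_sum hY).trans ?_)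
    rw [Finset.sum_const, nsmul_eq_mul, mul_comm]
  have hB : (B.card : ℝ) ≤ (4 * L + 7) * κ * X.card := by
    have h1 : (B.card : ℝ) ≤ ∑ x ∈ X, ((Y x).card : ℝ) := by
      have : B.card ≤ ∑ x ∈ X, (Y x).card :=
        Finset.card_biUnion_le.trans (Finset.sum_le_sum (fun x _ => Finset.card_image_le))
      exact_mod_cast this
    refine h1.trans ((Finset.sum_le_sum hY).trans ?_)
    rw [Finset.sum_const, nsmul_eq_mul, mul_comm]
  have hsub : (X ×ˢ X).filter (fun p : V × V =>
        a p.2 - b p.1 ≤ L * min (b p.1 - a p.1) (b p.2 - a p.2) ∧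
        a p.1 - b p.2 ≤ L * min (b p.1 - a p.1) (b p.2 - a p.2)) ⊆ A ∪ B := by
    rintro ⟨x, y⟩ hp
    rw [Finset.mem_filter, Finset.mem_product] at hp
    obtain ⟨⟨hx, hy⟩, h1, h2⟩ := hp
    simp only at hx hy h1 h2
    rw [Finset.mem_union]
    rcases le_total (b x - a x) (b y - a y) with h | h
    · left
      rw [min_eq_left h] at h1 h2
      rw [Finset.mem_biUnion]
      refine ⟨x, hx, Finset.mem_image.2 ⟨y, Finset.mem_filter.2 ⟨hy, h, h1, h2⟩, rfl⟩⟩
    · right
      rw [min_eq_right h] at h1 h2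
      rw [Finset.mem_biUnion]
      refine ⟨y, hy, Finset.mem_image.2 ⟨x, Finset.mem_filter.2 ⟨hx, h, h2, h1⟩, rfl⟩⟩
  have h3 : (((X ×ˢ X).filter (fun p : V × V =>
        a p.2 - b p.1 ≤ L * min (b p.1 - a p.1) (b p.2 - a p.2) ∧
        a p.1 - b p.2 ≤ L * min (b p.1 - a p.1) (b p.2 - a p.2))).card : ℝ) ≤
      (A.card : ℝ) + B.card := by
    have := (Finset.card_le_card hsub).trans (Finset.card_union_le A B)
    exact_mod_cast this
  linarith

end KS39
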