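import Pool.Agent.LibKS39.Defs

open Finset Function
open scoped Classical

namespace KS39

theorem D2_mul {L a b X Y : ℝ} (hL : 0 < L) (ha : 0 ≤ a) (hb : 0 ≤ b) (hX : b ≤ X)
    (hY : L * a ≤ Y) : L * (a * b) ≤ X * Y := by
  have h1 : 0 ≤ L * a := mul_nonneg hL.le ha
  calc L * (a * b) = b * (L * a) := by ring
    _ ≤ X * Y := mul_le_mul hX hY h1 (le_trans hb hX)

theorem D2_aux (L : ℝ) (hL : 0 < L) (α β γ ε : ℝ) (h1 : α ≠ β) (h2 : γ ≠ ε)
    (h : L * min |α - β| |γ - ε| < min γ ε - max α β) :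
    L * |(α - β) * (γ - ε)| ≤ |(γ - β) * (ε - α)| := by
  have hmin1 : min γ ε ≤ γ := min_le_left _ _
  have hmin2 : min γ ε ≤ ε := min_le_right _ _
  have hmax1 : α ≤ max α β := le_max_left _ _
  have hmax2 : β ≤ max α β := le_max_right _ _
  have ha := abs_nonneg (α - β)
  have hb := abs_nonneg (γ - ε)
  have hX := le_abs_self (γ - β)
  have hY := le_abs_self (ε - α)
  rw [abs_mul, abs_mul]
  rcases le_total |α - β| |γ - ε| with hab | hab
  · rw [min_eq_left hab] at h
    have h0 : 0 ≤ L * |α - β| := mul_nonneg hL.le ha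
    rcases lt_or_gt_of_ne h2 with hγ | hγ
    · have e : |γ - ε| = ε - γ := by rw [abs_of_neg (by linarith)]; ring
      have := D2_mul (X := |ε - α|) (Y := |γ - β|) hL ha hb (by rw [e]; linarith) (by linarith)
      linarith [mul_comm |ε - α| |γ - β|]
    · have e : |γ - ε| = γ - ε := abs_of_pos (by linarith)
      exact D2_mul (X := |γ - β|) (Y := |ε - α|) hL ha hb (by rw [e]; linarith) (by linarith)
  · rw [min_eq_right hab] at h
    have h0 : 0 ≤ L * |γ - ε| := mul_nonneg hL.le hb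
    rw [mul_comm |α - β| |γ - ε|]
    rcases lt_or_gt_of_ne h1 with hα | hα
    · have e : |α - β| = β - α := by rw [abs_of_neg (by linarith)]; ring
      have := D2_mul (X := |ε - α|) (Y := |γ - β|) hL hb ha (by rw [e]; linarith) (by linarith)
      linarith [mul_comm |ε - α| |γ - β|]
    · have e : |α - β| = α - β := abs_of_pos (by linarith)
      exact D2_mul (X := |γ - β|) (Y := |ε - α|) hL hb ha (by rw [e]; linarith) (by linarith)

theorem ratio_real (L : ℝ) (hL : 0 < L) (α β γ ε : ℝ) (h1 : α ≠ β) (h2 : γ ≠ ε)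
    (h : L * min |α - β| |γ - ε| < min γ ε - max α β ∨
      L * min |α - β| |γ - ε| < min α β - max γ ε) :
    L * |(α - β) * (γ - ε)| ≤ |(γ - β) * (ε - α)| := by
  rcases h with h | h
  · exact D2_aux L hL α β γ ε h1 h2 h
  · rw [min_comm |α - β| |γ - ε|] at h
    have h3 := D2_aux L hL γ ε α β h2 h1 h
    have e1 : (α - ε) * (β - γ) = (γ - β) * (ε - α) := by ring
    rw [mul_comm (α - β) (γ - ε), ← e1]
    exact h3

end KS39
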