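import Pool.Agent.LibKS39.Defs

open Finset Function
open scoped Classical

namespace KS39

theorem E0_det_update {m : ℕ} (M : Fin m → Fin m → ℝ) (l : Fin m) (z : Fin m → ℝ) :
    DET (update M l z) = Matrix.detRowAlternating (update M l z) := rfl

theorem E0_det {m : ℕ} (M : Fin m → Fin m → ℝ) :
    DET M = Matrix.detRowAlternating M := rfl

/-- uniqueness in Cramer's rule. -/
theorem DET_update_sum {m : ℕ} (M : Fin m → Fin m → ℝ) (t : Fin m → ℝ) (l : Fin m) :
    DET (update M l (∑ i, t i • M i)) = t l * DET M := by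
  rw [E0_det_update, AlternatingMap.map_update_sum]
  rw [Finset.sum_eq_single l]
  · rw [AlternatingMap.map_update_smul, update_eq_self, E0_det, smul_eq_mul]
  · intro b _ hb
    rw [AlternatingMap.map_update_smul, AlternatingMap.map_update_self _ _ (Ne.symm hb), smul_zero]
  · intro h
    exact absurd (Finset.mem_univ l) h

theorem DET_ne_zero_iff {m : ℕ} (M : Fin m → Fin m → ℝ) :
    DET M ≠ 0 ↔ LinearIndependent ℝ M := by
  have h1 := Matrix.linearIndependent_rows_iff_isUnit (A := Matrix.of M)
  rw [Matrix.isUnit_iff_isUnit_det, isUnit_iff_ne_zero] at h1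
  exact h1.symm

/-- Cramer's rule for rows. -/
theorem cramer_rows {m : ℕ} (M : Fin m → Fin m → ℝ) (h : DET M ≠ 0) (z : Fin m → ℝ) :
    z = ∑ l, (DET (update M l z) / DET M) • M l := by
  have hli : LinearIndependent ℝ M := (DET_ne_zero_iff M).1 h
  have hspan : ⊤ ≤ Submodule.span ℝ (Set.range M) := by
    have := hli.span_eq_top_of_card_eq_finrank' (by simp)
    exact this.ge
  have hz : z ∈ Submodule.span ℝ (Set.range M) := hspan trivial
  obtain ⟨t, ht⟩ := (Submodule.mem_span_range_iff_exists_fun ℝ).1 hz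
  conv_lhs => rw [← ht]
  refine Finset.sum_congr rfl fun l _ => ?_
  congr 1
  rw [← ht, DET_update_sum, mul_div_assoc, div_self h, mul_one]

/-- `z ↦ DET (update M i z)` is given by a vector. -/
theorem DET_update_dot {m : ℕ} (M : Fin m → Fin m → ℝ) (i : Fin m) :
    ∃ f : Fin m → ℝ, ∀ z, f ⬝ᵥ z = DET (update M i z) := by
  refine ⟨fun j => DET (update M i (Pi.single j 1)), fun z => ?_⟩
  have hz : z = ∑ j, z j • (Pi.single j (1 : ℝ) : Fin m → ℝ) := by
    ext k
    simp [Finset.sum_apply, Pi.single_apply]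
  conv_rhs => rw [hz]
  rw [E0_det_update, AlternatingMap.map_update_sum]
  simp only [dotProduct]
  refine Finset.sum_congr rfl fun j _ => ?_
  rw [AlternatingMap.map_update_smul, smul_eq_mul, mul_comm, E0_det_update]

end KS39
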