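import Pool.Agent.LibKS39.E0
import Pool.Agent.LibKS39.Defs

open Finset Function
open scoped Classical

namespace KS39

theorem E1_expand {m : ℕ} (N : Fin m → Fin m → ℝ) (i : Fin m) (c : Fin m → ℝ)
    (u : Fin m → Fin m → ℝ) :
    DET (update N i (∑ l, c l • u l)) = ∑ l, c l * DET (update N i (u l)) := by
  have h := (Matrix.detRowAlternating (n := Fin m) (R := ℝ)).toMultilinearMap.map_update_sum
    (t := Finset.univ) (m := N) (i := i) (g := fun l => c l • u l)
  have h' : DET (update N i (∑ l, c l • u l)) = ∑ l, DET (update N i (c l • u l)) := h
  rw [h']
  apply Finset.sum_congr rfl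
  intro l _
  have h2 := (Matrix.detRowAlternating (n := Fin m) (R := ℝ)).map_update_smul N i (c l) (u l)
  have h3 : DET (update N i (c l • u l)) = c l • DET (update N i (u l)) := h2
  rw [h3, smul_eq_mul]

/-- Plücker relation for rows. -/
theorem plucker {m : ℕ} (M : Fin m → Fin m → ℝ) (i j : Fin m) (hij : i ≠ j)
    (z z' : Fin m → ℝ) (h : DET M ≠ 0) :
    DET (update (update M i z) j z') * DET M =
      DET (update M i z) * DET (update M j z') - DET (update M j z) * DET (update M i z') := by
  have hz := cramer_rows M h z
  have e1 : DET (update (update M i z) j z') =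
      ∑ l, (DET (update M l z) / DET M) * DET (update (update M j z') i (M l)) := by
    rw [update_comm hij]
    conv_lhs => rw [hz]
    exact E1_expand (update M j z') i (fun l => DET (update M l z) / DET M) M
  have hi : DET (update (update M j z') i (M i)) = DET (update M j z') := by
    congr 1
    have : (M i) = (update M j z') i := by rw [update_of_ne hij]
    rw [this, update_eq_self]
  have hj : DET (update (update M j z') i (M j)) = - DET (update M i z') := by
    have hs := (Matrix.detRowAlternating (n := Fin m) (R := ℝ)).map_swap (update M i z') hij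
    have hs' : DET ((update M i z') ∘ Equiv.swap i j) = - DET (update M i z') := hs
    rw [← hs']
    congr 1
    funext l
    by_cases h1 : l = i
    · subst h1
      simp [update_of_ne (Ne.symm hij)]
    · by_cases h2 : l = j
      · subst h2
        simp [update_of_ne h1]
      · rw [comp_apply, Equiv.swap_apply_of_ne_of_ne h1 h2, update_of_ne h1, update_of_ne h2,
          update_of_ne h1]
  have ho : ∀ l, l ≠ i → l ≠ j → DET (update (update M j z') i (M l)) = 0 := by
    intro l hli hlj
    have := (Matrix.detRowAlternating (n := Fin m) (R := ℝ)).map_eq_zero_of_eq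
      (update (update M j z') i (M l)) (i := i) (j := l)
      (by rw [update_self, update_of_ne hli, update_of_ne hlj]) (Ne.symm hli)
    exact this
  have e2 : ∑ l, (DET (update M l z) / DET M) * DET (update (update M j z') i (M l)) =
      (DET (update M i z) / DET M) * DET (update M j z') -
        (DET (update M j z) / DET M) * DET (update M i z') := by
    rw [← Finset.add_sum_erase _ _ (Finset.mem_univ i), hi,
      ← Finset.add_sum_erase _ _ (Finset.mem_erase.2 ⟨Ne.symm hij, Finset.mem_univ j⟩), hj,
      Finset.sum_eq_zero]
    · ring
    · intro l hl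
      rw [Finset.mem_erase, Finset.mem_erase] at hl
      rw [ho l hl.2.1 hl.1, mul_zero]
  rw [e1, e2]
  field_simp

end KS39
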