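import Pool.Agent.LibKS39.E0
import Pool.Agent.LibKS39.E1
import Pool.Agent.LibKS39.Defs

open Finset Function
open scoped Classical

namespace KS39

theorem E2_swap {m : ℕ} (W : Fin m → Fin m → ℝ) (i j : Fin m) (hij : i ≠ j)
    (z z' : Fin m → ℝ) :
    DET (update (update W i z) j z') = - DET (update (update W i z') j z) := by
  have h := (Matrix.detRowAlternating (n := Fin m) (R := ℝ)).map_swap
    (update (update W i z') j z) hij
  have e : (update (update W i z') j z) ∘ (Equiv.swap i j) = update (update W i z) j z' := by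
    funext l
    by_cases hl : l = j
    · subst hl
      simp [update_of_ne hij]
    · by_cases hl2 : l = i
      · subst hl2
        simp [update_of_ne hij]
      · simp [Equiv.swap_apply_of_ne_of_ne hl2 hl, update_of_ne hl, update_of_ne hl2]
  rw [e] at h
  exact h

theorem E2_lin {m : ℕ} (W : Fin m → Fin m → ℝ) (i j : Fin m) (hij : i ≠ j)
    (z1 z2 z' : Fin m → ℝ) (t : ℝ) :
    DET (update (update W i (z1 + t • z2)) j z') =
      DET (update (update W i z1) j z') + t * DET (update (update W i z2) j z') := by
  have e : ∀ z, update (update W i z) j z' = update (update W j z') i z := fun z =>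
    update_comm hij _ _ _
  simp only [e]
  have h1 := (Matrix.detRowAlternating (n := Fin m) (R := ℝ)).map_update_add
    (update W j z') i z1 (t • z2)
  have h2 := (Matrix.detRowAlternating (n := Fin m) (R := ℝ)).map_update_smul
    (update W j z') i t z2
  rw [h2] at h1
  exact h1

theorem E2_self {m : ℕ} (W : Fin m → Fin m → ℝ) (i j : Fin m) (hij : i ≠ j)
    (z : Fin m → ℝ) :
    DET (update (update W i z) j z) = 0 := by
  have := E2_swap W i j hij z z
  linarith

/-- the pencil through the `m - 2` points `x (u l)`, `l ≠ i, j`, in terms of two functionals. -/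
theorem pencil {V : Type} [Fintype V] {m : ℕ} (x : V → Fin m → ℝ) (hgp : GP x) (i j : Fin m)
    (hij : i ≠ j) (u : Fin m → V) (a0 b0 : V) (hu : Injective (update (update u i a0) j b0)) :
    ∃ f h : Fin m → ℝ, ∃ c : ℝ, c ≠ 0 ∧
      (∀ z z' : Fin m → ℝ, DET (update (update (fun l => x (u l)) i z) j z') =
        c * ((f ⬝ᵥ z) * (h ⬝ᵥ z') - (h ⬝ᵥ z) * (f ⬝ᵥ z'))) ∧
      (∀ a : V, (∀ l, l ≠ i → l ≠ j → a ≠ u l) → f ⬝ᵥ x a ≠ 0) := by
  obtain ⟨W, hW⟩ : ∃ W : Fin m → Fin m → ℝ, W = fun l => x (u l) := ⟨_, rfl⟩
  rw [← hW]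
  have hji : j ≠ i := hij.symm
  have ha0 : ∀ l, l ≠ i → l ≠ j → a0 ≠ u l := by
    intro l hl1 hl2 h
    apply hl1
    apply hu
    rw [update_of_ne hl2, update_of_ne hl1, update_of_ne hij, update_self, h]
  have hb0 : ∀ l, l ≠ i → l ≠ j → b0 ≠ u l := by
    intro l hl1 hl2 h
    apply hl2
    apply hu
    rw [update_of_ne hl2, update_of_ne hl1, update_self, h]
  have hab : a0 ≠ b0 := by
    intro h
    apply hij
    apply hu
    rw [update_of_ne hij, update_self, update_self, h]
  have huu : ∀ l l', l ≠ i → l ≠ j → l' ≠ i → l' ≠ j → u l = u l' → l = l' := by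
    intro l l' h1 h2 h3 h4 h
    apply hu
    rw [update_of_ne h2, update_of_ne h1, update_of_ne h4, update_of_ne h3, h]
  -- injectivity of updated families
  have hinj : ∀ a b : V, (∀ l, l ≠ i → l ≠ j → a ≠ u l) → (∀ l, l ≠ i → l ≠ j → b ≠ u l) →
      a ≠ b → Injective (update (update u i a) j b) := by
    intro a b ha hb hab' l l' h
    have val : ∀ l, update (update u i a) j b l = if l = j then b else if l = i then a else u l := by
      intro l
      simp only [update_apply]
    rw [val, val] at h
    by_cases h1 : l = j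
    · by_cases h2 : l' = j
      · rw [h1, h2]
      · exfalso
        rw [if_pos h1, if_neg h2] at h
        by_cases h3 : l' = i
        · rw [if_pos h3] at h; exact hab' h.symm
        · rw [if_neg h3] at h; exact hb l' h3 h2 h
    · by_cases h2 : l' = j
      · exfalso
        rw [if_neg h1, if_pos h2] at h
        by_cases h3 : l = i
        · rw [if_pos h3] at h; exact hab' h
        · rw [if_neg h3] at h; exact hb l h3 h1 h.symm
      · rw [if_neg h1, if_neg h2] at h
        by_cases h3 : l = i
        · by_cases h4 : l' = i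
          · rw [h3, h4]
          · exfalso
            rw [if_pos h3, if_neg h4] at h
            exact ha l' h4 h2 h
        · by_cases h4 : l' = i
          · exfalso
            rw [if_neg h3, if_pos h4] at h
            exact ha l h3 h1 h.symm
          · rw [if_neg h3, if_neg h4] at h
            exact huu l l' h3 h1 h4 h2 h
  have hdet : ∀ a b : V, (∀ l, l ≠ i → l ≠ j → a ≠ u l) → (∀ l, l ≠ i → l ≠ j → b ≠ u l) →
      a ≠ b → DET (update (update W i (x a)) j (x b)) ≠ 0 := by
    intro a b ha hb hab'
    have h := hgp _ (hinj a b ha hb hab')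
    have e : (fun l => x (update (update u i a) j b l)) = update (update W i (x a)) j (x b) := by
      funext l
      rw [hW]
      by_cases h1 : l = j
      · subst h1; simp
      · by_cases h2 : l = i
        · subst h2; simp [update_of_ne h1]
        · simp [update_of_ne h1, update_of_ne h2]
    rw [e] at h
    exact h
  -- choose t
  obtain ⟨B, hB⟩ : ∃ B : (Fin m → ℝ) → (Fin m → ℝ) → ℝ,
      B = fun z z' => DET (update (update W i z) j z') := ⟨_, rfl⟩
  obtain ⟨bad, hbad⟩ : ∃ bad : Finset ℝ,
      bad = insert 0 (univ.image (fun a : V => - B (x a0) (x a) / B (x b0) (x a))) := ⟨_, rfl⟩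
  obtain ⟨t, ht⟩ := Infinite.exists_notMem_finset bad
  have ht0 : t ≠ 0 := by
    intro h
    apply ht
    rw [hbad, h]
    exact Finset.mem_insert_self _ _
  have hta : ∀ a : V, t ≠ - B (x a0) (x a) / B (x b0) (x a) := by
    intro a h
    apply ht
    rw [hbad]
    refine Finset.mem_insert_of_mem ?_
    rw [Finset.mem_image]
    exact ⟨a, Finset.mem_univ _, h.symm⟩
  obtain ⟨u0, hu0⟩ : ∃ u0 : Fin m → ℝ, u0 = x a0 + t • x b0 := ⟨_, rfl⟩
  have hBself : ∀ z, B z z = 0 := by
    intro z; rw [hB]; exact E2_self W i j hij z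
  have hBswap : ∀ z z', B z z' = - B z' z := by
    intro z z'; rw [hB]; exact E2_swap W i j hij z z'
  have hBu0 : ∀ z', B u0 z' = B (x a0) z' + t * B (x b0) z' := by
    intro z'; rw [hB, hu0]; exact E2_lin W i j hij _ _ _ _
  have hBne : ∀ a b : V, (∀ l, l ≠ i → l ≠ j → a ≠ u l) → (∀ l, l ≠ i → l ≠ j → b ≠ u l) →
      a ≠ b → B (x a) (x b) ≠ 0 := by
    intro a b ha hb hab'
    rw [hB]; exact hdet a b ha hb hab'
  obtain ⟨f, hf⟩ := DET_update_dot (update W i u0) j
  obtain ⟨h, hh⟩ := DET_update_dot (update W i (x a0)) j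
  have hf' : ∀ z, f ⬝ᵥ z = B u0 z := by intro z; rw [hB]; exact hf z
  have hh' : ∀ z, h ⬝ᵥ z = B (x a0) z := by intro z; rw [hB]; exact hh z
  have hB01 : B u0 (x a0) ≠ 0 := by
    rw [hBu0, hBself, zero_add]
    exact mul_ne_zero ht0 (hBne b0 a0 hb0 ha0 hab.symm)
  refine ⟨f, h, 1 / B u0 (x a0), one_div_ne_zero hB01, ?_, ?_⟩
  · intro z z'
    obtain ⟨M, hM⟩ : ∃ M : Fin m → Fin m → ℝ, M = update (update W i u0) j (x a0) := ⟨_, rfl⟩
    have hMdet : DET M = B u0 (x a0) := by rw [hB, hM]
    have hMne : DET M ≠ 0 := by rw [hMdet]; exact hB01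
    have hp := plucker M i j hij z z' hMne
    have e1 : ∀ y, update M i y = update (update W i y) j (x a0) := by
      intro y
      rw [hM, update_comm hij, update_idem, update_comm hij]
    have e2 : ∀ y, update M j y = update (update W i u0) j y := by
      intro y
      rw [hM, update_idem]
    have e3 : update (update M i z) j z' = update (update W i z) j z' := by
      rw [e1, update_idem]
    rw [e3, e1, e2, e2, e1, hMdet] at hp
    have k1 : DET (update (update W i z) j z') = B z z' := by rw [hB]
    have k2 : DET (update (update W i z) j (x a0)) = B z (x a0) := by rw [hB]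
    have k3 : DET (update (update W i u0) j z') = B u0 z' := by rw [hB]
    have k4 : DET (update (update W i u0) j z) = B u0 z := by rw [hB]
    have k5 : DET (update (update W i z') j (x a0)) = B z' (x a0) := by rw [hB]
    rw [k1, k2, k3, k4, k5, hBswap z (x a0), hBswap z' (x a0)] at hp
    rw [k1, hf', hh', hh', hf']
    field_simp
    linarith
  · intro a ha
    rw [hf', hBu0]
    by_cases haa : a = a0
    · rw [haa, hBself, zero_add]
      exact mul_ne_zero ht0 (hBne b0 a0 hb0 ha0 hab.symm)
    · intro hz
      have h1 : B (x a0) (x a) ≠ 0 := hBne a0 a ha0 ha (Ne.symm haa)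
      by_cases h2 : B (x b0) (x a) = 0
      · rw [h2, mul_zero, add_zero] at hz
        exact h1 hz
      · apply hta a
        field_simp
        linarith

end KS39
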