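import Pool.Agent.LibKS39.D1
import Pool.Agent.LibKS39.D2
import Pool.Agent.LibKS39.E2
import Pool.Agent.LibKS39.Defs

open Finset Function
open scoped Classical

namespace KS39

theorem E3_upd {α : Type} {m : ℕ} (u : Fin m → α) (i j : Fin m) (a b : α) (l : Fin m) :
    update (update u i a) j b l = if l = j then b else if l = i then a else u l := by
  simp only [update_apply]

theorem E3_inj {V : Type} {m : ℕ} (u : Fin m → V) (i j : Fin m)
    (huu : ∀ l l', l ≠ i → l ≠ j → l' ≠ i → l' ≠ j → u l = u l' → l = l')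
    (a b : V) (ha : ∀ l, l ≠ i → l ≠ j → a ≠ u l) (hb : ∀ l, l ≠ i → l ≠ j → b ≠ u l)
    (hab' : a ≠ b) : Injective (update (update u i a) j b) := by
  intro l l' h
  rw [E3_upd, E3_upd] at h
  by_cases h1 : l = j
  · by_cases h2 : l' = j
    · rw [h1, h2]
    · exfalso
      rw [if_pos h1, if_neg h2] at h
      by_cases h3 : l' = i
      · rw [if_pos h3] at h; exact hab' h.symm
      · rw [if_neg h3] at h; exact hb l' h3 h2 h
  · by_cases h2 : l' = j
    · exfalso
      rw [if_neg h1, if_pos h2] at h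
      by_cases h3 : l = i
      · rw [if_pos h3] at h; exact hab' h
      · rw [if_neg h3] at h; exact hb l h3 h1 h.symm
    · rw [if_neg h1, if_neg h2] at h
      by_cases h3 : l = i
      · by_cases h4 : l' = i
        · rw [h3, h4]
        · exfalso
          rw [if_pos h3, if_neg h4] at h
          exact ha l' h4 h2 h
      · by_cases h4 : l' = i
        · exfalso
          rw [if_neg h3, if_pos h4] at h
          exact ha l h3 h1 h.symm
        · rw [if_neg h3, if_neg h4] at h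
          exact huu l l' h3 h1 h4 h2 h

theorem E3_DD {V : Type} {m : ℕ} (x : V → Fin m → ℝ) (q : V → V) (v : Fin m → V)
    (i j : Fin m) (hij : i ≠ j) (I J : Finset (Fin m))
    (hJ : ∀ l, l ≠ i → l ≠ j → (l ∈ J ↔ l ∈ I)) (a b : V) :
    DD x q (update (update v i a) j b) J =
      DET (update (update (fun l => x (mix q v I l)) i (x (if i ∈ J then a else q a))) j
        (x (if j ∈ J then b else q b))) := by
  unfold DD
  congr 1
  funext l
  rw [E3_upd]
  by_cases h1 : l = j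
  · rw [if_pos h1]
    subst h1
    unfold mix
    rw [update_self]
  · rw [if_neg h1]
    by_cases h2 : l = i
    · rw [if_pos h2]
      subst h2
      unfold mix
      rw [update_of_ne h1, update_self]
    · rw [if_neg h2]
      unfold mix
      rw [update_of_ne h1, update_of_ne h2]
      by_cases h3 : l ∈ J
      · rw [if_pos h3, if_pos ((hJ l h2 h1).1 h3)]
      · rw [if_neg h3, if_neg (fun h => h3 ((hJ l h2 h1).2 h))]

/-- real-number part. -/
theorem E3_real (L : ℝ) (hL : 0 < L) (c fa fqa fb fqb ha hqa hb hqb : ℝ)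
    (h1 : fa ≠ 0) (h2 : fqa ≠ 0) (h3 : fb ≠ 0) (h4 : fqb ≠ 0)
    (hr : L * |(hqa / fqa - ha / fa) * (hqb / fqb - hb / fb)| ≤
      |(hqb / fqb - ha / fa) * (hb / fb - hqa / fqa)|) :
    |(c * (fqa * hqb - hqa * fqb)) * (c * (fa * hb - ha * fb)) -
      (c * (fa * hqb - ha * fqb)) * (c * (fqa * hb - hqa * fb))| ≤
      1 / L * |(c * (fa * hqb - ha * fqb)) * (c * (fqa * hb - hqa * fb))| := by
  obtain ⟨α, hα⟩ : ∃ α, α = hqa / fqa := ⟨_, rfl⟩
  obtain ⟨β, hβ⟩ : ∃ β, β = ha / fa := ⟨_, rfl⟩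
  obtain ⟨γ, hγ⟩ : ∃ γ, γ = hqb / fqb := ⟨_, rfl⟩
  obtain ⟨ε, hε⟩ : ∃ ε, ε = hb / fb := ⟨_, rfl⟩
  rw [← hα, ← hβ, ← hγ, ← hε] at hr
  have e1 : hqa = fqa * α := by rw [hα]; field_simp
  have e2 : ha = fa * β := by rw [hβ]; field_simp
  have e3 : hqb = fqb * γ := by rw [hγ]; field_simp
  have e4 : hb = fb * ε := by rw [hε]; field_simp
  obtain ⟨F, hF⟩ : ∃ F, F = c ^ 2 * (fa * fqa * fb * fqb) := ⟨_, rfl⟩
  have k1 : (c * (fqa * hqb - hqa * fqb)) * (c * (fa * hb - ha * fb)) -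
      (c * (fa * hqb - ha * fqb)) * (c * (fqa * hb - hqa * fb)) =
      F * ((α - β) * (γ - ε)) := by
    rw [e1, e2, e3, e4, hF]; ring
  have k2 : (c * (fa * hqb - ha * fqb)) * (c * (fqa * hb - hqa * fb)) =
      F * ((γ - β) * (ε - α)) := by
    rw [e1, e2, e3, e4, hF]; ring
  rw [k1, k2, abs_mul, abs_mul F]
  have k3 : |(α - β) * (γ - ε)| ≤ 1 / L * |(γ - β) * (ε - α)| := by
    rw [one_div, ← div_eq_inv_mul, le_div_iff₀ hL]
    linarith
  calc |F| * |(α - β) * (γ - ε)| ≤ |F| * (1 / L * |(γ - β) * (ε - α)|) :=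
        mul_le_mul_of_nonneg_left k3 (abs_nonneg _)
    _ = 1 / L * (|F| * |(γ - β) * (ε - α)|) := by ring

/-- ratio violations for fixed `I, i, j` and fixed other coordinates. -/
theorem count_ratio {V : Type} [Fintype V] {m : ℕ} (x : V → Fin m → ℝ) (hgp : GP x) (q : V → V)
    (hq : ∀ v, q (q v) = q v) (κ : ℝ)
    (hκ : ∀ φ : Fin m → ℝ,
      ((univ.filter (fun v => (φ ⬝ᵥ x v) * (φ ⬝ᵥ x (q v)) < 0)).card : ℝ) ≤ κ)
    (L : ℕ) (hL : 1 ≤ L) (I : Finset (Fin m)) (i j : Fin m) (hij : i ≠ j) (hi : i ∉ I)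
    (hj : j ∉ I) (v : Fin m → V) :
    ((univ.filter (fun p : V × V => Basic q (update (update v i p.1) j p.2) ∧
        ¬ RatioOK x q (1 / L) I i j (update (update v i p.1) j p.2))).card : ℝ) ≤
      (8 * L + 16) * κ * Fintype.card V := by
  have hκ0 : 0 ≤ κ := le_trans (Nat.cast_nonneg _) (hκ 0)
  have hcV : (0 : ℝ) ≤ Fintype.card V := Nat.cast_nonneg _
  have hLr : (1 : ℝ) ≤ L := by exact_mod_cast hL
  obtain ⟨P, hP⟩ : ∃ P : Finset (V × V),
      P = univ.filter (fun p : V × V => Basic q (update (update v i p.1) j p.2) ∧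
        ¬ RatioOK x q (1 / L) I i j (update (update v i p.1) j p.2)) := ⟨_, rfl⟩
  rw [← hP]
  rcases P.eq_empty_or_nonempty with hPe | ⟨p0, hp0⟩
  · rw [hPe]
    simp only [Finset.card_empty, Nat.cast_zero]
    positivity
  obtain ⟨u, hu⟩ : ∃ u : Fin m → V, u = mix q v I := ⟨_, rfl⟩
  have hqu : ∀ l, q (u l) = q (v l) := by
    intro l
    rw [hu]
    unfold mix
    by_cases h : l ∈ I
    · rw [if_pos h]
    · rw [if_neg h, hq]
  -- facts from Basic
  have facts : ∀ a b : V, Basic q (update (update v i a) j b) →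
      q a ≠ a ∧ q b ≠ b ∧ q a ≠ q b ∧ (∀ l, l ≠ i → l ≠ j → q a ≠ q (v l)) ∧
      (∀ l, l ≠ i → l ≠ j → q b ≠ q (v l)) ∧
      (∀ l l', l ≠ i → l ≠ j → l' ≠ i → l' ≠ j → q (v l) = q (v l') → l = l') := by
    intro a b hb
    have wi : update (update v i a) j b i = a := by
      rw [E3_upd, if_neg hij, if_pos rfl]
    have wj : update (update v i a) j b j = b := by
      rw [E3_upd, if_pos rfl]
    have wl : ∀ l, l ≠ i → l ≠ j → update (update v i a) j b l = v l := by
      intro l h1 h2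
      rw [E3_upd, if_neg h2, if_neg h1]
    refine ⟨?_, ?_, ?_, ?_, ?_, ?_⟩
    · have := hb.ne i
      rw [wi] at this; exact this
    · have := hb.ne j
      rw [wj] at this; exact this
    · intro h
      apply hij
      apply hb.injq
      show q _ = q _
      rw [wi, wj]; exact h
    · intro l h1 h2 h
      apply h1
      apply hb.injq
      show q _ = q _
      rw [wi, wl l h1 h2]; exact h.symm
    · intro l h1 h2 h
      apply h2
      apply hb.injq
      show q _ = q _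
      rw [wj, wl l h1 h2]; exact h.symm
    · intro l l' h1 h2 h3 h4 h
      apply hb.injq
      show q _ = q _
      rw [wl l h1 h2, wl l' h3 h4]; exact h
  have hp0' := hp0
  rw [hP, Finset.mem_filter] at hp0'
  obtain ⟨-, hb0, -⟩ := hp0'
  obtain ⟨f1, f2, f3, f4, f5, f6⟩ := facts _ _ hb0
  have huu : ∀ l l', l ≠ i → l ≠ j → l' ≠ i → l' ≠ j → u l = u l' → l = l' := by
    intro l l' h1 h2 h3 h4 h
    apply f6 l l' h1 h2 h3 h4
    rw [← hqu l, ← hqu l', h]
  -- `a` and `q a` avoid the `u l` if `q a ≠ q (v l)`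
  have avoid : ∀ a : V, (∀ l, l ≠ i → l ≠ j → q a ≠ q (v l)) →
      (∀ l, l ≠ i → l ≠ j → a ≠ u l) ∧ (∀ l, l ≠ i → l ≠ j → q a ≠ u l) := by
    intro a ha
    refine ⟨?_, ?_⟩
    · intro l h1 h2 h
      apply ha l h1 h2
      rw [← hqu l, ← h]
    · intro l h1 h2 h
      apply ha l h1 h2
      rw [← hqu l, ← h, hq]
  obtain ⟨a1, a2⟩ := avoid p0.1 f4
  obtain ⟨a3, a4⟩ := avoid p0.2 f5
  have hp12 : p0.1 ≠ p0.2 := by
    intro h; apply f3; rw [h]
  obtain ⟨f, h, c, hc, hfh, hf⟩ := pencil x hgp i j hij u p0.1 p0.2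
    (E3_inj u i j huu _ _ a1 a3 hp12)
  -- nonvanishing of B
  have hBne : ∀ a b : V, (∀ l, l ≠ i → l ≠ j → a ≠ u l) → (∀ l, l ≠ i → l ≠ j → b ≠ u l) →
      a ≠ b → c * ((f ⬝ᵥ x a) * (h ⬝ᵥ x b) - (h ⬝ᵥ x a) * (f ⬝ᵥ x b)) ≠ 0 := by
    intro a b ha hb hab
    rw [← hfh]
    have h1 := hgp _ (E3_inj u i j huu a b ha hb hab)
    have e : (fun l => x (update (update u i a) j b l)) =
        update (update (fun l => x (u l)) i (x a)) j (x b) := by
      funext l
      rw [E3_upd, E3_upd]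
      by_cases h1 : l = j
      · rw [if_pos h1, if_pos h1]
      · rw [if_neg h1, if_neg h1]
        by_cases h2 : l = i
        · rw [if_pos h2, if_pos h2]
        · rw [if_neg h2, if_neg h2]
    rw [e] at h1
    exact h1
  obtain ⟨s, hs⟩ : ∃ s : V → ℝ, s = fun a => (h ⬝ᵥ x a) / (f ⬝ᵥ x a) := ⟨_, rfl⟩
  obtain ⟨X, hX⟩ : ∃ X : Finset V, X = univ.filter (fun a : V =>
      (∀ l, l ≠ i → l ≠ j → a ≠ u l) ∧ (∀ l, l ≠ i → l ≠ j → q a ≠ u l) ∧ q a ≠ a ∧
      0 < (f ⬝ᵥ x a) * (f ⬝ᵥ x (q a))) := ⟨_, rfl⟩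
  have hXm : ∀ a ∈ X, (∀ l, l ≠ i → l ≠ j → a ≠ u l) ∧ (∀ l, l ≠ i → l ≠ j → q a ≠ u l) ∧
      q a ≠ a ∧ 0 < (f ⬝ᵥ x a) * (f ⬝ᵥ x (q a)) := by
    intro a ha
    rw [hX, Finset.mem_filter] at ha
    exact ha.2
  have hsne : ∀ a ∈ X, s a ≠ s (q a) := by
    intro a ha hsa
    obtain ⟨b1, b2, b3, b4⟩ := hXm a ha
    have n1 := hf a b1
    have n2 := hf (q a) b2
    apply hBne a (q a) b1 b2 b3.symm
    rw [hs] at hsa
    simp only at hsa
    rw [div_eq_div_iff n1 n2] at hsa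
    have : (f ⬝ᵥ x a) * (h ⬝ᵥ x (q a)) - (h ⬝ᵥ x a) * (f ⬝ᵥ x (q a)) = 0 := by linarith
    rw [this, mul_zero]
  obtain ⟨lo, hlo⟩ : ∃ lo : V → ℝ, lo = fun a => min (s a) (s (q a)) := ⟨_, rfl⟩
  obtain ⟨up, hup⟩ : ∃ up : V → ℝ, up = fun a => max (s a) (s (q a)) := ⟨_, rfl⟩
  have hlu : ∀ a ∈ X, lo a < up a := by
    intro a ha
    rw [hlo, hup]
    exact min_lt_max.2 (hsne a ha)
  have hκX : ∀ t : ℝ, ((X.filter (fun v => lo v < t ∧ t < up v)).card : ℝ) ≤ κ := by
    intro t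
    refine le_trans ?_ (hκ (h - t • f))
    have hsub : X.filter (fun v => lo v < t ∧ t < up v) ⊆
        univ.filter (fun v => ((h - t • f) ⬝ᵥ x v) * ((h - t • f) ⬝ᵥ x (q v)) < 0) := by
      intro a ha
      rw [Finset.mem_filter] at ha
      obtain ⟨haX, hl, hr⟩ := ha
      rw [Finset.mem_filter]
      refine ⟨Finset.mem_univ _, ?_⟩
      obtain ⟨b1, b2, b3, b4⟩ := hXm a haX
      have n1 := hf a b1
      have n2 := hf (q a) b2
      have e1 : (h - t • f) ⬝ᵥ x a = (f ⬝ᵥ x a) * (s a - t) := by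
        rw [sub_dotProduct, smul_dotProduct, smul_eq_mul, hs]
        field_simp
      have e2 : (h - t • f) ⬝ᵥ x (q a) = (f ⬝ᵥ x (q a)) * (s (q a) - t) := by
        rw [sub_dotProduct, smul_dotProduct, smul_eq_mul, hs]
        field_simp
      rw [e1, e2]
      have e3 : (f ⬝ᵥ x a) * (s a - t) * ((f ⬝ᵥ x (q a)) * (s (q a) - t)) =
          ((f ⬝ᵥ x a) * (f ⬝ᵥ x (q a))) * ((s a - t) * (s (q a) - t)) := by ring
      rw [e3]
      apply mul_neg_of_pos_of_neg b4
      rw [hlo] at hl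
      rw [hup] at hr
      simp only at hl hr
      rcases lt_or_ge (s a) (s (q a)) with hlt | hge
      · rw [min_eq_left hlt.le] at hl
        rw [max_eq_right hlt.le] at hr
        exact mul_neg_of_neg_of_pos (by linarith) (by linarith)
      · rw [min_eq_right hge] at hl
        rw [max_eq_left hge] at hr
        exact mul_neg_of_pos_of_neg (by linarith) (by linarith)
    exact_mod_cast Finset.card_le_card hsub
  have hD1 := interval_lemma X lo up hlu κ L hκX
  -- the three sets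
  obtain ⟨N, hN⟩ : ∃ N : Finset V,
      N = univ.filter (fun a => (f ⬝ᵥ x a) * (f ⬝ᵥ x (q a)) < 0) := ⟨_, rfl⟩
  have hNc : (N.card : ℝ) ≤ κ := by rw [hN]; exact hκ f
  obtain ⟨Cl, hCl⟩ : ∃ Cl : Finset (V × V), Cl = (X ×ˢ X).filter (fun p : V × V =>
        lo p.2 - up p.1 ≤ L * min (up p.1 - lo p.1) (up p.2 - lo p.2) ∧
        lo p.1 - up p.2 ≤ L * min (up p.1 - lo p.1) (up p.2 - lo p.2)) := ⟨_, rfl⟩
  rw [← hCl] at hD1
  have hcover : P ⊆ (N ×ˢ (univ : Finset V)) ∪ (((univ : Finset V) ×ˢ N) ∪ Cl) := by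
    intro p hp
    have hp' := hp
    rw [hP, Finset.mem_filter] at hp'
    obtain ⟨-, hb, hr⟩ := hp'
    obtain ⟨g1, g2, g3, g4, g5, g6⟩ := facts _ _ hb
    obtain ⟨c1, c2⟩ := avoid p.1 g4
    obtain ⟨c3, c4⟩ := avoid p.2 g5
    have n1 := hf p.1 c1
    have n2 := hf (q p.1) c2
    have n3 := hf p.2 c3
    have n4 := hf (q p.2) c4
    rw [Finset.mem_union, Finset.mem_union, Finset.mem_product, Finset.mem_product]
    by_cases hA : (f ⬝ᵥ x p.1) * (f ⬝ᵥ x (q p.1)) < 0
    · left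
      refine ⟨?_, Finset.mem_univ _⟩
      rw [hN, Finset.mem_filter]
      exact ⟨Finset.mem_univ _, hA⟩
    by_cases hB : (f ⬝ᵥ x p.2) * (f ⬝ᵥ x (q p.2)) < 0
    · right; left
      refine ⟨Finset.mem_univ _, ?_⟩
      rw [hN, Finset.mem_filter]
      exact ⟨Finset.mem_univ _, hB⟩
    right; right
    have hA' : 0 < (f ⬝ᵥ x p.1) * (f ⬝ᵥ x (q p.1)) :=
      lt_of_le_of_ne (not_lt.1 hA) (mul_ne_zero n1 n2).symm
    have hB' : 0 < (f ⬝ᵥ x p.2) * (f ⬝ᵥ x (q p.2)) :=
      lt_of_le_of_ne (not_lt.1 hB) (mul_ne_zero n3 n4).symm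
    have hX1 : p.1 ∈ X := by
      rw [hX, Finset.mem_filter]
      exact ⟨Finset.mem_univ _, c1, c2, g1, hA'⟩
    have hX2 : p.2 ∈ X := by
      rw [hX, Finset.mem_filter]
      exact ⟨Finset.mem_univ _, c3, c4, g2, hB'⟩
    rw [hCl, Finset.mem_filter, Finset.mem_product]
    refine ⟨⟨hX1, hX2⟩, ?_⟩
    by_contra hcl
    apply hr
    -- lengths
    have len : ∀ a, up a - lo a = |s (q a) - s a| := by
      intro a
      rw [hup, hlo]
      simp only
      rw [max_sub_min_eq_abs]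
    have lo' : ∀ a, lo a = min (s (q a)) (s a) := by
      intro a; rw [hlo]; exact min_comm _ _
    have up' : ∀ a, up a = max (s (q a)) (s a) := by
      intro a; rw [hup]; exact max_comm _ _
    have hneed : (L : ℝ) * min |s (q p.1) - s p.1| |s (q p.2) - s p.2| <
        min (s (q p.2)) (s p.2) - max (s (q p.1)) (s p.1) ∨
        (L : ℝ) * min |s (q p.1) - s p.1| |s (q p.2) - s p.2| <
        min (s (q p.1)) (s p.1) - max (s (q p.2)) (s p.2) := by
      rw [← len, ← len, ← lo', ← lo', ← up', ← up']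
      by_contra hcon
      apply hcl
      rw [not_or, not_lt, not_lt] at hcon
      exact hcon
    have hD2 := ratio_real (L : ℝ) (by linarith) (s (q p.1)) (s p.1) (s (q p.2)) (s p.2)
      (hsne p.1 hX1).symm (hsne p.2 hX2).symm hneed
    unfold RatioOK
    have hJ0 : ∀ l, l ≠ i → l ≠ j → (l ∈ I ↔ l ∈ I) := fun _ _ _ => Iff.rfl
    have hJ1 : ∀ l, l ≠ i → l ≠ j → (l ∈ insert i I ↔ l ∈ I) := by
      intro l h1 h2
      rw [Finset.mem_insert]
      exact or_iff_right h1
    have hJ2 : ∀ l, l ≠ i → l ≠ j → (l ∈ insert j I ↔ l ∈ I) := by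
      intro l h1 h2
      rw [Finset.mem_insert]
      exact or_iff_right h2
    have hJ3 : ∀ l, l ≠ i → l ≠ j → (l ∈ insert i (insert j I) ↔ l ∈ I) := by
      intro l h1 h2
      rw [Finset.mem_insert, Finset.mem_insert]
      constructor
      · rintro (h3 | h3 | h3)
        · exact absurd h3 h1
        · exact absurd h3 h2
        · exact h3
      · intro h3; exact Or.inr (Or.inr h3)
    have m1 : i ∈ insert i I := Finset.mem_insert_self _ _
    have m2 : j ∉ insert i I := by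
      rw [Finset.mem_insert]
      rintro (h3 | h3)
      · exact hij h3.symm
      · exact hj h3
    have m3 : i ∉ insert j I := by
      rw [Finset.mem_insert]
      rintro (h3 | h3)
      · exact hij h3
      · exact hi h3
    have m4 : j ∈ insert j I := Finset.mem_insert_self _ _
    have m5 : i ∈ insert i (insert j I) := Finset.mem_insert_self _ _
    have m6 : j ∈ insert i (insert j I) := Finset.mem_insert_of_mem (Finset.mem_insert_self _ _)
    have d0 := E3_DD x q v i j hij I I hJ0 p.1 p.2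
    have d1 := E3_DD x q v i j hij I (insert i I) hJ1 p.1 p.2
    have d2 := E3_DD x q v i j hij I (insert j I) hJ2 p.1 p.2
    have d3 := E3_DD x q v i j hij I (insert i (insert j I)) hJ3 p.1 p.2
    rw [← hu, if_neg hi, if_neg hj, hfh] at d0
    rw [← hu, if_pos m1, if_neg m2, hfh] at d1
    rw [← hu, if_neg m3, if_pos m4, hfh] at d2
    rw [← hu, if_pos m5, if_pos m6, hfh] at d3
    rw [d0, d1, d2, d3]
    rw [hs] at hD2
    simp only at hD2
    exact E3_real (L : ℝ) (by linarith) c _ _ _ _ _ _ _ _ n1 n2 n3 n4 hD2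
  have hcard : (P.card : ℝ) ≤ N.card * Fintype.card V + (Fintype.card V * N.card + Cl.card) := by
    have h1 := Finset.card_le_card hcover
    have h2 := Finset.card_union_le (N ×ˢ (univ : Finset V)) (((univ : Finset V) ×ˢ N) ∪ Cl)
    have h3 := Finset.card_union_le ((univ : Finset V) ×ˢ N) Cl
    rw [Finset.card_product] at h2 h3
    have h4 : P.card ≤ N.card * (univ : Finset V).card +
        ((univ : Finset V).card * N.card + Cl.card) := by omega
    rw [Finset.card_univ] at h4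
    exact_mod_cast h4
  have hXc : (X.card : ℝ) ≤ Fintype.card V := by
    exact_mod_cast Finset.card_le_univ X
  have h5 : (N.card : ℝ) * Fintype.card V ≤ κ * Fintype.card V :=
    mul_le_mul_of_nonneg_right hNc hcV
  have h6 : 2 * (4 * (L : ℝ) + 7) * κ * X.card ≤ 2 * (4 * (L : ℝ) + 7) * κ * Fintype.card V := by
    apply mul_le_mul_of_nonneg_left hXc
    positivity
  calc (P.card : ℝ) ≤ N.card * Fintype.card V + (Fintype.card V * N.card + Cl.card) := hcard
    _ = N.card * Fintype.card V + (N.card * Fintype.card V + Cl.card) := by ring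
    _ ≤ κ * Fintype.card V + (κ * Fintype.card V + 2 * (4 * (L : ℝ) + 7) * κ * Fintype.card V) := by
        have h7 := le_trans hD1 h6
        linarith
    _ = (8 * L + 16) * κ * Fintype.card V := by ring

end KS39
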