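import Pool.Agent.LibKS39.E0
import Pool.Agent.LibKS39.Defs

open Finset Function
open scoped Classical

namespace KS39

theorem E4_mix_inj {V : Type} {m : ℕ} (q : V → V) (hq : ∀ v, q (q v) = q v)
    (v : Fin m → V) (hb : Basic q v) (I : Finset (Fin m)) : Injective (mix q v I) := by
  have hne : ∀ a b, v a ≠ q (v b) := by
    intro a b h
    have h1 : q (v a) = q (v b) := by rw [h, hq]
    have h2 : a = b := hb.injq h1
    subst h2
    exact hb.ne a h.symm
  intro a b h
  unfold mix at h
  by_cases ha : a ∈ I <;> by_cases hb' : b ∈ I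
  · simp only [ha, hb', if_true] at h
    exact hb.inj h
  · simp only [ha, hb', if_true, if_false] at h
    exact absurd h (hne a b)
  · simp only [ha, hb', if_true, if_false] at h
    exact absurd h.symm (hne b a)
  · simp only [ha, hb', if_false] at h
    exact hb.injq h

theorem E4_DD_ne_zero {V : Type} {m : ℕ} (x : V → Fin m → ℝ) (hgp : GP x) (q : V → V)
    (hq : ∀ v, q (q v) = q v) (v : Fin m → V) (hb : Basic q v) (I : Finset (Fin m)) :
    DD x q v I ≠ 0 :=
  hgp (mix q v I) (E4_mix_inj q hq v hb I)

/-- sign violations for fixed `I, i` and fixed other coordinates. -/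
theorem count_sign {V : Type} [Fintype V] {m : ℕ} (x : V → Fin m → ℝ) (hgp : GP x) (q : V → V)
    (hq : ∀ v, q (q v) = q v) (κ : ℝ)
    (hκ : ∀ φ : Fin m → ℝ,
      ((univ.filter (fun v => (φ ⬝ᵥ x v) * (φ ⬝ᵥ x (q v)) < 0)).card : ℝ) ≤ κ)
    (I : Finset (Fin m)) (i : Fin m) (hi : i ∉ I) (v : Fin m → V) :
    ((univ.filter (fun a : V => Basic q (update v i a) ∧
        ¬ SignOK x q I i (update v i a))).card : ℝ) ≤ κ := by
  obtain ⟨f, hf⟩ := DET_update_dot (fun l => x (mix q v I l)) i
  refine le_trans ?_ (hκ f)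
  have hsub : univ.filter (fun a : V => Basic q (update v i a) ∧
        ¬ SignOK x q I i (update v i a)) ⊆
      univ.filter (fun a => (f ⬝ᵥ x a) * (f ⬝ᵥ x (q a)) < 0) := by
    intro a ha
    simp only [mem_filter, mem_univ, true_and] at ha ⊢
    obtain ⟨hb, hs⟩ := ha
    have e1 : DD x q (update v i a) I = f ⬝ᵥ x (q a) := by
      rw [hf]
      unfold DD
      congr 1
      funext l
      by_cases hl : l = i
      · subst hl
        simp [mix, hi]
      · simp [mix, hl]
    have e2 : DD x q (update v i a) (insert i I) = f ⬝ᵥ x a := by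
      rw [hf]
      unfold DD
      congr 1
      funext l
      by_cases hl : l = i
      · subst hl
        simp [mix]
      · simp [mix, hl]
    have h1 := E4_DD_ne_zero x hgp q hq (update v i a) hb I
    have h2 := E4_DD_ne_zero x hgp q hq (update v i a) hb (insert i I)
    unfold SignOK at hs
    rw [e1] at h1 hs
    rw [e2] at h2 hs
    rw [mul_comm]
    exact lt_of_le_of_ne (not_lt.mp hs) (mul_ne_zero h1 h2)
  exact_mod_cast Finset.card_le_card hsub

end KS39
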