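import Pool.Agent.LibKS39.Defs

open Finset Function
open scoped Classical

namespace KS39

/-- the involution `(v, a) ↦ (update v i a, v i)`. -/
noncomputable def T1_inv {V : Type} {m : ℕ} (i : Fin m) :
    ((Fin m → V) × V) ≃ ((Fin m → V) × V) where
  toFun p := (update p.1 i p.2, p.1 i)
  invFun p := (update p.1 i p.2, p.1 i)
  left_inv := by
    rintro ⟨v, a⟩
    simp
  right_inv := by
    rintro ⟨v, a⟩
    simp

theorem sum_update {V : Type} [Fintype V] {m : ℕ} (g : (Fin m → V) → ℝ) (i : Fin m) :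
    ∑ v, ∑ a, g (update v i a) = Fintype.card V * ∑ v, g v := by
  have h1 : ∑ v, ∑ a, g (update v i a) = ∑ p : (Fin m → V) × V, g (T1_inv i p).1 := by
    rw [Fintype.sum_prod_type]
    rfl
  rw [h1, Equiv.sum_comp (T1_inv i) (fun p : (Fin m → V) × V => g p.1), Fintype.sum_prod_type]
  simp only [sum_const, card_univ, nsmul_eq_mul]
  rw [← mul_sum]

theorem T1_card_eq {α : Type} [Fintype α] (P : α → Prop) :
    ((univ.filter P).card : ℝ) = ∑ v : α, if P v then (1 : ℝ) else 0 := by
  simp

theorem T1_card_fun {V : Type} [Fintype V] {m : ℕ} :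
    ((Fintype.card (Fin m → V) : ℕ) : ℝ) = (Fintype.card V : ℝ) ^ m := by
  simp

theorem count_update {V : Type} [Fintype V] {m : ℕ} (P : (Fin m → V) → Prop) (i : Fin m)
    (K : ℝ) (h : ∀ v, ((univ.filter (fun a => P (update v i a))).card : ℝ) ≤ K) :
    ((univ.filter P).card : ℝ) * Fintype.card V ≤ K * (Fintype.card V : ℝ) ^ m := by
  rw [T1_card_eq P, mul_comm, ← sum_update (fun v => if P v then (1 : ℝ) else 0) i]
  have h2 : ∀ v ∈ (univ : Finset (Fin m → V)),
      (∑ a, if P (update v i a) then (1 : ℝ) else 0) ≤ K := by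
    intro v _
    rw [← T1_card_eq (fun a => P (update v i a))]
    exact h v
  refine (Finset.sum_le_sum h2).trans ?_
  rw [sum_const, nsmul_eq_mul, card_univ, T1_card_fun, mul_comm]

theorem count_update2 {V : Type} [Fintype V] {m : ℕ} (P : (Fin m → V) → Prop) (i j : Fin m)
    (K : ℝ)
    (h : ∀ v, ((univ.filter (fun p : V × V => P (update (update v i p.1) j p.2))).card : ℝ) ≤ K) :
    ((univ.filter P).card : ℝ) * (Fintype.card V : ℝ) ^ 2 ≤ K * (Fintype.card V : ℝ) ^ m := by
  have h1 : (Fintype.card V : ℝ) * ∑ v : Fin m → V, (if P v then (1 : ℝ) else 0)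
      = ∑ v : Fin m → V, ∑ b, (if P (update v j b) then (1 : ℝ) else 0) :=
    (sum_update (fun v => if P v then (1 : ℝ) else 0) j).symm
  have h2 : (Fintype.card V : ℝ) * ∑ v : Fin m → V, ∑ b, (if P (update v j b) then (1 : ℝ) else 0)
      = ∑ v : Fin m → V, ∑ a, ∑ b, (if P (update (update v i a) j b) then (1 : ℝ) else 0) :=
    (sum_update (fun v => ∑ b, if P (update v j b) then (1 : ℝ) else 0) i).symm
  have h3 : ((univ.filter P).card : ℝ) * (Fintype.card V : ℝ) ^ 2
      = ∑ v : Fin m → V, ∑ a, ∑ b, (if P (update (update v i a) j b) then (1 : ℝ) else 0) := by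
    rw [← h2, ← h1, T1_card_eq P]
    ring
  rw [h3]
  have h4 : ∀ v ∈ (univ : Finset (Fin m → V)),
      (∑ a, ∑ b, if P (update (update v i a) j b) then (1 : ℝ) else 0) ≤ K := by
    intro v _
    have h5 := T1_card_eq (fun p : V × V => P (update (update v i p.1) j p.2))
    rw [Fintype.sum_prod_type] at h5
    rw [← h5]
    exact h v
  refine (Finset.sum_le_sum h4).trans ?_
  rw [sum_const, nsmul_eq_mul, card_univ, T1_card_fun, mul_comm]

end KS39
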