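import Pool.Agent.LibKS39.E3
import Pool.Agent.LibKS39.E4
import Pool.Agent.LibKS39.T1
import Pool.Agent.LibKS39.Defs

open Finset Function
open scoped Classical

namespace KS39

theorem E5_biUnion {α ι : Type} [DecidableEq α] [Fintype ι] (A : ι → Finset α) (K : ℝ)
    (h : ∀ t, ((A t).card : ℝ) ≤ K) :
    (((univ : Finset ι).biUnion A).card : ℝ) ≤ Fintype.card ι * K := by
  have h2 : ((univ : Finset ι).biUnion A).card ≤ ∑ t : ι, (A t).card := card_biUnion_le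
  calc (((univ : Finset ι).biUnion A).card : ℝ)
      ≤ ((∑ t : ι, (A t).card : ℕ) : ℝ) := by exact_mod_cast h2
    _ = ∑ t : ι, ((A t).card : ℝ) := by push_cast; rfl
    _ ≤ ∑ _t : ι, K := sum_le_sum (fun t _ => h t)
    _ = Fintype.card ι * K := by rw [sum_const, card_univ, nsmul_eq_mul]

theorem E5_cover {α : Type} (S S1 S2 S3 S4 : Finset α)
    (h : ∀ v ∈ S, v ∈ S1 ∨ v ∈ S2 ∨ v ∈ S3 ∨ v ∈ S4) (a b c d : ℝ) (h1 : (S1.card : ℝ) ≤ a)
    (h2 : (S2.card : ℝ) ≤ b) (h3 : (S3.card : ℝ) ≤ c) (h4 : (S4.card : ℝ) ≤ d) :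
    (S.card : ℝ) ≤ a + (b + (c + d)) := by
  have hs : S ⊆ S1 ∪ (S2 ∪ (S3 ∪ S4)) := by
    intro v hv
    simp only [mem_union]
    exact h v hv
  have h5 : S.card ≤ S1.card + (S2.card + (S3.card + S4.card)) := by
    refine (card_le_card hs).trans ((card_union_le _ _).trans ?_)
    refine add_le_add le_rfl ((card_union_le _ _).trans ?_)
    exact add_le_add le_rfl (card_union_le _ _)
  have h6 : (S.card : ℝ) ≤ (S1.card : ℝ) + ((S2.card : ℝ) + ((S3.card : ℝ) + (S4.card : ℝ))) := by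
    exact_mod_cast h5
  linarith

theorem E5_div {n : ℝ} (hn : 0 < n) {m : ℕ} (hm : 1 ≤ m) {c K : ℝ} (h : c * n ≤ K * n ^ m) :
    c ≤ K * n ^ (m - 1) := by
  obtain ⟨k, rfl⟩ : ∃ k, m = k + 1 := ⟨m - 1, by omega⟩
  rw [Nat.add_sub_cancel]
  rw [pow_succ, ← mul_assoc] at h
  exact le_of_mul_le_mul_right h hn

theorem E5_div2 {n : ℝ} (hn : 0 < n) {m : ℕ} (hm : 1 ≤ m) {c K : ℝ}
    (h : c * n ^ 2 ≤ K * n * n ^ m) :
    c ≤ K * n ^ (m - 1) := by
  apply E5_div hn hm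
  have h1 : (c * n) * n ≤ (K * n ^ m) * n := by
    calc (c * n) * n = c * n ^ 2 := by ring
      _ ≤ K * n * n ^ m := h
      _ = _ := by ring
  exact le_of_mul_le_mul_right h1 hn

def E5_PA {V : Type} {m : ℕ} (q : V → V) (t : Fin m × Fin m) (v : Fin m → V) : Prop :=
  t.1 ≠ t.2 ∧ q (v t.1) = q (v t.2)

def E5_PB {V : Type} {m : ℕ} (q : V → V) (t : Fin m) (v : Fin m → V) : Prop :=
  q (v t) = v t

def E5_PC {V : Type} {m : ℕ} (x : V → Fin m → ℝ) (q : V → V) (t : Finset (Fin m) × Fin m)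
    (v : Fin m → V) : Prop :=
  t.2 ∉ t.1 ∧ Basic q v ∧ ¬ SignOK x q t.1 t.2 v

def E5_PD {V : Type} {m : ℕ} (x : V → Fin m → ℝ) (q : V → V) (η : ℝ)
    (t : Finset (Fin m) × (Fin m × Fin m)) (v : Fin m → V) : Prop :=
  (t.2.1 ≠ t.2.2 ∧ t.2.1 ∉ t.1 ∧ t.2.2 ∉ t.1) ∧
      Basic q v ∧ ¬ RatioOK x q η t.1 t.2.1 t.2.2 v

theorem E5_cases {V : Type} {m : ℕ} (x : V → Fin m → ℝ) (q : V → V) (η : ℝ)
    (v : Fin m → V) (h : ¬ Nice x q η v) :
    (∃ t, E5_PA q t v) ∨ (∃ t, E5_PB q t v) ∨ (∃ t, E5_PC x q t v) ∨ (∃ t, E5_PD x q η t v) := by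
  by_cases hb : Basic q v
  · by_cases hs : ∀ (I : Finset (Fin m)) (i : Fin m), i ∉ I → SignOK x q I i v
    · by_cases hr : ∀ (I : Finset (Fin m)) (i j : Fin m), i ≠ j → i ∉ I → j ∉ I →
          RatioOK x q η I i j v
      · exact absurd ⟨hb, hs, hr⟩ h
      · push Not at hr
        obtain ⟨I, i, j, h1, h2, h3, h4⟩ := hr
        exact Or.inr (Or.inr (Or.inr ⟨(I, (i, j)), ⟨h1, h2, h3⟩, hb, h4⟩))
    · push Not at hs
      obtain ⟨I, i, h1, h2⟩ := hs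
      exact Or.inr (Or.inr (Or.inl ⟨(I, i), h1, hb, h2⟩))
  · by_cases h1 : Injective (fun i => q (v i))
    · by_cases h2 : ∀ i, q (v i) ≠ v i
      · refine absurd ⟨?_, h1, h2⟩ hb
        intro i j hij
        apply h1
        show q (v i) = q (v j)
        rw [hij]
      · push Not at h2
        exact Or.inr (Or.inl h2)
    · left
      unfold Injective at h1
      push Not at h1
      obtain ⟨i, j, h3, h4⟩ := h1
      exact ⟨(i, j), h4, h3⟩

theorem E5_countA {V : Type} [Fintype V] {m : ℕ} (hm : 1 ≤ m)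
    (q : V → V) (F : ℝ) (hF0 : 0 ≤ F) (hn : (0 : ℝ) < (Fintype.card V : ℝ))
    (hF : ∀ c, ((univ.filter (fun v => q v = c)).card : ℝ) ≤ F) (t : Fin m × Fin m) :
    ((univ.filter (E5_PA q t)).card : ℝ) ≤ F * (Fintype.card V : ℝ) ^ (m - 1) := by
  apply E5_div hn hm
  apply count_update (E5_PA q t) t.2 F
  intro v
  by_cases ht : t.1 = t.2
  · have h0 : (univ.filter (fun a : V => E5_PA q t (update v t.2 a))) = ∅ := by
      rw [filter_eq_empty_iff]
      intro a _ h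
      exact h.1 ht
    rw [h0]
    simpa using hF0
  · refine le_trans ?_ (hF (q (v t.1)))
    have h0 : (univ.filter (fun a : V => E5_PA q t (update v t.2 a))) ⊆
        univ.filter (fun a => q a = q (v t.1)) := by
      intro a ha
      have h := (mem_filter.mp ha).2.2
      rw [update_of_ne ht, update_self] at h
      exact mem_filter.mpr ⟨mem_univ _, h.symm⟩
    exact_mod_cast card_le_card h0

theorem E5_countB {V : Type} [Fintype V] {m : ℕ} (hm : 1 ≤ m)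
    (q : V → V) (r : ℝ) (hn : (0 : ℝ) < (Fintype.card V : ℝ))
    (hr : ((univ.image q).card : ℝ) ≤ r) (t : Fin m) :
    ((univ.filter (E5_PB q t)).card : ℝ) ≤ r * (Fintype.card V : ℝ) ^ (m - 1) := by
  apply E5_div hn hm
  apply count_update (E5_PB q t) t r
  intro v
  refine le_trans ?_ hr
  have h0 : (univ.filter (fun a : V => E5_PB q t (update v t a))) ⊆
      univ.image q := by
    intro a ha
    have h := (mem_filter.mp ha).2
    unfold E5_PB at h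
    rw [update_self] at h
    exact mem_image.mpr ⟨a, mem_univ _, h⟩
  exact_mod_cast card_le_card h0

theorem E5_countC {V : Type} [Fintype V] {m : ℕ} (hm : 1 ≤ m) (x : V → Fin m → ℝ)
    (hgp : GP x) (q : V → V) (hq : ∀ v, q (q v) = q v) (κ : ℝ) (hκ0 : 0 ≤ κ)
    (hn : (0 : ℝ) < (Fintype.card V : ℝ))
    (hκ : ∀ φ : Fin m → ℝ,
      ((univ.filter (fun v => (φ ⬝ᵥ x v) * (φ ⬝ᵥ x (q v)) < 0)).card : ℝ) ≤ κ)
    (t : Finset (Fin m) × Fin m) :
    ((univ.filter (E5_PC x q t)).card : ℝ) ≤ κ * (Fintype.card V : ℝ) ^ (m - 1) := by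
  apply E5_div hn hm
  apply count_update (E5_PC x q t) t.2 κ
  intro v
  by_cases ht : t.2 ∈ t.1
  · have h0 : (univ.filter (fun a : V => E5_PC x q t (update v t.2 a))) = ∅ := by
      rw [filter_eq_empty_iff]
      intro a _ h
      exact h.1 ht
    rw [h0]
    simpa using hκ0
  · refine le_trans ?_ (count_sign x hgp q hq κ hκ t.1 t.2 ht v)
    have h0 : (univ.filter (fun a : V => E5_PC x q t (update v t.2 a))) ⊆
        (univ.filter (fun a : V =>
          Basic q (update v t.2 a) ∧ ¬ SignOK x q t.1 t.2 (update v t.2 a))) := by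
      intro a ha
      exact mem_filter.mpr ⟨mem_univ _, (mem_filter.mp ha).2.2⟩
    exact_mod_cast card_le_card h0

theorem E5_countD {V : Type} [Fintype V] {m : ℕ} (hm : 1 ≤ m) (x : V → Fin m → ℝ)
    (hgp : GP x) (q : V → V) (hq : ∀ v, q (q v) = q v) (κ : ℝ) (hκ0 : 0 ≤ κ)
    (hn : (0 : ℝ) < (Fintype.card V : ℝ))
    (hκ : ∀ φ : Fin m → ℝ,
      ((univ.filter (fun v => (φ ⬝ᵥ x v) * (φ ⬝ᵥ x (q v)) < 0)).card : ℝ) ≤ κ)
    (L : ℕ) (hL : 1 ≤ L) (t : Finset (Fin m) × (Fin m × Fin m)) :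
    ((univ.filter (E5_PD x q (1 / L) t)).card : ℝ) ≤
      ((8 * L + 16) * κ) * (Fintype.card V : ℝ) ^ (m - 1) := by
  apply E5_div2 hn hm
  apply count_update2 (E5_PD x q (1 / L) t) t.2.1 t.2.2
  intro v
  by_cases ht : t.2.1 ≠ t.2.2 ∧ t.2.1 ∉ t.1 ∧ t.2.2 ∉ t.1
  · refine le_trans ?_ (count_ratio x hgp q hq κ hκ L hL t.1 t.2.1 t.2.2 ht.1 ht.2.1 ht.2.2 v)
    have h0 : (univ.filter (fun p : V × V =>
        E5_PD x q (1 / L) t (update (update v t.2.1 p.1) t.2.2 p.2))) ⊆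
        (univ.filter (fun p : V × V => Basic q (update (update v t.2.1 p.1) t.2.2 p.2) ∧
          ¬ RatioOK x q (1 / L) t.1 t.2.1 t.2.2
            (update (update v t.2.1 p.1) t.2.2 p.2))) := by
      intro a ha
      exact mem_filter.mpr ⟨mem_univ _, (mem_filter.mp ha).2.2⟩
    exact_mod_cast card_le_card h0
  · have h0 : (univ.filter (fun p : V × V =>
        E5_PD x q (1 / L) t (update (update v t.2.1 p.1) t.2.2 p.2))) = ∅ := by
      rw [filter_eq_empty_iff]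
      intro a _ h
      exact ht h.1
    rw [h0]
    simp only [card_empty, Nat.cast_zero]
    positivity

theorem E5_final (m : ℕ) (hm0 : (1 : ℝ) ≤ (m : ℝ)) (L F r κ N : ℝ) (hL0 : 1 ≤ L) (hF0 : 0 ≤ F)
    (hr0 : 0 ≤ r) (hκ0 : 0 ≤ κ) (hN0 : 0 ≤ N) :
    (m : ℝ) * m * (F * N) + (m * (r * N) + (2 ^ m * m * (κ * N) +
      2 ^ m * (m * m) * ((8 * L + 16) * κ * N))) ≤
      2 ^ m * m ^ 2 * (8 * L + 17) * (κ + r + F) * N := by
  have h2m : (1 : ℝ) ≤ 2 ^ m := one_le_pow₀ (by norm_num)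
  have hmm : (m : ℝ) ≤ (m : ℝ) ^ 2 := by nlinarith
  have hone : (1 : ℝ) ≤ 2 ^ m * (8 * L + 17) := by nlinarith
  have e1 : (m : ℝ) * m * (F * N) ≤ 2 ^ m * m ^ 2 * (8 * L + 17) * F * N := by
    calc (m : ℝ) * m * (F * N) = 1 * (m ^ 2 * (F * N)) := by ring
      _ ≤ (2 ^ m * (8 * L + 17)) * (m ^ 2 * (F * N)) :=
          mul_le_mul_of_nonneg_right hone (by positivity)
      _ = _ := by ring
  have e2 : (m : ℝ) * (r * N) ≤ 2 ^ m * m ^ 2 * (8 * L + 17) * r * N := by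
    calc (m : ℝ) * (r * N) ≤ m ^ 2 * (r * N) := mul_le_mul_of_nonneg_right hmm (by positivity)
      _ = 1 * (m ^ 2 * (r * N)) := by ring
      _ ≤ (2 ^ m * (8 * L + 17)) * (m ^ 2 * (r * N)) :=
          mul_le_mul_of_nonneg_right hone (by positivity)
      _ = _ := by ring
  have e3 : (2 : ℝ) ^ m * m * (κ * N) + 2 ^ m * (m * m) * ((8 * L + 16) * κ * N) ≤
      2 ^ m * m ^ 2 * (8 * L + 17) * κ * N := by
    have h3 : (2 : ℝ) ^ m * m * (κ * N) ≤ 2 ^ m * m ^ 2 * (κ * N) := by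
      apply mul_le_mul_of_nonneg_right _ (by positivity)
      exact mul_le_mul_of_nonneg_left hmm (by positivity)
    calc (2 : ℝ) ^ m * m * (κ * N) + 2 ^ m * (m * m) * ((8 * L + 16) * κ * N)
        ≤ 2 ^ m * m ^ 2 * (κ * N) + 2 ^ m * (m * m) * ((8 * L + 16) * κ * N) := by linarith
      _ = _ := by ring
  calc _ ≤ 2 ^ m * m ^ 2 * (8 * L + 17) * F * N + (2 ^ m * m ^ 2 * (8 * L + 17) * r * N +
        2 ^ m * m ^ 2 * (8 * L + 17) * κ * N) := by linarith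
    _ = _ := by ring

/-- total number of tuples that are not nice. -/
theorem count_not_nice {V : Type} [Fintype V] {m : ℕ} (hm : 1 ≤ m) (x : V → Fin m → ℝ)
    (hgp : GP x) (q : V → V) (hq : ∀ v, q (q v) = q v) (κ F r : ℝ) (hV : 1 ≤ Fintype.card V)
    (hr : ((univ.image q).card : ℝ) ≤ r)
    (hF : ∀ c, ((univ.filter (fun v => q v = c)).card : ℝ) ≤ F)
    (hκ : ∀ φ : Fin m → ℝ,
      ((univ.filter (fun v => (φ ⬝ᵥ x v) * (φ ⬝ᵥ x (q v)) < 0)).card : ℝ) ≤ κ)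
    (L : ℕ) (hL : 1 ≤ L) :
    ((univ.filter (fun v : Fin m → V => ¬ Nice x q (1 / L) v)).card : ℝ) ≤
      2 ^ m * m ^ 2 * (8 * L + 17) * (κ + r + F) * (Fintype.card V : ℝ) ^ (m - 1) := by
  have hn : (0 : ℝ) < (Fintype.card V : ℝ) := by exact_mod_cast hV
  have hκ0 : 0 ≤ κ := le_trans (Nat.cast_nonneg _) (hκ 0)
  have hr0 : 0 ≤ r := le_trans (Nat.cast_nonneg _) hr
  obtain ⟨c0⟩ : Nonempty V := Fintype.card_pos_iff.mp (by omega)
  have hF0 : 0 ≤ F := le_trans (Nat.cast_nonneg _) (hF c0)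
  have hL0 : (1 : ℝ) ≤ (L : ℝ) := by exact_mod_cast hL
  have hm0 : (1 : ℝ) ≤ (m : ℝ) := by exact_mod_cast hm
  have kA := E5_biUnion (fun t => univ.filter (E5_PA q t)) _ (E5_countA hm q F hF0 hn hF)
  have kB := E5_biUnion (fun t => univ.filter (E5_PB q t)) _ (E5_countB hm q r hn hr)
  have kC := E5_biUnion (fun t => univ.filter (E5_PC x q t)) _
    (E5_countC hm x hgp q hq κ hκ0 hn hκ)
  have kD := E5_biUnion (fun t => univ.filter (E5_PD x q (1 / L) t)) _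
    (E5_countD hm x hgp q hq κ hκ0 hn hκ L hL)
  have hcov : ∀ v ∈ (univ.filter (fun v : Fin m → V => ¬ Nice x q (1 / L) v)),
      v ∈ (univ.biUnion (fun t => univ.filter (E5_PA q t))) ∨
      v ∈ (univ.biUnion (fun t => univ.filter (E5_PB q t))) ∨
      v ∈ (univ.biUnion (fun t => univ.filter (E5_PC x q t))) ∨
      v ∈ (univ.biUnion (fun t => univ.filter (E5_PD x q (1 / L) t))) := by
    intro v hv
    rcases E5_cases x q (1 / L) v (mem_filter.mp hv).2 with ⟨t, ht⟩ | ⟨t, ht⟩ | ⟨t, ht⟩ | ⟨t, ht⟩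
    · exact Or.inl (mem_biUnion.mpr ⟨t, mem_univ _, mem_filter.mpr ⟨mem_univ _, ht⟩⟩)
    · exact Or.inr (Or.inl (mem_biUnion.mpr ⟨t, mem_univ _, mem_filter.mpr ⟨mem_univ _, ht⟩⟩))
    · exact Or.inr (Or.inr (Or.inl
        (mem_biUnion.mpr ⟨t, mem_univ _, mem_filter.mpr ⟨mem_univ _, ht⟩⟩)))
    · exact Or.inr (Or.inr (Or.inr
        (mem_biUnion.mpr ⟨t, mem_univ _, mem_filter.mpr ⟨mem_univ _, ht⟩⟩)))
  have h1 := E5_cover _ _ _ _ _ hcov _ _ _ _ kA kB kC kD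
  refine le_trans h1 ?_
  have h2 := E5_final m hm0 L F r κ ((Fintype.card V : ℝ) ^ (m - 1)) hL0 hF0 hr0 hκ0
    (by positivity)
  refine le_trans (le_of_eq ?_) h2
  rw [Fintype.card_prod, Fintype.card_prod, Fintype.card_prod, Fintype.card_prod,
    Fintype.card_fin, Fintype.card_finset, Fintype.card_fin]
  push_cast
  ring

end KS39
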