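import Pool.Agent.LibKS39.Defs

open Finset Function
open scoped Classical

namespace KS39

theorem F1_det_inst {n : Type} (f1 f2 : Fintype n) (i1 i2 : DecidableEq n) (M N : Matrix n n ℝ)
    (hMN : M = N) :
    @Matrix.det n i1 f1 ℝ _ M = @Matrix.det n i2 f2 ℝ _ N := by
  have h : i1 = i2 := Subsingleton.elim i1 i2
  have h' : f1 = f2 := Subsingleton.elim f1 f2
  subst h
  subst h'
  subst hMN
  rfl

/-- determinant of a mixed family of rows = principal minor. -/
theorem det_mix {m : ℕ} (Q C : Matrix (Fin m) (Fin m) ℝ) (I : Finset (Fin m)) :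
    DET (fun l => if l ∈ I then (C * Q) l else Q l) =
      (C.submatrix (fun a : {a // a ∈ I} => (a : Fin m)) (fun a : {a // a ∈ I} => (a : Fin m))).det
        * Q.det := by
  set D : Matrix (Fin m) (Fin m) ℝ :=
    Matrix.of (fun l => if l ∈ I then C l else (1 : Matrix (Fin m) (Fin m) ℝ) l) with hD
  have h1 : Matrix.of (fun l => if l ∈ I then (C * Q) l else Q l) = D * Q := by
    ext i j
    rw [Matrix.mul_apply]
    by_cases hi : i ∈ I
    · simp [hD, hi, Matrix.mul_apply]
    · have : ∀ k, D i k = (1 : Matrix (Fin m) (Fin m) ℝ) i k := by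
        intro k; simp [hD, hi]
      simp only [this]
      rw [← Matrix.mul_apply, Matrix.one_mul]
      simp [hi]
  unfold DET
  rw [h1, Matrix.det_mul]
  congr 1
  rw [Matrix.twoBlockTriangular_det D (fun a => a ∈ I)]
  · have h2 : Matrix.toSquareBlockProp D (fun i => ¬ i ∈ I) = 1 := by
      ext i j
      have hi : (i : Fin m) ∉ I := i.2
      simp only [Matrix.toSquareBlockProp_def, Matrix.of_apply, hD, if_neg hi]
      by_cases hij : i = j
      · subst hij; simp
      · have : (i : Fin m) ≠ j := fun h => hij (Subtype.ext h)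
        rw [Matrix.one_apply_ne this, Matrix.one_apply_ne hij]
    rw [h2, Matrix.det_one, mul_one]
    have h3 : Matrix.toSquareBlockProp D (fun i => i ∈ I) =
        C.submatrix (fun a : {a // a ∈ I} => (a : Fin m)) (fun a : {a // a ∈ I} => (a : Fin m)) := by
      ext i j
      have hi : (i : Fin m) ∈ I := i.2
      simp only [Matrix.toSquareBlockProp_def, Matrix.of_apply, hD, if_pos hi,
        Matrix.submatrix_apply]
    exact F1_det_inst _ _ _ _ _ _ h3
  · intro i hi j hj
    have hij : i ≠ j := fun h => hi (h ▸ hj)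
    simp [hD, hi, Matrix.one_apply_ne hij]

end KS39
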