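import Pool.Agent.LibKS39.Defs

open Finset Function
open scoped Classical

namespace KS39

/-- bound for the ratios `p (insert i I) / p I` -/
private theorem F2_ratio {m : ℕ} (p : Finset (Fin m) → ℝ) (η : ℝ) (hη : 0 ≤ η) (hη1 : η < 1)
    (h0 : p ∅ = 1) (hp : ∀ I, 0 < p I)
    (hr : ∀ I i j, i ≠ j → i ∉ I → j ∉ I →
      |p I * p (insert i (insert j I)) - p (insert i I) * p (insert j I)| ≤
        η * |p (insert i I) * p (insert j I)|) :
    ∀ (I : Finset (Fin m)) (i : Fin m), i ∉ I →
      (1 - η) ^ I.card * p {i} * p I ≤ p (insert i I) ∧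
        p (insert i I) ≤ (1 + η) ^ I.card * p {i} * p I := by
  intro I
  induction I using Finset.induction_on with
  | empty =>
    intro i _
    simp [h0]
  | insert j I hj ih =>
    intro i hi
    have hij : i ≠ j := fun h => hi (h ▸ mem_insert_self _ _)
    have hiI : i ∉ I := fun h => hi (mem_insert_of_mem h)
    have h := hr I i j hij hiI hj
    have hpos : 0 < p (insert i I) * p (insert j I) := mul_pos (hp _) (hp _)
    rw [abs_of_pos hpos, abs_le] at h
    obtain ⟨h1, h2⟩ := h
    obtain ⟨g1, g2⟩ := ih i hiI
    have hI := hp I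
    have hjI := hp (insert j I)
    rw [card_insert_of_notMem hj]
    have hη' : 0 ≤ 1 - η := by linarith
    constructor
    · have e1 : (1 - η) * (p (insert i I) * p (insert j I)) ≤
          p I * p (insert i (insert j I)) := by linarith
      have e2 : (1 - η) ^ (I.card + 1) * p {i} * p (insert j I) * p I ≤
          p (insert i (insert j I)) * p I := by
        calc (1 - η) ^ (I.card + 1) * p {i} * p (insert j I) * p I
            = (1 - η) * (((1 - η) ^ I.card * p {i} * p I) * p (insert j I)) := by ring
          _ ≤ (1 - η) * (p (insert i I) * p (insert j I)) := by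
              apply mul_le_mul_of_nonneg_left _ hη'
              exact mul_le_mul_of_nonneg_right g1 hjI.le
          _ ≤ p (insert i (insert j I)) * p I := by linarith
      exact le_of_mul_le_mul_right e2 hI
    · have e1 : p I * p (insert i (insert j I)) ≤
          (1 + η) * (p (insert i I) * p (insert j I)) := by linarith
      have e2 : p (insert i (insert j I)) * p I ≤
          (1 + η) ^ (I.card + 1) * p {i} * p (insert j I) * p I := by
        calc p (insert i (insert j I)) * p I
            ≤ (1 + η) * (p (insert i I) * p (insert j I)) := by linarith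
          _ ≤ (1 + η) * (((1 + η) ^ I.card * p {i} * p I) * p (insert j I)) := by
              apply mul_le_mul_of_nonneg_left _ (by linarith)
              exact mul_le_mul_of_nonneg_right g2 hjI.le
          _ = (1 + η) ^ (I.card + 1) * p {i} * p (insert j I) * p I := by ring
      exact le_of_mul_le_mul_right e2 hI

/-- almost multiplicative principal minors. -/
theorem minors {m : ℕ} (p : Finset (Fin m) → ℝ) (η : ℝ) (hη : 0 ≤ η) (hη1 : η < 1)
    (h0 : p ∅ = 1) (hpos : ∀ I i, i ∉ I → 0 < p I * p (insert i I))
    (hr : ∀ I i j, i ≠ j → i ∉ I → j ∉ I →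
      |p I * p (insert i (insert j I)) - p (insert i I) * p (insert j I)| ≤
        η * |p (insert i I) * p (insert j I)|) :
    ∀ I, 0 < p I ∧ (1 - η) ^ (m * m) * ∏ i ∈ I, p {i} ≤ p I ∧
      p I ≤ (1 + η) ^ (m * m) * ∏ i ∈ I, p {i} := by
  have hp : ∀ I, 0 < p I := by
    intro I
    induction I using Finset.induction_on with
    | empty => rw [h0]; exact one_pos
    | insert j I hj ih =>
      exact (pos_iff_pos_of_mul_pos (hpos I j hj)).mp ih
  have hrat := F2_ratio p η hη hη1 h0 hp hr
  -- stronger claim with exponent `m * |I|`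
  have key : ∀ I : Finset (Fin m), (1 - η) ^ (m * I.card) * ∏ i ∈ I, p {i} ≤ p I ∧
      p I ≤ (1 + η) ^ (m * I.card) * ∏ i ∈ I, p {i} := by
    intro I
    induction I using Finset.induction_on with
    | empty => simp [h0]
    | insert j I hj ih =>
      obtain ⟨i1, i2⟩ := ih
      obtain ⟨r1, r2⟩ := hrat I j hj
      have hcard : I.card ≤ m := by
        simpa using Finset.card_le_univ I
      have hpj := hp {j}
      have hprod : 0 ≤ ∏ i ∈ I, p {i} := prod_nonneg fun i _ => (hp _).le
      rw [card_insert_of_notMem hj, prod_insert hj, mul_add, mul_one, pow_add, pow_add]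
      have a0 : 0 ≤ 1 - η := by linarith
      have a1 : (1 - η) ^ m ≤ (1 - η) ^ I.card :=
        pow_le_pow_of_le_one a0 (by linarith) hcard
      have a2 : (1 + η) ^ I.card ≤ (1 + η) ^ m :=
        pow_le_pow_right₀ (by linarith) hcard
      constructor
      · calc (1 - η) ^ (m * I.card) * (1 - η) ^ m * (p {j} * ∏ i ∈ I, p {i})
            = ((1 - η) ^ m * p {j}) * ((1 - η) ^ (m * I.card) * ∏ i ∈ I, p {i}) := by ring
          _ ≤ ((1 - η) ^ I.card * p {j}) * p I := by
              apply mul_le_mul (mul_le_mul_of_nonneg_right a1 hpj.le) i1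
              · positivity
              · positivity
          _ ≤ p (insert j I) := r1
      · calc p (insert j I) ≤ (1 + η) ^ I.card * p {j} * p I := r2
          _ ≤ ((1 + η) ^ m * p {j}) * ((1 + η) ^ (m * I.card) * ∏ i ∈ I, p {i}) := by
              apply mul_le_mul (mul_le_mul_of_nonneg_right a2 hpj.le) i2 (hp I).le
              positivity
          _ = (1 + η) ^ (m * I.card) * (1 + η) ^ m * (p {j} * ∏ i ∈ I, p {i}) := by ring
  intro I
  obtain ⟨k1, k2⟩ := key I
  have hcard : m * I.card ≤ m * m := by
    apply Nat.mul_le_mul_left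
    simpa using Finset.card_le_univ I
  have hprod : 0 ≤ ∏ i ∈ I, p {i} := prod_nonneg fun i _ => (hp _).le
  refine ⟨hp I, ?_, ?_⟩
  · refine le_trans (mul_le_mul_of_nonneg_right ?_ hprod) k1
    exact pow_le_pow_of_le_one (by linarith) (by linarith) hcard
  · refine le_trans k2 (mul_le_mul_of_nonneg_right ?_ hprod)
    exact pow_le_pow_right₀ (by linarith) hcard

end KS39
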