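import Pool.Agent.LibKS39.Defs

open Finset Function
open scoped Classical

namespace KS39

/-- Conjugation by a diagonal matrix does not change principal minors. -/
theorem F4_conj {K : ℕ} (B : Matrix (Fin K) (Fin K) ℝ) (γ : Fin K → ℝ) (hγ : ∀ a, γ a ≠ 0)
    {j : ℕ} (f : Fin j → Fin K) :
    ((Matrix.of fun a b => B a b * γ b / γ a).submatrix f f).det = (B.submatrix f f).det := by
  have h : (Matrix.of fun a b => B a b * γ b / γ a).submatrix f f =
      Matrix.diagonal (fun i => (γ (f i))⁻¹) * B.submatrix f f *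
        Matrix.diagonal (fun i => γ (f i)) := by
    ext a b
    rw [Matrix.mul_diagonal, Matrix.diagonal_mul]
    simp only [Matrix.submatrix_apply, Matrix.of_apply]
    rw [div_eq_mul_inv]
    ring
  rw [h, Matrix.det_mul, Matrix.det_mul, Matrix.det_diagonal, Matrix.det_diagonal,
    mul_right_comm, ← Finset.prod_mul_distrib]
  have h1 : ∏ i, ((γ (f i))⁻¹ * γ (f i)) = 1 :=
    Finset.prod_eq_one fun i _ => inv_mul_cancel₀ (hγ _)
  rw [h1, one_mul]

section F4sec

open scoped Fin.CommRing Fin.NatCast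

/-- A permutation of `ℤ/K` all of whose moves are `0` or `-1` is the identity or the shift. -/
theorem F4_perm {k : ℕ} (σ : Equiv.Perm (Fin (k + 2))) (h1 : σ ≠ 1)
    (h2 : σ ≠ Equiv.subRight (1 : Fin (k + 2))) : ∃ i, σ i ≠ i ∧ σ i ≠ i - 1 := by
  by_contra hcon
  have hcon' : ∀ i, σ i ≠ i → σ i = i - 1 := by
    intro i hi
    by_contra h
    exact hcon ⟨i, hi, h⟩
  obtain ⟨i0, hi0⟩ : ∃ i, σ i ≠ i := by
    by_contra h
    apply h1
    ext i
    by_contra h'
    exact h ⟨i, fun h'' => h' (by rw [h'']; rfl)⟩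
  have hone : (1 : Fin (k + 2)) ≠ 0 := one_ne_zero
  have key : ∀ n : ℕ, σ (i0 - (n : Fin (k + 2))) = i0 - (n : Fin (k + 2)) - 1 := by
    intro n
    induction n with
    | zero => simpa using hcon' i0 hi0
    | succ n ihn =>
      apply hcon'
      intro h
      have hx : i0 - ((n + 1 : ℕ) : Fin (k + 2)) = i0 - (n : Fin (k + 2)) - 1 := by
        push_cast
        ring
      rw [hx] at h
      have h3 := σ.injective (h.trans ihn.symm)
      apply hone
      have h4 : i0 - (n : Fin (k + 2)) - 1 + 1 = i0 - (n : Fin (k + 2)) + 1 := by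
        rw [h3]
      have h5 : i0 - (n : Fin (k + 2)) + 0 = i0 - (n : Fin (k + 2)) + 1 := by
        rw [add_zero]
        rw [sub_add_cancel] at h4
        exact h4
      exact (add_left_cancel h5).symm
  apply h2
  apply Equiv.ext
  intro i
  have h := key (i0 - i).val
  rw [Fin.cast_val_eq_self, sub_sub_cancel] at h
  exact h

theorem F4_main (k : ℕ) : ∀ ε : ℝ, 0 < ε → ∃ η : ℝ, 0 < η ∧
    ∀ B : Matrix (Fin (k + 2)) (Fin (k + 2)) ℝ, (∀ i, B i i = 1) →
      (∀ (j : ℕ) (f : Fin j → Fin (k + 2)), Injective f → |(B.submatrix f f).det - 1| ≤ η) →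
      |∏ a, B a (a + 1)| ≤ ε := by
  induction k using Nat.strong_induction_on with
  | _ k ih =>
  intro ε' hε'
  rcases Nat.eq_zero_or_pos k with hk | hk
  · subst hk
    refine ⟨ε', hε', fun B hB h => ?_⟩
    have h1 := h 2 id injective_id
    rw [Matrix.submatrix_id_id] at h1
    have h2 : B.det = 1 - B 0 1 * B 1 0 := by
      have := Matrix.det_fin_two (A := (B : Matrix (Fin 2) (Fin 2) ℝ))
      rw [show B.det = B 0 0 * B 1 1 - B 0 1 * B 1 0 from this, hB 0, hB 1, one_mul]
    have h3 : ∏ a, B a (a + 1) = B 0 1 * B 1 0 := by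
      have := Fin.prod_univ_two (f := fun a : Fin 2 => (B : Matrix (Fin 2) (Fin 2) ℝ) a (a + 1))
      exact this
    rw [h3]
    rw [h2] at h1
    have h4 : 1 - B 0 1 * B 1 0 - 1 = -(B 0 1 * B 1 0) := by ring
    rwa [h4, abs_neg] at h1
  -- main case
  obtain ⟨ε, hε, hε1, hεε⟩ : ∃ ε : ℝ, 0 < ε ∧ ε ≤ 1 ∧ ε ≤ ε' :=
    ⟨min ε' 1, lt_min hε' one_pos, min_le_right _ _, min_le_left _ _⟩
  have hF : (0 : ℝ) < ((k + 2).factorial : ℝ) := by exact_mod_cast Nat.factorial_pos _
  have hF1 : (1 : ℝ) ≤ ((k + 2).factorial : ℝ) := by exact_mod_cast Nat.factorial_pos _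
  obtain ⟨ρ, hρ, hρε, hρF⟩ : ∃ ρ : ℝ, 0 < ρ ∧ ρ ≤ ε ∧ ((k + 2).factorial : ℝ) * ρ ≤ ε / 4 := by
    refine ⟨ε / 4 / ((k + 2).factorial : ℝ), by positivity, ?_, ?_⟩
    · rw [div_le_iff₀ hF]
      nlinarith
    · rw [mul_div_cancel₀ _ hF.ne']
  have hρ1 : ρ ≤ 1 := hρε.trans hε1
  -- a common η for all shorter lengths
  have hη : ∀ n, n ≤ k → ∃ η : ℝ, 0 < η ∧ ∀ j, j < n →
      ∀ B : Matrix (Fin (j + 2)) (Fin (j + 2)) ℝ, (∀ i, B i i = 1) →
        (∀ (j' : ℕ) (f : Fin j' → Fin (j + 2)), Injective f →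
          |(B.submatrix f f).det - 1| ≤ η) →
        |∏ a, B a (a + 1)| ≤ ρ ^ 2 := by
    intro n
    induction n with
    | zero => exact fun _ => ⟨1, one_pos, fun j hj => absurd hj (Nat.not_lt_zero _)⟩
    | succ n ihn =>
      intro hn
      obtain ⟨η₁, hη₁, H₁⟩ := ihn (by omega)
      obtain ⟨η₂, hη₂, H₂⟩ := ih n (by omega) (ρ ^ 2) (by positivity)
      refine ⟨min η₁ η₂, lt_min hη₁ hη₂, fun j hj B hB hm => ?_⟩
      rcases Nat.lt_succ_iff_lt_or_eq.mp hj with hj | hj
      · exact H₁ j hj B hB fun j' f hf => (hm j' f hf).trans (min_le_left _ _)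
      · subst hj
        exact H₂ B hB fun j' f hf => (hm j' f hf).trans (min_le_right _ _)
  obtain ⟨η₀, hη₀, H₀⟩ := hη k le_rfl
  refine ⟨min η₀ (ε / 4), lt_min hη₀ (by positivity), fun B hB hm => ?_⟩
  by_contra hcon
  rw [not_le] at hcon
  have hM : ε < |∏ a, B a (a + 1)| := lt_of_le_of_lt hεε hcon
  clear hcon
  set M : ℝ := ∏ a, B a (a + 1) with hMdef
  have hMpos : 0 < |M| := hε.trans hM
  have hMne : M ≠ 0 := abs_pos.mp hMpos
  have hBne : ∀ a, B a (a + 1) ≠ 0 := fun a ha => hMne (Finset.prod_eq_zero (mem_univ a) ha)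
  -- the common modulus of the normalised entries
  let β : ℝ := |M| ^ (((k + 2 : ℕ) : ℝ)⁻¹)
  have hβpos : 0 < β := Real.rpow_pos_of_pos hMpos _
  have hβK : β ^ (k + 2) = |M| := Real.rpow_inv_natCast_pow (abs_nonneg _) (by omega)
  -- the diagonal matrix
  let Γ : ℕ → ℝ := fun n => ∏ i ∈ range n, (β / |B (i : Fin (k + 2)) ((i : Fin (k + 2)) + 1)|)
  have hΓpos : ∀ n, 0 < Γ n := by
    intro n
    exact Finset.prod_pos fun i _ => div_pos hβpos (abs_pos.mpr (hBne _))
  have hΓK : Γ (k + 2) = 1 := by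
    show ∏ i ∈ range (k + 2), (β / |B (i : Fin (k + 2)) ((i : Fin (k + 2)) + 1)|) = 1
    rw [Finset.prod_div_distrib, Finset.prod_const, Finset.card_range, hβK]
    rw [Finset.prod_range (fun i : ℕ => |B (i : Fin (k + 2)) ((i : Fin (k + 2)) + 1)|)]
    simp only [Fin.cast_val_eq_self]
    rw [← Finset.abs_prod]
    exact div_self hMpos.ne'
  let γ : Fin (k + 2) → ℝ := fun a => Γ a.val
  have hγne : ∀ a, γ a ≠ 0 := fun a => (hΓpos _).ne'
  have hγs : ∀ a, γ (a + 1) = γ a * (β / |B a (a + 1)|) := by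
    intro a
    have h1 : Γ (a.val + 1) = γ a * (β / |B a (a + 1)|) := by
      show ∏ i ∈ range (a.val + 1), (β / |B (i : Fin (k + 2)) ((i : Fin (k + 2)) + 1)|) = _
      rw [Finset.prod_range_succ, Fin.cast_val_eq_self]
    rcases Fin.eq_castSucc_or_eq_last a with ⟨b, rfl⟩ | rfl
    · rw [← h1]
      show Γ (Fin.castSucc b + 1).val = _
      rw [Fin.coeSucc_eq_succ]
      rfl
    · rw [← h1]
      show Γ (Fin.last (k + 1) + 1).val = Γ (k + 1 + 1)
      rw [Fin.last_add_one]
      show Γ 0 = Γ (k + 2)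
      rw [hΓK]
      rfl
  let B' : Matrix (Fin (k + 2)) (Fin (k + 2)) ℝ := Matrix.of fun a b => B a b * γ b / γ a
  have hB'd : ∀ a, B' a a = 1 := by
    intro a
    show B a a * γ a / γ a = 1
    rw [hB a, one_mul, div_self (hγne a)]
  have hB's : ∀ a, |B' a (a + 1)| = β := by
    intro a
    show |B a (a + 1) * γ (a + 1) / γ a| = β
    rw [hγs a]
    have h1 : B a (a + 1) * (γ a * (β / |B a (a + 1)|)) / γ a =
        B a (a + 1) * (β / |B a (a + 1)|) := by
      field_simp [hγne a]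
    rw [h1, abs_mul, abs_div, abs_abs, abs_of_pos hβpos,
      mul_div_cancel₀ _ (abs_pos.mpr (hBne a)).ne']
  have hB'M : ∏ a, B' a (a + 1) = M := by
    show ∏ a, (B a (a + 1) * γ (a + 1) / γ a) = M
    rw [Finset.prod_div_distrib, Finset.prod_mul_distrib]
    have h1 : ∏ a : Fin (k + 2), γ (a + 1) = ∏ a, γ a :=
      Equiv.prod_comp (Equiv.addRight (1 : Fin (k + 2))) γ
    rw [h1, mul_div_assoc, div_self (Finset.prod_ne_zero_iff.mpr fun a _ => hγne a), mul_one]
  have hB'm : ∀ (j : ℕ) (f : Fin j → Fin (k + 2)), Injective f →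
      |(B'.submatrix f f).det - 1| ≤ min η₀ (ε / 4) := by
    intro j f hf
    have h1 : (B'.submatrix f f).det = (B.submatrix f f).det := F4_conj B γ hγne f
    rw [h1]
    exact hm j f hf
  -- chords are small
  have hchord : ∀ a b : Fin (k + 2), a ≠ b → b ≠ a + 1 → |B' a b| ≤ ρ := by
    intro a b hab hba
    obtain ⟨j, hj⟩ : ∃ j, (a - b).val = j + 1 := by
      refine Nat.exists_eq_succ_of_ne_zero ?_
      intro h
      apply hab
      have h1 : a - b = 0 := Fin.ext (by simpa using h)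
      exact sub_eq_zero.mp h1
    have hjk : j < k := by
      by_contra h
      have h1 : (a - b).val < k + 2 := (a - b).isLt
      have h2 : (a - b).val = k + 1 := by omega
      apply hba
      have h3 : a - b = Fin.last (k + 1) := Fin.ext (by simpa using h2)
      have h4 : a - b + 1 = 0 := by rw [h3, Fin.last_add_one]
      have h5 : a + 1 - b = 0 := by rw [← h4]; ring
      exact (sub_eq_zero.mp h5).symm
    let g : Fin (j + 2) → Fin (k + 2) := fun c => b + ((c : ℕ) : Fin (k + 2))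
    have hg : Injective g := by
      intro c c' h
      have h1 : ((c : ℕ) : Fin (k + 2)) = ((c' : ℕ) : Fin (k + 2)) := add_left_cancel h
      have h2 := congrArg Fin.val h1
      rw [Fin.val_natCast, Fin.val_natCast, Nat.mod_eq_of_lt (by have := c.isLt; omega),
        Nat.mod_eq_of_lt (by have := c'.isLt; omega)] at h2
      exact Fin.ext h2
    have hIH := H₀ j hjk (B'.submatrix g g) (fun i => hB'd _) (fun j' f hf => by
      rw [Matrix.submatrix_submatrix]
      exact (hB'm j' (g ∘ f) (hg.comp hf)).trans (min_le_left _ _))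
    rw [Fin.prod_univ_castSucc] at hIH
    have hlast : (B'.submatrix g g) (Fin.last (j + 1)) (Fin.last (j + 1) + 1) = B' a b := by
      rw [Fin.last_add_one]
      show B' (g (Fin.last (j + 1))) (g 0) = B' a b
      have h1 : g (Fin.last (j + 1)) = a := by
        show b + (((Fin.last (j + 1) : Fin (j + 2)) : ℕ) : Fin (k + 2)) = a
        rw [Fin.val_last, ← hj, Fin.cast_val_eq_self]
        ring
      have h2 : g 0 = b := by
        show b + (((0 : Fin (j + 2)) : ℕ) : Fin (k + 2)) = b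
        simp
      rw [h1, h2]
    have hmid : ∀ c : Fin (j + 1),
        |(B'.submatrix g g) (Fin.castSucc c) (Fin.castSucc c + 1)| = β := by
      intro c
      rw [Fin.coeSucc_eq_succ]
      show |B' (g (Fin.castSucc c)) (g c.succ)| = β
      have h1 : g c.succ = g (Fin.castSucc c) + 1 := by
        show b + ((c.succ : ℕ) : Fin (k + 2)) = b + ((Fin.castSucc c : ℕ) : Fin (k + 2)) + 1
        rw [Fin.val_succ, Fin.val_castSucc]
        push_cast
        ring
      rw [h1]
      exact hB's _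
    rw [abs_mul, Finset.abs_prod, Finset.prod_congr rfl fun c _ => hmid c, Finset.prod_const,
      Finset.card_univ, Fintype.card_fin, hlast] at hIH
    have hβρ : ρ ≤ β ^ (j + 1) := by
      rcases le_total 1 β with h | h
      · exact hρ1.trans (one_le_pow₀ h)
      · have h1 : β ^ (k + 2) ≤ β ^ (j + 1) := pow_le_pow_of_le_one hβpos.le h (by omega)
        rw [hβK] at h1
        linarith
    have h1 : ρ * |B' a b| ≤ ρ * ρ := by
      calc ρ * |B' a b| ≤ β ^ (j + 1) * |B' a b| :=
            mul_le_mul_of_nonneg_right hβρ (abs_nonneg _)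
        _ ≤ ρ ^ 2 := hIH
        _ = ρ * ρ := by ring
    exact le_of_mul_le_mul_left h1 hρ
  -- bound for all entries
  set μ : ℝ := max 1 β with hμdef
  have hμ1 : 1 ≤ μ := le_max_left _ _
  have hent : ∀ a b : Fin (k + 2), |B' a b| ≤ μ := by
    intro a b
    by_cases hab : a = b
    · subst hab
      rw [hB'd, abs_one]
      exact hμ1
    · by_cases hb : b = a + 1
      · subst hb
        rw [hB's]
        exact le_max_right _ _
      · exact (hchord a b hab hb).trans (hρ1.trans hμ1)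
  have hμK : μ ^ (k + 1) ≤ max 1 |M| := by
    rcases le_total 1 β with h | h
    · have h1 : μ = β := max_eq_right h
      rw [h1]
      calc β ^ (k + 1) ≤ β ^ (k + 2) := pow_le_pow_right₀ h (by omega)
        _ = |M| := hβK
        _ ≤ max 1 |M| := le_max_right _ _
    · have h1 : μ = 1 := max_eq_left h
      rw [h1, one_pow]
      exact le_max_left _ _
  -- the determinant
  have hdet : |B'.det - 1| ≤ ε / 4 := by
    have h := hB'm (k + 2) id injective_id
    rw [Matrix.submatrix_id_id] at h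
    exact h.trans (min_le_right _ _)
  let s : Equiv.Perm (Fin (k + 2)) := Equiv.subRight (1 : Fin (k + 2))
  have hs1 : s ≠ 1 := by
    intro h
    have h1 : (0 : Fin (k + 2)) - 1 = 0 := by
      have := Equiv.congr_fun h (0 : Fin (k + 2))
      exact this
    have h2 : (1 : Fin (k + 2)) = 0 := (sub_eq_zero.mp h1).symm
    exact one_ne_zero h2
  let T : Equiv.Perm (Fin (k + 2)) → ℝ := fun σ => Equiv.Perm.sign σ • ∏ i, B' (σ i) i
  have hTabs : ∀ σ, |T σ| = ∏ i, |B' (σ i) i| := by
    intro σ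
    show |Equiv.Perm.sign σ • ∏ i, B' (σ i) i| = _
    rw [← Finset.abs_prod]
    rcases Int.units_eq_one_or (Equiv.Perm.sign σ) with h | h
    · rw [h, one_smul]
    · rw [h, Units.neg_smul, one_smul, abs_neg]
  have hT1 : T 1 = 1 := by
    show Equiv.Perm.sign (1 : Equiv.Perm (Fin (k + 2))) •
      ∏ i, B' ((1 : Equiv.Perm (Fin (k + 2))) i) i = 1
    rw [Equiv.Perm.sign_one, one_smul]
    exact Finset.prod_eq_one fun i _ => hB'd i
  have hTs : |T s| = |M| := by
    rw [hTabs, ← Finset.abs_prod]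
    congr 1
    rw [← hB'M]
    have h1 := Equiv.prod_comp (Equiv.addRight (1 : Fin (k + 2))) (fun i => B' (s i) i)
    rw [← h1]
    refine Finset.prod_congr rfl fun i _ => ?_
    show B' (i + 1 - 1) (i + 1) = B' i (i + 1)
    rw [add_sub_cancel_right]
  have hTo : ∀ σ, σ ≠ 1 → σ ≠ s → |T σ| ≤ ρ * max 1 |M| := by
    intro σ h1 h2
    obtain ⟨i, hi1, hi2⟩ := F4_perm σ h1 h2
    rw [hTabs, ← Finset.mul_prod_erase univ _ (mem_univ i)]
    have h3 : |B' (σ i) i| ≤ ρ := by
      refine hchord _ _ hi1 ?_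
      intro h
      apply hi2
      rw [eq_sub_iff_add_eq]
      exact h.symm
    have h4 : ∏ l ∈ univ.erase i, |B' (σ l) l| ≤ μ ^ (k + 1) := by
      calc ∏ l ∈ univ.erase i, |B' (σ l) l| ≤ ∏ _l ∈ univ.erase i, μ :=
            Finset.prod_le_prod (fun l _ => abs_nonneg _) fun l _ => hent _ _
        _ = μ ^ (k + 1) := by
            rw [Finset.prod_const, Finset.card_erase_of_mem (mem_univ i), Finset.card_univ,
              Fintype.card_fin]
            rfl
    exact mul_le_mul h3 (h4.trans hμK) (Finset.prod_nonneg fun l _ => abs_nonneg _) hρ.le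
  have hsum : B'.det = T 1 + (T s + ∑ σ ∈ (univ.erase 1).erase s, T σ) := by
    rw [Matrix.det_apply]
    rw [Finset.add_sum_erase _ _ (Finset.mem_erase.mpr ⟨hs1, mem_univ s⟩),
      Finset.add_sum_erase _ _ (mem_univ _)]
  have hrest : |∑ σ ∈ (univ.erase 1).erase s, T σ| ≤
      ((k + 2).factorial : ℝ) * (ρ * max 1 |M|) := by
    calc |∑ σ ∈ (univ.erase 1).erase s, T σ| ≤ ∑ σ ∈ (univ.erase 1).erase s, |T σ| :=
          Finset.abs_sum_le_sum_abs _ _
      _ ≤ ∑ _σ ∈ (univ.erase 1).erase s, ρ * max 1 |M| := by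
          refine Finset.sum_le_sum fun σ hσ => ?_
          rw [Finset.mem_erase, Finset.mem_erase] at hσ
          exact hTo σ hσ.2.1 hσ.1
      _ ≤ ∑ _σ : Equiv.Perm (Fin (k + 2)), ρ * max 1 |M| := by
          refine Finset.sum_le_sum_of_subset_of_nonneg (Finset.subset_univ _) fun _ _ _ => ?_
          positivity
      _ = ((k + 2).factorial : ℝ) * (ρ * max 1 |M|) := by
          rw [Finset.sum_const, Finset.card_univ, Fintype.card_perm, Fintype.card_fin,
            nsmul_eq_mul]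
  have hfin : |M| ≤ ε / 4 + ε / 4 * max 1 |M| := by
    rw [← hTs]
    have h1 : T s = (B'.det - 1) - ∑ σ ∈ (univ.erase 1).erase s, T σ := by
      rw [hsum, hT1]
      ring
    rw [h1]
    refine (abs_sub _ _).trans ?_
    refine add_le_add hdet (hrest.trans ?_)
    rw [← mul_assoc]
    rw [← h1, hTs]
    exact mul_le_mul_of_nonneg_right hρF (le_trans zero_le_one (le_max_left _ _))
  rcases le_total 1 |M| with h | h
  · rw [max_eq_right h] at hfin
    nlinarith
  · rw [max_eq_left h] at hfin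
    nlinarith

end F4sec

/-- cycle lemma. -/
theorem cycle_lemma (k : ℕ) : ∀ ε : ℝ, 0 < ε → ∃ η : ℝ, 0 < η ∧
    ∀ B : Matrix (Fin (k + 2)) (Fin (k + 2)) ℝ, (∀ i, B i i = 1) →
      (∀ (j : ℕ) (f : Fin j → Fin (k + 2)), Injective f → |(B.submatrix f f).det - 1| ≤ η) →
      |∏ a, B a (a + 1)| ≤ ε :=
  F4_main k

end KS39
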