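import Pool.Agent.LibKS39.E0
import Pool.Agent.LibKS39.F1
import Pool.Agent.LibKS39.F2
import Pool.Agent.LibKS39.F4
import Pool.Agent.LibKS39.Defs

open Finset Function
open scoped Classical

namespace KS39

theorem F5_exists_min (m : ℕ) (θ : ℝ) (hθ : 0 < θ) : ∃ η : ℝ, 0 < η ∧ ∀ k, k < m →
    ∀ B : Matrix (Fin (k + 2)) (Fin (k + 2)) ℝ, (∀ i, B i i = 1) →
      (∀ (j : ℕ) (f : Fin j → Fin (k + 2)), Injective f → |(B.submatrix f f).det - 1| ≤ η) →
      |∏ a, B a (a + 1)| ≤ θ := by
  induction m with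
  | zero => exact ⟨1, one_pos, fun k hk => absurd hk (Nat.not_lt_zero k)⟩
  | succ m ih =>
    obtain ⟨η₁, h₁, h₁'⟩ := ih
    obtain ⟨η₂, h₂, h₂'⟩ := cycle_lemma m θ hθ
    refine ⟨min η₁ η₂, lt_min h₁ h₂, ?_⟩
    intro k hk B hB hf
    rcases Nat.lt_succ_iff_lt_or_eq.1 hk with hk | hk
    · exact h₁' k hk B hB (fun j f hj => le_trans (hf j f hj) (min_le_left _ _))
    · subst hk
      exact h₂' B hB (fun j f hj => le_trans (hf j f hj) (min_le_right _ _))

theorem F5_exists_L (N : ℕ) (η : ℝ) (hη : 0 < η) : ∃ L : ℕ, 2 ≤ L ∧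
    (1 + 1 / (L : ℝ)) ^ N ≤ 1 + η ∧ 1 - η ≤ (1 - 1 / (L : ℝ)) ^ N := by
  have h0 : Filter.Tendsto (fun L : ℕ => 1 / (L : ℝ)) Filter.atTop (nhds 0) :=
    tendsto_one_div_atTop_nhds_zero_nat
  have h1 : Filter.Tendsto (fun L : ℕ => (1 + 1 / (L : ℝ)) ^ N) Filter.atTop (nhds 1) := by
    have := (h0.const_add 1).pow N
    simpa using this
  have h2 : Filter.Tendsto (fun L : ℕ => (1 - 1 / (L : ℝ)) ^ N) Filter.atTop (nhds 1) := by
    have := (h0.const_sub 1).pow N
    simpa using this
  have e1 := h1.eventually (gt_mem_nhds (show (1 : ℝ) < 1 + η by linarith))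
  have e2 := h2.eventually (lt_mem_nhds (show (1 - η : ℝ) < 1 by linarith))
  obtain ⟨L, hL1, hL2, hL3⟩ := (e1.and (e2.and (Filter.eventually_ge_atTop 2))).exists
  exact ⟨L, hL3, hL1.le, hL2.le⟩

/-- structure of nice tuples: positive diagonal, small cycle products. -/
theorem nice_struct (m : ℕ) (θ : ℝ) (hθ : 0 < θ) : ∃ L : ℕ, 1 ≤ L ∧
    ∀ (V : Type) (x : V → Fin m → ℝ), GP x → ∀ (q : V → V) (v : Fin m → V),
      Nice x q (1 / L) v →
      (∀ i, 0 < coef x (fun l => q (v l)) (v i) i) ∧
      ∀ (k : ℕ) (f : Fin (k + 2) → Fin m), Injective f →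
        ∏ a, (|coef x (fun l => q (v l)) (v (f a)) (f (a + 1))| /
          coef x (fun l => q (v l)) (v (f a)) (f a)) ≤ θ := by
  obtain ⟨η', hη', hcyc⟩ := F5_exists_min m θ hθ
  obtain ⟨L, hL2, hLu, hLl⟩ := F5_exists_L (m * m) η' hη'
  refine ⟨L, by omega, ?_⟩
  intro V x hGP q v hN
  have hLR : (2 : ℝ) ≤ (L : ℝ) := by exact_mod_cast hL2
  have hη0 : (0 : ℝ) ≤ 1 / (L : ℝ) := by positivity
  have hη1 : (1 : ℝ) / (L : ℝ) < 1 := by
    rw [div_lt_one (by linarith)]; linarith
  set Q : Matrix (Fin m) (Fin m) ℝ := fun l => x (q (v l)) with hQ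
  have hDQ : DET Q ≠ 0 := hGP (fun i => q (v i)) hN.basic.injq
  set C : Matrix (Fin m) (Fin m) ℝ := fun i j => coef x (fun l => q (v l)) (v i) j with hC
  have hrow : ∀ i, x (v i) = (C * Q) i := by
    intro i
    have h1 := cramer_rows Q hDQ (x (v i))
    rw [h1]
    funext j
    rw [Matrix.mul_apply, Finset.sum_apply]
    exact Finset.sum_congr rfl (fun l _ => rfl)
  have hQdet : Q.det = DET Q := rfl
  set p : Finset (Fin m) → ℝ := fun I =>
    (C.submatrix (fun a : {a // a ∈ I} => (a : Fin m))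
      (fun a : {a // a ∈ I} => (a : Fin m))).det with hp
  have hDD : ∀ I, DD x q v I = p I * DET Q := by
    intro I
    have h1 := det_mix Q C I
    rw [hQdet] at h1
    rw [hp]
    dsimp only
    rw [← h1]
    unfold DD
    congr 1
    funext l
    unfold mix
    by_cases hl : l ∈ I
    · rw [if_pos hl, if_pos hl, hrow l]
    · rw [if_neg hl, if_neg hl]
  have hsq : 0 < DET Q * DET Q := mul_self_pos.2 hDQ
  have hp0 : p ∅ = 1 := by
    rw [hp]
    exact Matrix.det_isEmpty
  have hpos : ∀ I i, i ∉ I → 0 < p I * p (insert i I) := by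
    intro I i hi
    have h1 : 0 < DD x q v I * DD x q v (insert i I) := hN.sign I i hi
    rw [hDD, hDD] at h1
    have h2 : p I * DET Q * (p (insert i I) * DET Q) =
        (p I * p (insert i I)) * (DET Q * DET Q) := by ring
    rw [h2] at h1
    exact (mul_pos_iff_of_pos_right hsq).1 h1
  have hr : ∀ I i j, i ≠ j → i ∉ I → j ∉ I →
      |p I * p (insert i (insert j I)) - p (insert i I) * p (insert j I)| ≤
        (1 / (L : ℝ)) * |p (insert i I) * p (insert j I)| := by
    intro I i j hij hi hj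
    have h1 : |DD x q v I * DD x q v (insert i (insert j I)) -
        DD x q v (insert i I) * DD x q v (insert j I)|
        ≤ (1 / (L : ℝ)) * |DD x q v (insert i I) * DD x q v (insert j I)| :=
      hN.ratio I i j hij hi hj
    rw [hDD, hDD, hDD, hDD] at h1
    have h2 : p I * DET Q * (p (insert i (insert j I)) * DET Q) -
        p (insert i I) * DET Q * (p (insert j I) * DET Q) =
        (p I * p (insert i (insert j I)) - p (insert i I) * p (insert j I)) *
          (DET Q * DET Q) := by ring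
    have h3 : p (insert i I) * DET Q * (p (insert j I) * DET Q) =
        (p (insert i I) * p (insert j I)) * (DET Q * DET Q) := by ring
    rw [h2, h3, abs_mul, abs_mul (p (insert i I) * p (insert j I)), abs_of_pos hsq] at h1
    refine le_of_mul_le_mul_right (le_trans h1 (le_of_eq ?_)) hsq
    ring
  have hmin := minors p (1 / (L : ℝ)) hη0 hη1 hp0 hpos hr
  have hpi : ∀ i, p {i} = C i i := by
    intro i
    have h1 := hDD {i}
    have h2 : DD x q v {i} = DET (update (fun l => x (q (v l))) i (x (v i))) := by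
      unfold DD
      congr 1
      funext l
      unfold mix
      by_cases hl : l = i
      · subst hl
        rw [if_pos (Finset.mem_singleton_self _), update_self]
      · rw [if_neg (fun h => hl (Finset.mem_singleton.1 h)), update_of_ne hl]
    have h3 : C i i = DET (update (fun l => x (q (v l))) i (x (v i))) /
        DET (fun l => x (q (v l))) := rfl
    rw [h3, ← h2, h1]
    exact (mul_div_cancel_right₀ _ hDQ).symm
  have hCpos : ∀ i, 0 < C i i := fun i => by rw [← hpi i]; exact (hmin {i}).1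
  refine ⟨hCpos, ?_⟩
  intro k f hf
  have hkm : k < m := by
    have := Fintype.card_le_of_injective f hf
    rw [Fintype.card_fin, Fintype.card_fin] at this
    omega
  have key := hcyc k hkm (fun a b => (C (f a) (f a))⁻¹ * C (f a) (f b))
    (fun i => inv_mul_cancel₀ (hCpos (f i)).ne') ?_
  · rw [Finset.abs_prod] at key
    refine le_trans (le_of_eq ?_) key
    refine Finset.prod_congr rfl (fun a _ => ?_)
    rw [abs_mul, abs_inv, abs_of_pos (hCpos (f a)), mul_comm, div_eq_mul_inv]
  · intro j g hg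
    have hinj : Injective (fun a => f (g a)) := hf.comp hg
    set I : Finset (Fin m) := Finset.univ.image (fun a => f (g a)) with hI
    have hmem : ∀ a, f (g a) ∈ I := fun a => Finset.mem_image_of_mem _ (Finset.mem_univ a)
    let e : Fin j ≃ {a // a ∈ I} := Equiv.ofBijective (fun a => ⟨f (g a), hmem a⟩) (by
      constructor
      · intro a b hab
        exact hinj (congrArg Subtype.val hab)
      · rintro ⟨b, hb⟩
        obtain ⟨a, _, ha⟩ := Finset.mem_image.1 hb
        exact ⟨a, Subtype.ext ha⟩)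
    have hdet1 : (C.submatrix (fun a => f (g a)) (fun a => f (g a))).det = p I := by
      rw [hp]
      dsimp only
      rw [← Matrix.det_submatrix_equiv_self e]
      rfl
    have hdet2 : ((Matrix.submatrix (fun a b => (C (f a) (f a))⁻¹ * C (f a) (f b)) g g :
        Matrix (Fin j) (Fin j) ℝ)).det = (∏ a, (C (f (g a)) (f (g a)))⁻¹) * p I := by
      rw [← hdet1, ← Matrix.det_mul_column]
      rfl
    have hprod : ∏ i ∈ I, p {i} = ∏ a, C (f (g a)) (f (g a)) := by
      rw [hI, Finset.prod_image (fun a _ b _ hab => hinj hab)]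
      exact Finset.prod_congr rfl (fun a _ => hpi _)
    have hPpos : 0 < ∏ a, C (f (g a)) (f (g a)) := Finset.prod_pos (fun a _ => hCpos _)
    obtain ⟨_, hlow, hup⟩ := hmin I
    rw [hprod] at hlow hup
    have hval : ((Matrix.submatrix (fun a b => (C (f a) (f a))⁻¹ * C (f a) (f b)) g g :
        Matrix (Fin j) (Fin j) ℝ)).det = p I / ∏ a, C (f (g a)) (f (g a)) := by
      rw [hdet2, Finset.prod_inv_distrib, mul_comm, div_eq_mul_inv]
    have hb1 : p I / ∏ a, C (f (g a)) (f (g a)) ≤ 1 + η' := by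
      rw [div_le_iff₀ hPpos]
      exact le_trans hup (mul_le_mul_of_nonneg_right hLu hPpos.le)
    have hb2 : 1 - η' ≤ p I / ∏ a, C (f (g a)) (f (g a)) := by
      rw [le_div_iff₀ hPpos]
      exact le_trans (mul_le_mul_of_nonneg_right hLl hPpos.le) hlow
    rw [hval, abs_le]
    constructor <;> linarith

end KS39
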