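import Pool.Agent.LibKS39.Defs

open Finset Function
open scoped Classical

namespace KS39

/-- sorted enumeration of a finite set, padded. -/
theorem G1_enum {V : Type} (X : Finset V) (a : V → ℝ) (hN : 1 ≤ X.card) :
    ∃ (E : ℕ → V) (R : V → ℕ), Monotone (fun p => a (E p)) ∧ (∀ p, E p ∈ X) ∧
      (∀ y ∈ X, E (R y) = y) ∧ (∀ y ∈ X, R y < X.card) ∧
      (∀ p, p < X.card → R (E p) = p) := by
  have f : Fin X.card ≃ X := X.equivFin.symm
  let g : Fin X.card → ℝ := fun i => a (f i)
  let s := Tuple.sort g
  have hs : Monotone (g ∘ s) := Tuple.monotone_sort g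
  let e : Fin X.card ≃ X := s.trans f
  have he : Monotone (fun i => a (e i)) := hs
  have hlt : ∀ p : ℕ, min p (X.card - 1) < X.card := by intro p; omega
  refine ⟨fun p => (e ⟨min p (X.card - 1), hlt p⟩ : V),
    fun y => if h : y ∈ X then (e.symm ⟨y, h⟩ : ℕ) else 0, ?_, ?_, ?_, ?_, ?_⟩
  · intro p p' hp
    apply he
    simp only [Fin.mk_le_mk]
    omega
  · intro p
    exact (e _).2
  · intro y hy
    have h1 : ((e.symm ⟨y, hy⟩ : Fin X.card) : ℕ) < X.card := (e.symm ⟨y, hy⟩).2
    have h2 : (⟨min ((e.symm ⟨y, hy⟩ : Fin X.card) : ℕ) (X.card - 1), hlt _⟩ : Fin X.card)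
        = e.symm ⟨y, hy⟩ := by
      apply Fin.ext
      show min _ _ = _
      omega
    simp only [hy, dif_pos, h2, Equiv.apply_symm_apply]
  · intro y hy
    simp only [hy, dif_pos]
    exact (e.symm ⟨y, hy⟩).2
  · intro p hp
    have h2 : (⟨min p (X.card - 1), hlt _⟩ : Fin X.card) = ⟨p, hp⟩ := by
      apply Fin.ext
      show min p (X.card - 1) = p
      omega
    simp only [h2]
    rw [dif_pos (e ⟨p, hp⟩).2]
    simp

/-- rounding a function up to few values, with an injective partial shift. -/
theorem rounding {V : Type} (X : Finset V) (a : V → ℝ) (K : ℕ) (hK : 1 ≤ K) :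
    ∃ abar : V → ℝ, (∀ y ∈ X, a y ≤ abar y) ∧ (X.image abar).card ≤ 2 * K ∧
      ∃ (Y : Finset V) (σ : V → V), Y ⊆ X ∧ Set.InjOn σ (Y : Set V) ∧ (∀ y ∈ Y, σ y ∈ X) ∧
        (X \ Y).card * K ≤ X.card ∧ ∀ y ∈ Y, abar y ≤ a (σ y) := by
  by_cases hNK : X.card < K
  · refine ⟨a, fun y _ => le_refl _, ?_, X, id, Subset.refl _, ?_, fun y hy => hy, ?_,
      fun y _ => le_refl _⟩
    · exact (card_image_le).trans (by omega)
    · exact Set.injOn_id _
    · simp
  · push Not at hNK
    obtain ⟨E, R, hmono, hEX, hER, hRlt, hRE⟩ := G1_enum X a (by omega)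
    set N := X.card with hN
    set t := N / K with ht
    have ht1 : 1 ≤ t := (Nat.one_le_div_iff (by omega)).2 hNK
    have htK : t * K ≤ N := Nat.div_mul_le_self N K
    have hNt : N < (t + 1) * K := by
      exact Nat.lt_mul_of_div_lt (Nat.lt_succ_self _) (by omega)
    have hdm : ∀ r : ℕ, r / t * t ≤ r ∧ r < (r / t + 1) * t := by
      intro r
      refine ⟨Nat.div_mul_le_self r t, ?_⟩
      exact Nat.lt_mul_of_div_lt (Nat.lt_succ_self _) (by omega)
    refine ⟨fun y => a (E ((R y / t + 1) * t - 1)), ?_, ?_, X.filter (fun y => R y + t < N),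
      fun y => E (R y + t), filter_subset _ _, ?_, ?_, ?_, ?_⟩
    · intro y hy
      have h1 := (hdm (R y)).2
      have h2 : R y ≤ (R y / t + 1) * t - 1 := by omega
      have h3 := hmono h2
      simp only [hER y hy] at h3
      exact h3
    · have hsub : X.image (fun y => a (E ((R y / t + 1) * t - 1)))
          ⊆ (range (2 * K)).image (fun k => a (E ((k + 1) * t - 1))) := by
        intro z hz
        rw [mem_image] at hz ⊢
        obtain ⟨y, hy, rfl⟩ := hz
        refine ⟨R y / t, ?_, rfl⟩
        rw [mem_range]
        apply Nat.div_lt_of_lt_mul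
        have h1 := hRlt y hy
        nlinarith
      calc _ ≤ ((range (2 * K)).image (fun k => a (E ((k + 1) * t - 1)))).card :=
            card_le_card hsub
        _ ≤ (range (2 * K)).card := card_image_le
        _ = 2 * K := card_range _
    · intro y hy y' hy' h
      simp only [coe_filter, Set.mem_ofPred_eq] at hy hy'
      have h1 := hRE (R y + t) hy.2
      have h2 := hRE (R y' + t) hy'.2
      simp only at h
      rw [h] at h1
      have h3 : R y = R y' := by omega
      rw [← hER y hy.1, ← hER y' hy'.1, h3]
    · intro y _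
      exact hEX _
    · have hcard : (X \ X.filter (fun y => R y + t < N)).card ≤ t := by
        have : (X \ X.filter (fun y => R y + t < N)).card ≤ (Finset.Ico (N - t) N).card := by
          apply card_le_card_of_injOn R
          · intro y hy
            simp only [coe_sdiff, coe_filter, Set.mem_sdiff, mem_coe, Set.mem_ofPred_eq,
              not_and] at hy
            have h1 := hRlt y hy.1
            have h2 := hy.2 hy.1
            simp only [coe_Ico, Set.mem_Ico]
            omega
          · intro y hy y' hy' h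
            simp only [coe_sdiff, coe_filter, Set.mem_sdiff, mem_coe, Set.mem_ofPred_eq,
              not_and] at hy hy'
            rw [← hER y hy.1, ← hER y' hy'.1, h]
        refine this.trans ?_
        rw [Nat.card_Ico]
        omega
      calc _ ≤ t * K := Nat.mul_le_mul_right _ hcard
        _ ≤ N := htK
    · intro y hy
      have h1 := (hdm (R y)).1
      apply hmono
      have h2 : (R y / t + 1) * t = R y / t * t + t := by ring
      omega

end KS39
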