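import Pool.Agent.LibKS39.Defs

open Finset Function
open scoped Classical

namespace KS39

/-- weight of a list of vertices (the head is the end point of the path) -/
noncomputable def G2_wt {m : ℕ} (B : Fin m → Fin m → ℝ) : List (Fin m) → ℝ
  | [] => 1
  | [_] => 1
  | j :: i :: l => B i j * G2_wt B (i :: l)

theorem G2_wt_pos {m : ℕ} {B : Fin m → Fin m → ℝ} (hpos : ∀ i j, i ≠ j → 0 < B i j) :
    ∀ l : List (Fin m), l.Nodup → 0 < G2_wt B l
  | [], _ => by simp [G2_wt]
  | [_], _ => by simp [G2_wt]
  | j :: i :: l, h => by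
    rw [G2_wt]
    have h' := List.nodup_cons.mp h
    apply mul_pos
    · apply hpos
      intro e
      subst e
      exact h'.1 (by simp)
    · exact G2_wt_pos hpos (i :: l) h'.2

theorem G2_wt_append {m : ℕ} (B : Fin m → Fin m → ℝ) (j : Fin m) (l2 : List (Fin m)) :
    ∀ l1 : List (Fin m), G2_wt B (l1 ++ j :: l2) = G2_wt B (l1 ++ [j]) * G2_wt B (j :: l2)
  | [] => by simp [G2_wt]
  | [a] => by
    show G2_wt B (a :: j :: l2) = G2_wt B (a :: j :: []) * _
    rw [G2_wt, G2_wt]
    simp [G2_wt]
  | a :: b :: l => by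
    have ih := G2_wt_append B j l2 (b :: l)
    have e1 : a :: b :: l ++ j :: l2 = a :: b :: (l ++ j :: l2) := rfl
    have e2 : a :: b :: l ++ [j] = a :: b :: (l ++ [j]) := rfl
    have e3 : b :: l ++ j :: l2 = b :: (l ++ j :: l2) := rfl
    have e4 : b :: l ++ [j] = b :: (l ++ [j]) := rfl
    rw [e3, e4] at ih
    rw [e1, e2, G2_wt, G2_wt, ih]
    ring

theorem G2_wt_ofFn {m : ℕ} (B : Fin m → Fin m → ℝ) : ∀ (k : ℕ) (g : Fin (k + 1) → Fin m),
    G2_wt B (List.ofFn g) = ∏ b : Fin k, B (g b.succ) (g b.castSucc)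
  | 0, g => by
    simp [List.ofFn_succ, G2_wt]
  | k + 1, g => by
    have ih := G2_wt_ofFn B k (fun b => g b.succ)
    rw [List.ofFn_succ] at ih
    rw [List.ofFn_succ, List.ofFn_succ, G2_wt, Fin.prod_univ_succ]
    congr 1

theorem G2_cycle {m : ℕ} (B : Fin m → Fin m → ℝ)
    (hcyc : ∀ (k : ℕ) (f : Fin (k + 2) → Fin m), Injective f → ∏ a, B (f a) (f (a + 1)) ≤ 1)
    (k : ℕ) (g : Fin (k + 2) → Fin m) (hg : Injective g) :
    B (g 0) (g (Fin.last (k + 1))) * G2_wt B (List.ofFn g) ≤ 1 := by
  have h := hcyc k (fun a => g (-a)) (fun a b hab => neg_injective (hg hab))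
  refine le_trans (le_of_eq ?_) h
  rw [G2_wt_ofFn]
  have e : ∏ a : Fin (k + 2), B (g (-a)) (g (-(a + 1))) = ∏ b : Fin (k + 2), B (g (b + 1)) (g b) := by
    apply Fintype.prod_equiv ((Equiv.addRight (1 : Fin (k + 2))).trans (Equiv.neg _))
    intro a
    simp only [Equiv.trans_apply, Equiv.coe_addRight, Equiv.neg_apply]
    congr 2
    abel
  rw [e]
  conv_rhs => rw [Fin.prod_univ_castSucc]
  rw [mul_comm]
  congr 1
  · apply Finset.prod_congr rfl
    intro b _
    rw [Fin.coeSucc_eq_succ]
  · rw [Fin.last_add_one]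

theorem G2_list_ofFn {α : Type*} {n : ℕ} (c : List α) (h : c.length = n) :
    ∃ g : Fin n → α, List.ofFn g = c := by
  subst h
  exact ⟨c.get, List.ofFn_get c⟩

/-- nodup lists with head `j` and last element `i0` -/
noncomputable def G2_L {m : ℕ} (i0 j : Fin m) : Finset {l : List (Fin m) // l.Nodup} :=
  univ.filter (fun l => l.1.head? = some j ∧ l.1.getLast? = some i0)

theorem G2_L_nonempty {m : ℕ} (i0 j : Fin m) : (G2_L i0 j).Nonempty := by
  by_cases h : j = i0
  · subst h
    refine ⟨⟨[j], by simp⟩, ?_⟩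
    simp [G2_L]
  · refine ⟨⟨[j, i0], by simp [h]⟩, ?_⟩
    simp [G2_L]

theorem G2_opt {m : ℕ} (B : Fin m → Fin m → ℝ) (i0 j : Fin m) :
    ∃ l : List (Fin m), l.Nodup ∧ l.head? = some j ∧ l.getLast? = some i0 ∧
      (∀ l' : List (Fin m), l'.Nodup → l'.head? = some j → l'.getLast? = some i0 →
        G2_wt B l' ≤ G2_wt B l) ∧
      (∀ l' : List (Fin m), l'.Nodup → l'.head? = some j → l'.getLast? = some i0 →
        G2_wt B l' = G2_wt B l → l.length ≤ l'.length) := by
  obtain ⟨l0, hl0, hmax⟩ := Finset.exists_max_image (G2_L i0 j) (fun l => G2_wt B l.1)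
    (G2_L_nonempty i0 j)
  obtain ⟨l, hl, hmin⟩ := Finset.exists_min_image
    ((G2_L i0 j).filter (fun l => G2_wt B l.1 = G2_wt B l0.1)) (fun l => l.1.length)
    ⟨l0, by rw [Finset.mem_filter]; exact ⟨hl0, rfl⟩⟩
  rw [Finset.mem_filter] at hl
  have hlL := hl.1
  unfold G2_L at hlL
  rw [Finset.mem_filter] at hlL
  refine ⟨l.1, l.2, hlL.2.1, hlL.2.2, ?_, ?_⟩
  · intro l' h1 h2 h3
    rw [hl.2]
    exact hmax ⟨l', h1⟩ (by unfold G2_L; rw [Finset.mem_filter]; exact ⟨Finset.mem_univ _, h2, h3⟩)
  · intro l' h1 h2 h3 h4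
    apply hmin ⟨l', h1⟩
    rw [Finset.mem_filter]
    refine ⟨?_, by rw [h4, hl.2]⟩
    unfold G2_L
    rw [Finset.mem_filter]
    exact ⟨Finset.mem_univ _, h2, h3⟩

theorem G2_head {α : Type*} {l : List α} {j : α} (h : l.head? = some j) : ∃ r, l = j :: r := by
  cases l with
  | nil => simp at h
  | cons a r =>
    simp at h
    exact ⟨r, by rw [h]⟩

/-- potentials from small cycle products. -/
theorem potential {m : ℕ} (i0 : Fin m) (B : Fin m → Fin m → ℝ) (hpos : ∀ i j, i ≠ j → 0 < B i j)
    (hcyc : ∀ (k : ℕ) (f : Fin (k + 2) → Fin m), Injective f → ∏ a, B (f a) (f (a + 1)) ≤ 1) :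
    ∃ (g : Fin m → ℝ) (p : Fin m → Fin m) (dep : Fin m → ℕ), g i0 = 1 ∧ (∀ i, 0 < g i) ∧
      (∀ i j, i ≠ j → g i * B i j ≤ g j) ∧
      ∀ j, j ≠ i0 → p j ≠ j ∧ dep (p j) < dep j ∧ g j = g (p j) * B (p j) j := by
  choose L hnd hhd hlast hmax hmin using G2_opt B i0
  have hgen : ∀ i j, i ≠ j → G2_wt B (L i) * B i j ≤ G2_wt B (L j) := by
    intro i j hij
    obtain ⟨r, hr⟩ := G2_head (hhd i)
    by_cases hj : j ∈ L i
    · obtain ⟨l1, l2, h12⟩ := List.append_of_mem hj
      have hl1 : l1 ≠ [] := by
        intro h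
        rw [h, List.nil_append] at h12
        rw [h12] at hr
        have := (List.cons.inj hr).1
        exact hij this.symm
      rw [h12, G2_wt_append]
      -- the cycle
      have hnd' : (l1 ++ [j]).Nodup := by
        have h := hnd i
        rw [h12] at h
        have e : l1 ++ j :: l2 = (l1 ++ [j]) ++ l2 := by simp
        rw [e] at h
        exact (List.nodup_append.mp h).1
      have hlen : (l1 ++ [j]).length = (l1.length - 1) + 2 := by
        have : 0 < l1.length := List.length_pos_of_ne_nil hl1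
        rw [List.length_append, List.length_singleton]; omega
      obtain ⟨gg, hgg⟩ := G2_list_ofFn (l1 ++ [j]) hlen
      have hinj : Injective gg := by
        rw [← List.nodup_ofFn, hgg]; exact hnd'
      have hc := G2_cycle B hcyc _ gg hinj
      have h0 : gg 0 = i := by
        have h1 : (List.ofFn gg).head? = some i := by
          rw [hgg]
          have : (l1 ++ j :: l2).head? = some i := by rw [← h12]; exact hhd i
          cases l1 with
          | nil => exact absurd rfl hl1
          | cons a t => simpa using this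
        rw [List.ofFn_succ] at h1
        simpa using h1
      have hL : gg (Fin.last _) = j := by
        have h1 : (List.ofFn gg).getLast? = some j := by
          rw [hgg]; simp
        rw [List.getLast?_eq_getElem?, List.length_ofFn, List.getElem?_ofFn] at h1
        have hlt : l1.length - 1 + 2 - 1 < l1.length - 1 + 2 := by omega
        rw [dif_pos hlt] at h1
        have h2 := Option.some.inj h1
        exact h2
      rw [h0, hL, hgg] at hc
      -- the tail is a list for j
      have hnd2 : (j :: l2).Nodup := by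
        have h := hnd i
        rw [h12] at h
        exact (List.nodup_append.mp h).2.1
      have hlast2 : (j :: l2).getLast? = some i0 := by
        have h := hlast i
        rw [h12, List.getLast?_append] at h
        cases hh : (j :: l2).getLast? with
        | none => simp at hh
        | some z => rw [hh] at h; simpa using h
      have h3 := hmax j (j :: l2) hnd2 rfl hlast2
      have h4 := G2_wt_pos hpos (j :: l2) hnd2
      calc G2_wt B (l1 ++ [j]) * G2_wt B (j :: l2) * B i j
          = (B i j * G2_wt B (l1 ++ [j])) * G2_wt B (j :: l2) := by ring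
        _ ≤ 1 * G2_wt B (j :: l2) := mul_le_mul_of_nonneg_right hc h4.le
        _ = G2_wt B (j :: l2) := one_mul _
        _ ≤ _ := h3
    · have h1 : (j :: L i).Nodup := List.nodup_cons.mpr ⟨hj, hnd i⟩
      have h2 : (j :: L i).getLast? = some i0 := by
        rw [hr, List.getLast?_cons_cons, ← hr]; exact hlast i
      have h3 := hmax j (j :: L i) h1 rfl h2
      rw [hr, G2_wt, ← hr] at h3
      linarith
  refine ⟨fun j => G2_wt B (L j), fun j => (L j).tail.headD j, fun j => (L j).length, ?_, ?_, hgen, ?_⟩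
  · obtain ⟨r, hr⟩ := G2_head (hhd i0)
    have hr0 : r = [] := by
      by_contra h
      have h1 := hlast i0
      rw [hr] at h1
      obtain ⟨a, t, rfl⟩ := List.exists_cons_of_ne_nil h
      rw [List.getLast?_cons_cons] at h1
      have h2 : i0 ∈ a :: t := List.mem_of_getLast? h1
      have h3 := hnd i0
      rw [hr] at h3
      exact (List.nodup_cons.mp h3).1 h2
    show G2_wt B (L i0) = 1
    rw [hr, hr0, G2_wt]
  · intro i
    exact G2_wt_pos hpos _ (hnd i)
  · intro j hj
    obtain ⟨r, hr⟩ := G2_head (hhd j)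
    have hrne : r ≠ [] := by
      intro h
      have h1 := hlast j
      rw [hr, h] at h1
      simp at h1
      exact hj h1
    obtain ⟨i, t, rfl⟩ := List.exists_cons_of_ne_nil hrne
    have hp : (L j).tail.headD j = i := by rw [hr]; rfl
    have hnd1 := hnd j
    rw [hr] at hnd1
    have hnd2 := List.nodup_cons.mp hnd1
    have hij : i ≠ j := by
      intro e
      subst e
      exact hnd2.1 (by simp)
    have hl : (i :: t).getLast? = some i0 := by
      have h1 := hlast j
      rw [hr, List.getLast?_cons_cons] at h1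
      exact h1
    have hw : G2_wt B (L j) = B i j * G2_wt B (i :: t) := by
      rw [hr, G2_wt]
    have h1 := hmax i (i :: t) hnd2.2 rfl hl
    have h2 := hgen i j hij
    rw [hw, mul_comm] at h2
    have h3 : G2_wt B (L i) ≤ G2_wt B (i :: t) := le_of_mul_le_mul_left h2 (hpos i j hij)
    have h4 : G2_wt B (i :: t) = G2_wt B (L i) := le_antisymm h1 h3
    have h5 := hmin i (i :: t) hnd2.2 rfl hl h4
    simp only [hp]
    refine ⟨hij, ?_, ?_⟩
    · rw [hr]
      simp only [List.length_cons] at h5 ⊢
      omega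
    · rw [hw, h4, mul_comm]

end KS39
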