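import Pool.Agent.LibKS39.Defs

open Finset Function
open scoped Classical

namespace KS39

/-- `g` is generated by the parent map `p` and the codes `c`. -/
def G3_P {m N : ℕ} (i0 : Fin m) (f : Fin m → Fin m → Fin N → ℝ)
    (pc : (Fin m → Fin m) × ({j : Fin m // j ≠ i0} → Fin N)) (g : Fin m → ℝ) : Prop :=
  ∃ dep : Fin m → ℕ, g i0 = 1 ∧ ∀ (j : Fin m) (hj : j ≠ i0), dep (pc.1 j) < dep j ∧
    g j = g (pc.1 j) * f (pc.1 j) j (pc.2 ⟨j, hj⟩)

theorem G3_unique {m N : ℕ} (i0 : Fin m) (f : Fin m → Fin m → Fin N → ℝ)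
    (pc : (Fin m → Fin m) × ({j : Fin m // j ≠ i0} → Fin N)) (g g' : Fin m → ℝ)
    (h : G3_P i0 f pc g) (h' : G3_P i0 f pc g') : g = g' := by
  obtain ⟨dep, h0, h1⟩ := h
  obtain ⟨dep', h0', h1'⟩ := h'
  have key : ∀ n : ℕ, ∀ j : Fin m, dep j < n → g j = g' j := by
    intro n
    induction n with
    | zero => intro j hj; omega
    | succ n ih =>
      intro j hj
      by_cases hji : j = i0
      · subst hji; rw [h0, h0']
      · rw [(h1 j hji).2, (h1' j hji).2, ih (pc.1 j) (by have := (h1 j hji).1; omega)]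
  funext j
  exact key (dep j + 1) j (Nat.lt_succ_self _)

theorem G3_code (S : Finset ℝ) (N : ℕ) (h : S.card ≤ N) :
    ∃ f : Fin N → ℝ, ∀ b ∈ S, ∃ c, f c = b := by
  refine ⟨fun c => if hc : c.val < S.card then (S.equivFin.symm ⟨c.val, hc⟩ : ℝ) else 0, ?_⟩
  intro b hb
  have hlt : (S.equivFin ⟨b, hb⟩).val < S.card := (S.equivFin ⟨b, hb⟩).isLt
  refine ⟨⟨(S.equivFin ⟨b, hb⟩).val, lt_of_lt_of_le hlt h⟩, ?_⟩
  show (if hc : (S.equivFin ⟨b, hb⟩).val < S.card then (S.equivFin.symm ⟨(S.equivFin ⟨b, hb⟩).val, hc⟩ : ℝ) else 0) = b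
  rw [dif_pos hlt]
  simp

/-- number of potentials. -/
theorem count_potentials {m : ℕ} (i0 : Fin m) (Vals : Fin m → Fin m → Finset ℝ) (N : ℕ)
    (hN : ∀ i j, (Vals i j).card ≤ N) :
    ∃ G : Finset (Fin m → ℝ), G.card ≤ m ^ m * N ^ (m - 1) ∧
      ∀ (g : Fin m → ℝ) (p : Fin m → Fin m) (dep : Fin m → ℕ), g i0 = 1 →
        (∀ j, j ≠ i0 → dep (p j) < dep j ∧ ∃ b ∈ Vals (p j) j, g j = g (p j) * b) → g ∈ G := by
  choose f hf using fun i j => G3_code (Vals i j) N (hN i j)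
  refine ⟨(Finset.univ : Finset ((Fin m → Fin m) × ({j : Fin m // j ≠ i0} → Fin N))).image
    (fun pc => if h : ∃ g, G3_P i0 f pc g then Classical.choose h else 0), ?_, ?_⟩
  · refine le_trans Finset.card_image_le ?_
    rw [Finset.card_univ, Fintype.card_prod, Fintype.card_fun, Fintype.card_fun]
    simp only [Fintype.card_fin]
    have h1 : Fintype.card {j : Fin m // j ≠ i0} = m - 1 := by
      rw [Fintype.card_subtype_compl, Fintype.card_fin, Fintype.card_subtype_eq]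
    rw [h1]
  · intro g p dep h0 hg
    have hb : ∀ (j : {j : Fin m // j ≠ i0}), ∃ c : Fin N, g j = g (p j) * f (p j) j c := by
      intro j
      obtain ⟨_, b, hb, hgb⟩ := hg j.1 j.2
      obtain ⟨c, hc⟩ := hf (p j) j b hb
      exact ⟨c, by rw [hc]; exact hgb⟩
    choose c hc using hb
    have hP : G3_P i0 f (p, c) g := ⟨dep, h0, fun j hj => ⟨(hg j hj).1, hc ⟨j, hj⟩⟩⟩
    refine Finset.mem_image.2 ⟨(p, c), Finset.mem_univ _, ?_⟩
    have hex : ∃ g, G3_P i0 f (p, c) g := ⟨g, hP⟩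
    rw [dif_pos hex]
    exact G3_unique i0 f (p, c) _ _ (Classical.choose_spec hex) hP

end KS39
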