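import Pool.Agent.LibKS39.Defs

open Finset Function
open scoped Classical

namespace KS39

/-- shift of the coordinates in the range of `f` -/
noncomputable def G4_sh {V : Type} {m k : ℕ} (f : Fin (k + 2) → Fin m) (σ : Fin (k + 2) → V → V)
    (v : Fin m → V) : Fin m → V :=
  fun i => if h : ∃ l, f l = i then σ h.choose (v i) else v i

theorem G4_sh_f {V : Type} {m k : ℕ} {f : Fin (k + 2) → Fin m} (hf : Injective f)
    (σ : Fin (k + 2) → V → V) (v : Fin m → V) (l : Fin (k + 2)) :
    G4_sh f σ v (f l) = σ l (v (f l)) := by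
  unfold G4_sh
  have h : ∃ l', f l' = f l := ⟨l, rfl⟩
  rw [dif_pos h]
  have := hf h.choose_spec
  rw [this]

theorem G4_sh_not {V : Type} {m k : ℕ} {f : Fin (k + 2) → Fin m}
    (σ : Fin (k + 2) → V → V) (v : Fin m → V) (i : Fin m) (h : ¬ ∃ l, f l = i) :
    G4_sh f σ v i = v i := by
  unfold G4_sh
  rw [dif_neg h]

/-- the number of tuples with one coordinate in a small set -/
theorem G4_one {V : Type} {m : ℕ} (X : Fin m → Finset V) (i : Fin m) (S : Finset V) (K : ℕ)
    (h : S.card * K ≤ (X i).card) :
    K * (Fintype.piFinset (update X i S)).card ≤ (Fintype.piFinset X).card := by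
  rw [Fintype.card_piFinset, Fintype.card_piFinset]
  have e1 : ∀ j, ((update X i S) j).card = update (fun j => (X j).card) i S.card j := by
    intro j
    by_cases hj : j = i
    · subst hj; simp
    · simp [update_of_ne hj]
  simp_rw [e1]
  rw [Finset.prod_update_of_mem (Finset.mem_univ i)]
  have e2 : ∏ j, (X j).card = (X i).card * ∏ j ∈ univ \ {i}, (X j).card := by
    rw [← Finset.prod_update_of_mem (Finset.mem_univ i) (fun j => (X j).card) (X i).card]
    simp
  rw [e2]
  calc K * (S.card * ∏ j ∈ univ \ {i}, (X j).card) = (S.card * K) * ∏ j ∈ univ \ {i}, (X j).card := by ring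
    _ ≤ _ := Nat.mul_le_mul_right _ h

/-- replacing the functions on a cycle by their roundings creates few new large products. -/
theorem shift_count {V : Type} {m : ℕ} (X : Fin m → Finset V) (K : ℕ) (k : ℕ)
    (f : Fin (k + 2) → Fin m) (hf : Injective f) (a abar : Fin (k + 2) → V → ℝ)
    (hpos : ∀ l, ∀ y ∈ X (f l), 0 < a l y) (hle : ∀ l, ∀ y ∈ X (f l), a l y ≤ abar l y)
    (Y : Fin (k + 2) → Finset V) (σ : Fin (k + 2) → V → V) (hY : ∀ l, Y l ⊆ X (f l))
    (hσ : ∀ l, Set.InjOn (σ l) (Y l : Set V)) (hσX : ∀ l, ∀ y ∈ Y l, σ l y ∈ X (f l))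
    (hcard : ∀ l, (X (f l) \ Y l).card * K ≤ (X (f l)).card)
    (hab : ∀ l, ∀ y ∈ Y l, abar l y ≤ a l (σ l y)) (θ : ℝ) :
    K * ((Fintype.piFinset X).filter (fun v => θ < ∏ l, abar l (v (f l)))).card ≤
      K * ((Fintype.piFinset X).filter (fun v => θ < ∏ l, a l (v (f l)))).card +
        (k + 2) * (Fintype.piFinset X).card := by
  -- the good part
  have h1 : (((Fintype.piFinset X).filter (fun v => ∀ l, v (f l) ∈ Y l)).filter
      (fun v => θ < ∏ l, abar l (v (f l)))).card ≤
      ((Fintype.piFinset X).filter (fun v => θ < ∏ l, a l (v (f l)))).card := by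
    apply Finset.card_le_card_of_injOn (G4_sh f σ)
    · intro v hv
      have hv' := Finset.mem_coe.mp hv
      rw [Finset.mem_filter, Finset.mem_filter] at hv'
      obtain ⟨⟨hvX, hvY⟩, hθ⟩ := hv'
      rw [Finset.mem_coe, Finset.mem_filter]
      constructor
      · rw [Fintype.mem_piFinset]
        intro i
        by_cases h : ∃ l, f l = i
        · obtain ⟨l, rfl⟩ := h
          rw [G4_sh_f hf]
          exact hσX l _ (hvY l)
        · rw [G4_sh_not σ v i h]
          exact Fintype.mem_piFinset.mp hvX i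
      · refine lt_of_lt_of_le hθ ?_
        apply Finset.prod_le_prod
        · intro l _
          have hx : v (f l) ∈ X (f l) := hY l (hvY l)
          exact le_trans (hpos l _ hx).le (hle l _ hx)
        · intro l _
          rw [G4_sh_f hf]
          exact hab l _ (hvY l)
    · intro v hv w hw hvw
      have hv' := Finset.mem_coe.mp hv
      have hw' := Finset.mem_coe.mp hw
      rw [Finset.mem_filter, Finset.mem_filter] at hv' hw'
      funext i
      have hi := congrFun hvw i
      by_cases h : ∃ l, f l = i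
      · obtain ⟨l, rfl⟩ := h
        rw [G4_sh_f hf, G4_sh_f hf] at hi
        exact hσ l (Finset.mem_coe.mpr (hv'.1.2 l)) (Finset.mem_coe.mpr (hw'.1.2 l)) hi
      · rwa [G4_sh_not σ v i h, G4_sh_not σ w i h] at hi
  -- the bad part
  have h2 : K * ((Fintype.piFinset X).filter (fun v => ¬ ∀ l, v (f l) ∈ Y l)).card ≤
      (k + 2) * (Fintype.piFinset X).card := by
    have hsub : (Fintype.piFinset X).filter (fun v => ¬ ∀ l, v (f l) ∈ Y l) ⊆
        (univ : Finset (Fin (k + 2))).biUnion
          (fun l => Fintype.piFinset (update X (f l) (X (f l) \ Y l))) := by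
      intro v hv
      rw [Finset.mem_filter] at hv
      obtain ⟨hvX, hn⟩ := hv
      push Not at hn
      obtain ⟨l, hl⟩ := hn
      rw [Finset.mem_biUnion]
      refine ⟨l, Finset.mem_univ _, ?_⟩
      rw [Fintype.mem_piFinset]
      intro i
      by_cases hi : i = f l
      · subst hi
        rw [update_self, Finset.mem_sdiff]
        exact ⟨Fintype.mem_piFinset.mp hvX _, hl⟩
      · rw [update_of_ne hi]
        exact Fintype.mem_piFinset.mp hvX i
    calc K * ((Fintype.piFinset X).filter (fun v => ¬ ∀ l, v (f l) ∈ Y l)).card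
        ≤ K * ((univ : Finset (Fin (k + 2))).biUnion
          (fun l => Fintype.piFinset (update X (f l) (X (f l) \ Y l)))).card :=
          Nat.mul_le_mul_left _ (Finset.card_le_card hsub)
      _ ≤ K * ∑ l : Fin (k + 2), (Fintype.piFinset (update X (f l) (X (f l) \ Y l))).card :=
          Nat.mul_le_mul_left _ Finset.card_biUnion_le
      _ = ∑ l : Fin (k + 2), K * (Fintype.piFinset (update X (f l) (X (f l) \ Y l))).card := by
          rw [Finset.mul_sum]
      _ ≤ ∑ l : Fin (k + 2), (Fintype.piFinset X).card :=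
          Finset.sum_le_sum (fun l _ => G4_one X (f l) _ K (hcard l))
      _ = (k + 2) * (Fintype.piFinset X).card := by
          rw [Finset.sum_const, Finset.card_univ, Fintype.card_fin, smul_eq_mul]
  -- together
  have h3 : ((Fintype.piFinset X).filter (fun v => θ < ∏ l, abar l (v (f l)))).card ≤
      (((Fintype.piFinset X).filter (fun v => ∀ l, v (f l) ∈ Y l)).filter
        (fun v => θ < ∏ l, abar l (v (f l)))).card +
      ((Fintype.piFinset X).filter (fun v => ¬ ∀ l, v (f l) ∈ Y l)).card := by
    refine le_trans (Finset.card_le_card ?_) (Finset.card_union_le _ _)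
    intro v hv
    rw [Finset.mem_filter] at hv
    rw [Finset.mem_union, Finset.mem_filter, Finset.mem_filter, Finset.mem_filter]
    by_cases h : ∀ l, v (f l) ∈ Y l
    · exact Or.inl ⟨⟨hv.1, h⟩, hv.2⟩
    · exact Or.inr ⟨hv.1, h⟩
  calc K * ((Fintype.piFinset X).filter (fun v => θ < ∏ l, abar l (v (f l)))).card
      ≤ K * ((((Fintype.piFinset X).filter (fun v => ∀ l, v (f l) ∈ Y l)).filter
        (fun v => θ < ∏ l, abar l (v (f l)))).card +
      ((Fintype.piFinset X).filter (fun v => ¬ ∀ l, v (f l) ∈ Y l)).card) := Nat.mul_le_mul_left _ h3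
    _ = K * (((Fintype.piFinset X).filter (fun v => ∀ l, v (f l) ∈ Y l)).filter
        (fun v => θ < ∏ l, abar l (v (f l)))).card +
        K * ((Fintype.piFinset X).filter (fun v => ¬ ∀ l, v (f l) ∈ Y l)).card := by ring
    _ ≤ _ := Nat.add_le_add (Nat.mul_le_mul_left _ h1) h2

end KS39
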