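import Pool.Agent.LibKS39.G1
import Pool.Agent.LibKS39.G2
import Pool.Agent.LibKS39.G3
import Pool.Agent.LibKS39.G4
import Pool.Agent.LibKS39.Defs

open Finset Function
open scoped Classical

namespace KS39

theorem G5_ne {k m : ℕ} (f : Fin (k + 2) → Fin m) (hf : Injective f) (a : Fin (k + 2)) :
    f a ≠ f (a + 1) := by
  intro h
  have h1 := hf h
  have h2 : (1 : Fin (k + 2)) = 0 := by
    have h3 : a + 0 = a + 1 := by rw [add_zero]; exact h1
    exact (add_left_cancel h3).symm
  have h4 := congrArg Fin.val h2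
  simp at h4

/-- few weight vectors serve almost all tuples of a box. -/
theorem box {V : Type} {m : ℕ} (hm : 1 ≤ m) (X : Fin m → Finset V) (A : Fin m → Fin m → V → ℝ)
    (hA : ∀ i j, i ≠ j → ∀ y ∈ X i, 0 < A i j y) (K : ℕ) (hK : 1 ≤ K) (δ : ℝ) (hδ : 0 < δ)
    (hδ1 : δ ≤ 1) :
    ∃ G : Finset (Fin m → ℝ), G.card ≤ m ^ m * (2 * K) ^ (m - 1) ∧ (∀ g ∈ G, ∀ i, 0 < g i) ∧
      K * ((Fintype.piFinset X).filter (fun v => ¬ ∃ g ∈ G, ∀ i j, i ≠ j →
          A i j (v i) * g i ≤ δ * g j)).card ≤
        m ^ (m + 1) * (K * ((Fintype.piFinset X).filter (fun v =>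
          ∃ (k : ℕ) (f : Fin (k + 2) → Fin m), Injective f ∧
            δ ^ m < ∏ a, A (f a) (f (a + 1)) (v (f a)))).card +
          m * (Fintype.piFinset X).card) := by
  choose abar hle hcardI Y σ hYX hσ hσX hcardY hab using
    fun i j => rounding (X i) (A i j) K hK
  obtain ⟨G0, hG0card, hG0⟩ := count_potentials (⟨0, hm⟩ : Fin m)
    (fun i j => (X i).image (fun y => abar i j y / δ)) (2 * K) (by
      intro i j
      refine le_trans ?_ (hcardI i j)
      have : (X i).image (fun y => abar i j y / δ) = ((X i).image (abar i j)).image (fun t => t / δ) := by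
        rw [Finset.image_image]; rfl
      rw [this]
      exact Finset.card_image_le)
  obtain ⟨G', hG'⟩ : ∃ G' : Finset (Fin m → ℝ), G' = G0.filter (fun g => ∀ i, 0 < g i) := ⟨_, rfl⟩
  refine ⟨G', by rw [hG']; exact le_trans (Finset.card_filter_le _ _) hG0card, ?_, ?_⟩
  · intro g hg; rw [hG'] at hg; exact (Finset.mem_filter.1 hg).2
  · -- the index set
    set I : Finset (Σ k : ℕ, (Fin (k + 2) → Fin m)) :=
      (Finset.range (m - 1)).sigma (fun k => Finset.univ.filter (fun f : Fin (k + 2) → Fin m => Injective f))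
      with hI
    set T : (Σ k : ℕ, (Fin (k + 2) → Fin m)) → Finset (Fin m → V) := fun s =>
      (Fintype.piFinset X).filter (fun v => δ ^ m < ∏ a, abar (s.2 a) (s.2 (a + 1)) (v (s.2 a)))
      with hT
    have hsub : (Fintype.piFinset X).filter (fun v => ¬ ∃ g ∈ G',
        ∀ i j, i ≠ j → A i j (v i) * g i ≤ δ * g j) ⊆ I.biUnion T := by
      intro v hv
      obtain ⟨hvX, hno⟩ := Finset.mem_filter.1 hv
      have hvX' := Fintype.mem_piFinset.1 hvX
      by_contra hcon
      apply hno
      have hcyc : ∀ (k : ℕ) (f : Fin (k + 2) → Fin m), Injective f →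
          ∏ a, (abar (f a) (f (a + 1)) (v (f a)) / δ) ≤ 1 := by
        intro k f hf
        have hkm : k + 2 ≤ m := by
          have := Fintype.card_le_of_injective f hf
          simpa using this
        have hle1 : ∏ a, abar (f a) (f (a + 1)) (v (f a)) ≤ δ ^ m := by
          by_contra hlt
          apply hcon
          refine Finset.mem_biUnion.2 ⟨⟨k, f⟩, ?_, ?_⟩
          · rw [hI, Finset.mem_sigma]
            exact ⟨Finset.mem_range.2 (by show k < m - 1; omega),
              Finset.mem_filter.2 ⟨Finset.mem_univ _, hf⟩⟩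
          · rw [hT]
            exact Finset.mem_filter.2 ⟨hvX, not_le.1 hlt⟩
        rw [Finset.prod_div_distrib, Finset.prod_const, Finset.card_univ, Fintype.card_fin]
        rw [div_le_one (pow_pos hδ _)]
        exact le_trans hle1 (pow_le_pow_of_le_one hδ.le hδ1 hkm)
      have hposB : ∀ i j, i ≠ j → 0 < abar i j (v i) / δ := by
        intro i j hij
        exact div_pos (lt_of_lt_of_le (hA i j hij _ (hvX' i)) (hle i j _ (hvX' i))) hδ
      obtain ⟨g, p, dep, hg0, hgpos, hgB, hgp⟩ :=
        potential (⟨0, hm⟩ : Fin m) (fun i j => abar i j (v i) / δ) hposB hcyc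
      have hg1 : g ∈ G0 := by
        refine hG0 g p dep hg0 ?_
        intro j hj
        obtain ⟨_, h2, h3⟩ := hgp j hj
        exact ⟨h2, _, Finset.mem_image.2 ⟨v (p j), hvX' (p j), rfl⟩, h3⟩
      refine ⟨g, by rw [hG']; exact Finset.mem_filter.2 ⟨hg1, hgpos⟩, ?_⟩
      · intro i j hij
        have h1 := hgB i j hij
        have h2 : A i j (v i) * g i ≤ abar i j (v i) * g i :=
          mul_le_mul_of_nonneg_right (hle i j _ (hvX' i)) (hgpos i).le
        have h3 : abar i j (v i) * g i = δ * (g i * (abar i j (v i) / δ)) := by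
          field_simp
        rw [h3] at h2
        exact le_trans h2 (mul_le_mul_of_nonneg_left h1 hδ.le)
    have hone : ∀ s ∈ I, K * (T s).card ≤ K * ((Fintype.piFinset X).filter (fun v =>
          ∃ (k : ℕ) (f : Fin (k + 2) → Fin m), Injective f ∧
            δ ^ m < ∏ a, A (f a) (f (a + 1)) (v (f a)))).card +
          m * (Fintype.piFinset X).card := by
      rintro ⟨k, f⟩ hs
      rw [hI, Finset.mem_sigma] at hs
      have hk : k < m - 1 := Finset.mem_range.1 hs.1
      have hf : Injective f := (Finset.mem_filter.1 hs.2).2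
      have h1 := shift_count X K k f hf (fun l => A (f l) (f (l + 1)))
        (fun l => abar (f l) (f (l + 1)))
        (fun l y hy => hA _ _ (G5_ne f hf l) y hy) (fun l y hy => hle _ _ y hy)
        (fun l => Y (f l) (f (l + 1))) (fun l => σ (f l) (f (l + 1)))
        (fun l => hYX _ _) (fun l => hσ _ _) (fun l y hy => hσX _ _ y hy)
        (fun l => hcardY _ _) (fun l y hy => hab _ _ y hy) (δ ^ m)
      refine le_trans h1 ?_
      refine Nat.add_le_add (Nat.mul_le_mul_left _ ?_) (Nat.mul_le_mul_right _ (by omega))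
      refine Finset.card_le_card ?_
      intro v hv
      obtain ⟨hvX, hlt⟩ := Finset.mem_filter.1 hv
      exact Finset.mem_filter.2 ⟨hvX, k, f, hf, hlt⟩
    have hIcard : I.card ≤ m ^ (m + 1) := by
      rw [hI, Finset.card_sigma]
      have h1 : ∀ k ∈ Finset.range (m - 1),
          (Finset.univ.filter (fun f : Fin (k + 2) → Fin m => Injective f)).card ≤ m ^ m := by
        intro k hk
        have hk' := Finset.mem_range.1 hk
        refine le_trans (Finset.card_filter_le _ _) ?_
        rw [Finset.card_univ, Fintype.card_fun, Fintype.card_fin, Fintype.card_fin]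
        exact Nat.pow_le_pow_right (by omega) (by omega)
      refine le_trans (Finset.sum_le_sum h1) ?_
      rw [Finset.sum_const, Finset.card_range, smul_eq_mul, pow_succ, mul_comm]
      exact Nat.mul_le_mul_left _ (by omega)
    calc K * _ ≤ K * (I.biUnion T).card := Nat.mul_le_mul_left _ (Finset.card_le_card hsub)
      _ ≤ K * ∑ s ∈ I, (T s).card := Nat.mul_le_mul_left _ Finset.card_biUnion_le
      _ = ∑ s ∈ I, K * (T s).card := by rw [Finset.mul_sum]
      _ ≤ ∑ s ∈ I, (K * ((Fintype.piFinset X).filter (fun v =>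
          ∃ (k : ℕ) (f : Fin (k + 2) → Fin m), Injective f ∧
            δ ^ m < ∏ a, A (f a) (f (a + 1)) (v (f a)))).card +
          m * (Fintype.piFinset X).card) := Finset.sum_le_sum hone
      _ = I.card * _ := by rw [Finset.sum_const, smul_eq_mul]
      _ ≤ _ := Nat.mul_le_mul_right _ hIcard

end KS39
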