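import Pool.Agent.LibKS39.Defs

open Finset Function
open scoped Classical

namespace KS39

/-- diagonal dominance gives positive coefficients. -/
theorem positivity {m : ℕ} (C : Matrix (Fin m) (Fin m) ℝ) (g : Fin m → ℝ)
    (hg : ∀ i, 0 < g i) (hC : ∀ i, 0 < C i i)
    (hd : ∀ i j, i ≠ j → |C i j| * g i ≤ (1 / (4 * m)) * (C i i * g j)) :
    ∃ t : Fin m → ℝ, (∀ i, 0 < t i) ∧ ∀ j, ∑ i, t i * C i j = g j := by
  rcases Nat.eq_zero_or_pos m with hm | hm
  · subst hm
    exact ⟨fun _ => 1, fun i => i.elim0, fun j => j.elim0⟩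
  have hm' : (0 : ℝ) < m := by exact_mod_cast hm
  have : Nonempty (Fin m) := ⟨⟨0, hm⟩⟩
  -- the normalised matrix
  let E : Matrix (Fin m) (Fin m) ℝ := fun i j => g i * C i j / (C i i * g j)
  have hEd : ∀ j, E j j = 1 := by
    intro j
    have h1 := (hg j).ne'
    have h2 := (hC j).ne'
    show g j * C j j / (C j j * g j) = 1
    field_simp
  have hEo : ∀ i j, i ≠ j → |E i j| ≤ 1 / (4 * m) := by
    intro i j hij
    have hp : 0 < C i i * g j := mul_pos (hC i) (hg j)
    show |g i * C i j / (C i i * g j)| ≤ _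
    rw [abs_div, abs_of_pos hp, div_le_iff₀ hp, abs_mul, abs_of_pos (hg i), mul_comm (g i)]
    exact hd i j hij
  have hsum : ∀ (c : Fin m → ℝ) (M : ℝ) (j : Fin m), 0 ≤ M → (∀ i, |c i| ≤ M) →
      ∑ i ∈ univ.erase j, |c i| * |E i j| ≤ M / 4 := by
    intro c M j hM hc
    calc ∑ i ∈ univ.erase j, |c i| * |E i j| ≤ ∑ i ∈ univ.erase j, M * (1 / (4 * m)) := by
          refine Finset.sum_le_sum fun i hi => ?_
          exact mul_le_mul (hc i) (hEo i j (Finset.ne_of_mem_erase hi)) (abs_nonneg _) hM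
      _ ≤ ∑ i : Fin m, M * (1 / (4 * m)) := by
          refine Finset.sum_le_sum_of_subset_of_nonneg (Finset.erase_subset _ _) ?_
          intro i _ _
          positivity
      _ = M / 4 := by
          rw [Finset.sum_const, Finset.card_univ, Fintype.card_fin, nsmul_eq_mul]
          field_simp
  have hdet : E.det ≠ 0 := by
    refine det_ne_zero_of_sum_col_lt_diag fun j => ?_
    rw [hEd j]
    have h := hsum (fun _ => 1) 1 j zero_le_one (fun i => by simp)
    simp only [abs_one, one_mul] at h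
    simp only [Real.norm_eq_abs, abs_one]
    linarith
  have hunit : IsUnit E.det := isUnit_iff_ne_zero.mpr hdet
  let τ : Fin m → ℝ := Matrix.vecMul (fun _ => 1) E⁻¹
  have hτ : Matrix.vecMul τ E = fun _ => 1 := by
    show Matrix.vecMul (Matrix.vecMul (fun _ => 1) E⁻¹) E = _
    rw [Matrix.vecMul_vecMul, Matrix.nonsing_inv_mul _ hunit, Matrix.vecMul_one]
  have hτj : ∀ j, ∑ i, τ i * E i j = 1 := by
    intro j
    have := congrFun hτ j
    simpa [Matrix.vecMul, dotProduct] using this
  have hτe : ∀ j, τ j - 1 = - ∑ i ∈ univ.erase j, τ i * E i j := by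
    intro j
    have h := hτj j
    rw [← Finset.add_sum_erase univ _ (Finset.mem_univ j), hEd j] at h
    linarith
  -- the largest coefficient
  obtain ⟨i₁, -, hi₁⟩ := Finset.exists_max_image (univ : Finset (Fin m)) (fun i => |τ i|)
    Finset.univ_nonempty
  have hM0 : 0 ≤ |τ i₁| := abs_nonneg _
  have habs : ∀ j, |τ j - 1| ≤ |τ i₁| / 4 := by
    intro j
    rw [hτe j, abs_neg]
    refine (Finset.abs_sum_le_sum_abs _ _).trans ?_
    have h := hsum τ |τ i₁| j hM0 (fun i => hi₁ i (Finset.mem_univ i))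
    simpa only [abs_mul] using h
  have hM : |τ i₁| ≤ 4 / 3 := by
    have h := habs i₁
    have h2 : |τ i₁| ≤ |τ i₁ - 1| + 1 := by
      have := abs_add_le (τ i₁ - 1) 1
      simpa using this
    linarith
  have hpos : ∀ j, 0 < τ j := by
    intro j
    have h := habs j
    have h3 := (abs_le.mp h).1
    linarith
  refine ⟨fun i => τ i * g i / C i i, fun i => div_pos (mul_pos (hpos i) (hg i)) (hC i), ?_⟩
  intro j
  have h : ∀ i, τ i * g i / C i i * C i j = (τ i * E i j) * g j := by
    intro i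
    have h1 := (hg j).ne'
    have h2 := (hC i).ne'
    show _ = (τ i * (g i * C i j / (C i i * g j))) * g j
    field_simp
  rw [Finset.sum_congr rfl fun i _ => h i, ← Finset.sum_mul, hτj j, one_mul]

end KS39
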