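import Pool.Agent.LibKS39.E0
import Pool.Agent.LibKS39.Defs

open Finset Function
open scoped Classical

namespace KS39

/-- a vector outside finitely many proper subspaces -/
theorem L1_avoid {ι E : Type} [Fintype ι] [AddCommGroup E] [Module ℝ E]
    (K : ι → Submodule ℝ E) (h : ∀ i, K i ≠ ⊤) : ∃ z, ∀ i, z ∉ K i := by
  have h1 : (⊤ : Subspace ℝ E) ∉ (univ.image K : Finset (Subspace ℝ E)) := by
    intro hh
    rw [Finset.mem_image] at hh
    obtain ⟨i, -, hi⟩ := hh
    exact h i hi
  have h2 := Subspace.biUnion_ne_univ_of_top_notMem h1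
  rw [Ne, Set.eq_univ_iff_forall, not_forall] at h2
  obtain ⟨z, hz⟩ := h2
  refine ⟨z, fun i hi => hz ?_⟩
  rw [Set.mem_iUnion₂]
  exact ⟨K i, Finset.mem_image.2 ⟨i, mem_univ i, rfl⟩, hi⟩

theorem L1_comm {m : ℕ} (M : Fin m → Fin m → ℝ) {i j : Fin m} (hij : i ≠ j) (z w : Fin m → ℝ) :
    update (update M i z) j w = update (update M j w) i z := update_comm hij _ _ _

theorem L1_det_update {m : ℕ} (M : Fin m → Fin m → ℝ) (l : Fin m) (z : Fin m → ℝ) :
    DET (update M l z) = Matrix.detRowAlternating (update M l z) := rfl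

/-- kernel in the last variable -/
noncomputable def L1_K {m : ℕ} (M : Fin m → Fin m → ℝ) (j : Fin m) : Submodule ℝ (Fin m → ℝ) where
  carrier := {w | DET (update M j w) = 0}
  add_mem' := by
    intro a b ha hb
    simp only [Set.mem_ofPred_eq] at *
    rw [L1_det_update, AlternatingMap.map_update_add, ← L1_det_update, ← L1_det_update, ha, hb,
      add_zero]
  zero_mem' := by
    simp only [Set.mem_ofPred_eq]
    rw [L1_det_update, AlternatingMap.map_update_zero]
  smul_mem' := by
    intro c a ha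
    simp only [Set.mem_ofPred_eq] at *
    rw [L1_det_update, AlternatingMap.map_update_smul, ← L1_det_update, ha, smul_zero]

theorem L1_mem_K {m : ℕ} (M : Fin m → Fin m → ℝ) (j : Fin m) (w : Fin m → ℝ) :
    w ∈ L1_K M j ↔ DET (update M j w) = 0 := Iff.rfl

/-- kernel in the first variable -/
noncomputable def L1_N {m : ℕ} (M : Fin m → Fin m → ℝ) (i j : Fin m) :
    Submodule ℝ (Fin m → ℝ) := ⨅ w : Fin m → ℝ, L1_K (update M j w) i

theorem L1_mem_N {m : ℕ} (M : Fin m → Fin m → ℝ) {i j : Fin m} (hij : i ≠ j) (z : Fin m → ℝ) :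
    z ∈ L1_N M i j ↔ ∀ w, DET (update (update M i z) j w) = 0 := by
  unfold L1_N
  rw [Submodule.mem_iInf]
  refine forall_congr' fun w => ?_
  rw [L1_mem_K, L1_comm M hij]

/-- generic perturbation of `y` and generic direction `w`. -/
theorem generic {V : Type} [Fintype V] [Nonempty V] {m : ℕ} (hm : 2 ≤ m) (x : V → Fin m → ℝ)
    (ℓ : Fin m → ℝ) (hℓ : ∀ v, ℓ ⬝ᵥ x v = 1) (hgp : GP x) (y : Fin m → ℝ) :
    ∃ y' w : Fin m → ℝ, (∀ v : Fin m → V, Injective v → InCone x v y → InCone x v y') ∧
      ℓ ⬝ᵥ w < 0 ∧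
      ∀ v : Fin m → V, Injective v → ∀ i j, i ≠ j →
        DET (update (update (fun l => x (v l)) i y') j w) ≠ 0 := by
  -- step A: y'
  obtain ⟨z, hz⟩ := L1_avoid
    (ι := {p : (Fin m → V) × Fin m × Fin m // Injective p.1 ∧ p.2.1 ≠ p.2.2})
    (fun p => L1_N (fun l => x (p.1.1 l)) p.1.2.1 p.1.2.2) (by
      rintro ⟨⟨v, i, j⟩, hv, hij⟩ htop
      have h1 : x (v i) ∈ L1_N (fun l => x (v l)) i j := by
        rw [htop]; trivial
      rw [L1_mem_N _ hij] at h1
      have h2 := h1 (x (v j))
      rw [show update (update (fun l => x (v l)) i (x (v i))) j (x (v j)) = fun l => x (v l) by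
        rw [show x (v i) = (fun l => x (v l)) i from rfl, update_eq_self,
          show x (v j) = (fun l => x (v l)) j from rfl, update_eq_self]] at h2
      exact hgp v hv h2)
  have hA : ∀ᶠ ε : ℝ in nhdsWithin 0 (Set.Ioi 0),
      ∀ p : {p : (Fin m → V) × Fin m × Fin m // Injective p.1 ∧ p.2.1 ≠ p.2.2},
        y + ε • z ∉ L1_N (fun l => x (p.1.1 l)) p.1.2.1 p.1.2.2 := by
    rw [Filter.eventually_all]
    intro p
    by_cases hex : ∃ ε0 : ℝ, y + ε0 • z ∈ L1_N (fun l => x (p.1.1 l)) p.1.2.1 p.1.2.2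
    · obtain ⟨ε0, h0⟩ := hex
      have hne : ∀ᶠ ε : ℝ in nhdsWithin 0 (Set.Ioi 0), ε ≠ ε0 := by
        rcases lt_or_ge 0 ε0 with hpos | hneg
        · have : ∀ᶠ ε : ℝ in nhdsWithin 0 (Set.Ioi 0), ε < ε0 :=
            nhdsWithin_le_nhds (Iio_mem_nhds hpos)
          filter_upwards [this] with ε hε using hε.ne
        · filter_upwards [self_mem_nhdsWithin] with ε hε
          exact (lt_of_le_of_lt hneg hε).ne'
      filter_upwards [hne] with ε hε hmem
      apply hz p
      have h3 : (ε - ε0) • z ∈ L1_N (fun l => x (p.1.1 l)) p.1.2.1 p.1.2.2 := by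
        have := Submodule.sub_mem _ hmem h0
        rwa [add_sub_add_left_eq_sub, ← sub_smul] at this
      have h4 := Submodule.smul_mem _ (ε - ε0)⁻¹ h3
      rwa [smul_smul, inv_mul_cancel₀ (sub_ne_zero.2 hε), one_smul] at h4
    · exact Filter.Eventually.of_forall fun ε h => hex ⟨ε, h⟩
  have hB : ∀ᶠ ε : ℝ in nhdsWithin 0 (Set.Ioi 0),
      ∀ v : {v : Fin m → V // Injective v ∧ InCone x v y}, InCone x v.1 (y + ε • z) := by
    rw [Filter.eventually_all]
    rintro ⟨v, hv, t, ht, hy⟩
    have hD := hgp v hv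
    have hzc := cramer_rows (fun l => x (v l)) hD z
    set ζ : Fin m → ℝ := fun l => DET (update (fun l => x (v l)) l z) / DET (fun l => x (v l))
      with hζ
    have hpos : ∀ᶠ ε : ℝ in nhdsWithin 0 (Set.Ioi 0), ∀ i, 0 < t i + ε * ζ i := by
      rw [Filter.eventually_all]
      intro i
      have hc : Filter.Tendsto (fun ε : ℝ => t i + ε * ζ i) (nhds 0) (nhds (t i + 0 * ζ i)) :=
        (continuous_const.add (continuous_id.mul continuous_const)).tendsto 0
      rw [zero_mul, add_zero] at hc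
      exact nhdsWithin_le_nhds (hc.eventually (lt_mem_nhds (ht i)))
    filter_upwards [hpos] with ε hε
    refine ⟨fun i => t i + ε * ζ i, hε, ?_⟩
    simp only
    rw [hy, hzc, Finset.smul_sum, ← Finset.sum_add_distrib]
    refine Finset.sum_congr rfl fun i _ => ?_
    rw [add_smul, smul_smul]
  obtain ⟨ε, hεA, hεB⟩ := (hA.and hB).exists
  set y' := y + ε • z with hy'
  -- step B: w
  have hℓ0 : ℓ ≠ 0 := by
    rintro rfl
    have := hℓ (Classical.arbitrary V)
    rw [zero_dotProduct] at this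
    exact zero_ne_one this
  let L : (Fin m → ℝ) →ₗ[ℝ] ℝ :=
    { toFun := fun w => ℓ ⬝ᵥ w
      map_add' := fun a b => dotProduct_add _ _ _
      map_smul' := fun c a => by
        simp [dotProduct_smul] }
  obtain ⟨w, hw⟩ := L1_avoid
    (ι := Option {p : (Fin m → V) × Fin m × Fin m // Injective p.1 ∧ p.2.1 ≠ p.2.2})
    (fun o => match o with
      | none => LinearMap.ker L
      | some p => L1_K (update (fun l => x (p.1.1 l)) p.1.2.1 y') p.1.2.2) (by
      intro o
      cases o with
      | none =>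
        intro htop
        have h1 : x (Classical.arbitrary V) ∈ LinearMap.ker L := by
          simp only at htop
          rw [htop]; trivial
        rw [LinearMap.mem_ker] at h1
        have h2 := hℓ (Classical.arbitrary V)
        have h3 : ℓ ⬝ᵥ x (Classical.arbitrary V) = 0 := h1
        rw [h2] at h3
        exact one_ne_zero h3
      | some p =>
        intro htop
        simp only at htop
        apply hεA p
        rw [L1_mem_N _ p.2.2]
        intro w
        have h1 : w ∈ L1_K (update (fun l => x (p.1.1 l)) p.1.2.1 y') p.1.2.2 := by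
          rw [htop]; trivial
        exact h1)
  have hwL : ℓ ⬝ᵥ w ≠ 0 := fun h => hw none (by
    simp only
    rw [LinearMap.mem_ker]
    exact h)
  have hwK : ∀ p : {p : (Fin m → V) × Fin m × Fin m // Injective p.1 ∧ p.2.1 ≠ p.2.2},
      w ∉ L1_K (update (fun l => x (p.1.1 l)) p.1.2.1 y') p.1.2.2 := fun p => hw (some p)
  have hcone : ∀ v : Fin m → V, Injective v → InCone x v y → InCone x v y' :=
    fun v hv hc => hεB ⟨v, hv, hc⟩
  rcases lt_or_gt_of_ne hwL with hlt | hgt
  · refine ⟨y', w, hcone, hlt, fun v hv i j hij h => ?_⟩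
    exact hwK ⟨(v, i, j), hv, hij⟩ h
  · refine ⟨y', -w, hcone, ?_, fun v hv i j hij h => ?_⟩
    · rw [dotProduct_neg]; linarith
    · apply hwK ⟨(v, i, j), hv, hij⟩
      have h1 : -w ∈ L1_K (update (fun l => x (v l)) i y') j := h
      exact (Submodule.neg_mem_iff _).1 h1

end KS39
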