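import Pool.Agent.LibKS39.Defs

open Finset Function
open scoped Classical

namespace KS39

theorem L3_exists_exit {m : ℕ} (α β : Fin m → ℝ) (hβ : ∑ i, β i < 0)
    (hgen : ∀ i j, i ≠ j → α i * β j ≠ α j * β i) (s0 : ℝ) (hs0 : 0 ≤ s0)
    (hQ : ∀ l, 0 < α l + s0 * β l ∨ (α l + s0 * β l = 0 ∧ 0 < β l)) :
    ∃ j, β j < 0 ∧ ∃ s : ℝ, 0 < s ∧ α j + s * β j = 0 ∧
        ∀ l, l ≠ j → 0 < α l + s * β l := by
  -- the set of indices with negative slope
  have hne : (univ.filter (fun l => β l < 0)).Nonempty := by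
    by_contra hcon
    rw [Finset.not_nonempty_iff_eq_empty, Finset.filter_eq_empty_iff] at hcon
    have : 0 ≤ ∑ i, β i := Finset.sum_nonneg (fun i hi => not_lt.mp (hcon hi))
    linarith
  obtain ⟨j, hj, hmin⟩ := Finset.exists_min_image (univ.filter (fun l => β l < 0))
    (fun l => - α l / β l) hne
  have hβj : β j < 0 := (Finset.mem_filter.mp hj).2
  have hβj' : β j ≠ 0 := ne_of_lt hβj
  have hjpos : 0 < α j + s0 * β j := by
    rcases hQ j with h | ⟨_, h⟩
    · exact h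
    · linarith
  have hs : s0 < - α j / β j := by
    rw [lt_div_iff_of_neg hβj]
    linarith
  have hz : α j + (- α j / β j) * β j = 0 := by
    rw [div_mul_cancel₀ _ hβj']
    ring
  refine ⟨j, hβj, - α j / β j, lt_of_le_of_lt hs0 hs, hz, ?_⟩
  intro l hl
  rcases lt_or_ge (β l) 0 with hneg | hnn
  · have hle : - α j / β j ≤ - α l / β l :=
      hmin l (Finset.mem_filter.mpr ⟨Finset.mem_univ _, hneg⟩)
    have hne' : - α j / β j ≠ - α l / β l := by
      intro he
      rw [div_eq_div_iff hβj' (ne_of_lt hneg)] at he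
      apply hgen l j hl
      linarith
    have hlt : - α j / β j < - α l / β l := lt_of_le_of_ne hle hne'
    rw [lt_div_iff_of_neg hneg] at hlt
    linarith
  · rcases hQ l with h | ⟨h1, h2⟩
    · have h3 : 0 ≤ ((- α j / β j) - s0) * β l := mul_nonneg (by linarith) hnn
      nlinarith
    · have h3 : 0 < ((- α j / β j) - s0) * β l := mul_pos (by linarith) h2
      nlinarith

/-- per simplex: indicator + enters ≤ exits. -/
theorem exit_enter {m : ℕ} (hm : 2 ≤ m) (α β : Fin m → ℝ) (hβ : ∑ i, β i < 0)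
    (hgen : ∀ i j, i ≠ j → α i * β j ≠ α j * β i) :
    (if ∀ i, 0 < α i then 1 else 0) +
      (univ.filter (fun i => 0 < β i ∧ ∃ s : ℝ, 0 < s ∧ α i + s * β i = 0 ∧
        ∀ l, l ≠ i → 0 < α l + s * β l)).card ≤
      (univ.filter (fun i => β i < 0 ∧ ∃ s : ℝ, 0 < s ∧ α i + s * β i = 0 ∧
        ∀ l, l ≠ i → 0 < α l + s * β l)).card := by
  have hexit : ∀ s0 : ℝ, 0 ≤ s0 →
      (∀ l, 0 < α l + s0 * β l ∨ (α l + s0 * β l = 0 ∧ 0 < β l)) →
      1 ≤ (univ.filter (fun i => β i < 0 ∧ ∃ s : ℝ, 0 < s ∧ α i + s * β i = 0 ∧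
        ∀ l, l ≠ i → 0 < α l + s * β l)).card := by
    intro s0 hs0 hQ
    obtain ⟨j, hj⟩ := L3_exists_exit α β hβ hgen s0 hs0 hQ
    rw [Nat.one_le_iff_ne_zero, ← Nat.pos_iff_ne_zero, Finset.card_pos]
    exact ⟨j, Finset.mem_filter.mpr ⟨Finset.mem_univ _, hj⟩⟩
  have huniq : (univ.filter (fun i => 0 < β i ∧ ∃ s : ℝ, 0 < s ∧ α i + s * β i = 0 ∧
        ∀ l, l ≠ i → 0 < α l + s * β l)).card ≤ 1 := by
    rw [Finset.card_le_one]
    intro i hi i' hi'
    obtain ⟨hbi, s, hs, hsi, hsl⟩ := (Finset.mem_filter.mp hi).2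
    obtain ⟨hbi', s', hs', hsi', hsl'⟩ := (Finset.mem_filter.mp hi').2
    by_contra hne
    have h1 := hsl i' (Ne.symm hne)
    have h2 := hsl' i hne
    have h3 : 0 < (s - s') * β i' := by nlinarith
    have h4 : 0 < (s' - s) * β i := by nlinarith
    have h5 : 0 < s - s' := by
      by_contra hcon
      have : (s - s') * β i' ≤ 0 := mul_nonpos_of_nonpos_of_nonneg (not_lt.mp hcon) hbi'.le
      linarith
    have h6 : 0 < s' - s := by
      by_contra hcon
      have : (s' - s) * β i ≤ 0 := mul_nonpos_of_nonpos_of_nonneg (not_lt.mp hcon) hbi.le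
      linarith
    linarith
  by_cases hα : ∀ i, 0 < α i
  · have hempty : (univ.filter (fun i => 0 < β i ∧ ∃ s : ℝ, 0 < s ∧ α i + s * β i = 0 ∧
        ∀ l, l ≠ i → 0 < α l + s * β l)) = ∅ := by
      rw [Finset.filter_eq_empty_iff]
      rintro i _ ⟨hbi, s, hs, hsi, _⟩
      have := mul_pos hs hbi
      have := hα i
      linarith
    rw [if_pos hα, hempty, Finset.card_empty]
    have := hexit 0 le_rfl (fun l => Or.inl (by simpa using hα l))
    simpa using this
  · rw [if_neg hα, zero_add]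
    by_cases hN : (univ.filter (fun i => 0 < β i ∧ ∃ s : ℝ, 0 < s ∧ α i + s * β i = 0 ∧
        ∀ l, l ≠ i → 0 < α l + s * β l)).Nonempty
    · obtain ⟨i, hi⟩ := hN
      obtain ⟨hbi, s, hs, hsi, hsl⟩ := (Finset.mem_filter.mp hi).2
      refine le_trans huniq (hexit s hs.le ?_)
      intro l
      by_cases hli : l = i
      · subst hli
        exact Or.inr ⟨hsi, hbi⟩
      · exact Or.inl (hsl l hli)
    · rw [Finset.not_nonempty_iff_eq_empty] at hN
      rw [hN, Finset.card_empty]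
      exact Nat.zero_le _

end KS39
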