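import Pool.Agent.LibKS39.E0
import Pool.Agent.LibKS39.L6
import Pool.Agent.LibKS39.Defs

open Finset Function
open scoped Classical

namespace KS39

/-- solving a square linear system with rows `M`. -/
theorem L5_solve {m : ℕ} (M : Fin m → Fin m → ℝ) (hM : DET M ≠ 0) (b : Fin m → ℝ) :
    ∃ ψ : Fin m → ℝ, ∀ l, ψ ⬝ᵥ M l = b l := by
  have hu : IsUnit (Matrix.of M).det := isUnit_iff_ne_zero.mpr hM
  refine ⟨(Matrix.of M)⁻¹.mulVec b, fun l => ?_⟩
  have h1 : (Matrix.of M).mulVec ((Matrix.of M)⁻¹.mulVec b) = b := by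
    rw [Matrix.mulVec_mulVec, Matrix.mul_nonsing_inv _ hu, Matrix.one_mulVec]
  have h2 := congrFun h1 l
  rw [dotProduct_comm]
  exact h2

/-- uniqueness of the solution. -/
theorem L5_unique {m : ℕ} (M : Fin m → Fin m → ℝ) (hM : DET M ≠ 0) (ψ φ : Fin m → ℝ)
    (h : ∀ l, ψ ⬝ᵥ M l = φ ⬝ᵥ M l) : ψ = φ := by
  have h1 : (Matrix.of M).mulVec ψ = (Matrix.of M).mulVec φ := by
    funext l
    have := h l
    rw [dotProduct_comm, dotProduct_comm φ] at this
    exact this
  have hu : IsUnit (Matrix.of M).det := isUnit_iff_ne_zero.mpr hM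
  have h2 := congrArg ((Matrix.of M)⁻¹.mulVec) h1
  rwa [Matrix.mulVec_mulVec, Matrix.mulVec_mulVec, Matrix.nonsing_inv_mul _ hu,
    Matrix.one_mulVec, Matrix.one_mulVec] at h2

theorem L5_update_comp {V : Type} {m : ℕ} (x : V → Fin m → ℝ) (v : Fin m → V) (i : Fin m)
    (a : V) : update (fun l => x (v l)) i (x a) = fun l => x (update v i a l) := by
  funext l
  by_cases hl : l = i
  · subst hl; simp
  · simp [update_of_ne hl]

theorem L5_inj_iff {V : Type} {m : ℕ} (v : Fin m → V) (i : Fin m) (a0 : V)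
    (h0 : Injective (update v i a0)) (a : V) :
    Injective (update v i a) ↔ ∀ l, l ≠ i → a ≠ v l := by
  constructor
  · intro h l hl hal
    apply hl
    apply h
    rw [update_of_ne hl, update_self, hal]
  · intro h l l' hll
    by_cases h1 : l = i
    · by_cases h2 : l' = i
      · rw [h1, h2]
      · rw [h1, update_self, update_of_ne h2] at hll
        exact absurd hll (h l' h2)
    · by_cases h2 : l' = i
      · rw [h2, update_self, update_of_ne h1] at hll
        exact absurd hll.symm (h l h1)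
      · rw [update_of_ne h1, update_of_ne h2] at hll
        apply h0
        rw [update_of_ne h1, update_of_ne h2, hll]

/-- per ridge: the two sides are balanced up to one. -/
theorem ridge {V : Type} [Fintype V] {m : ℕ} (x : V → Fin m → ℝ) (hgp : GP x) (h : V → ℝ)
    (hh : ∀ ψ : Fin m → ℝ, (univ.filter (fun p => ψ ⬝ᵥ x p = h p)).card ≤ m) (k : ℕ)
    (v : Fin m → V) (i : Fin m) (e : ℝ) (he : e ≠ 0) :
    (univ.filter (fun a : V => Injective (update v i a) ∧ Lev x h (update v i a) k ∧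
        e * DET (update (fun l => x (v l)) i (x a)) < 0)).card ≤
      (univ.filter (fun a : V => Injective (update v i a) ∧ Lev x h (update v i a) k ∧
        0 < e * DET (update (fun l => x (v l)) i (x a)))).card + 1 := by
  by_cases hex : ∃ a0 : V, Injective (update v i a0)
  swap
  · have : (univ.filter (fun a : V => Injective (update v i a) ∧ Lev x h (update v i a) k ∧
        e * DET (update (fun l => x (v l)) i (x a)) < 0)) = ∅ := by
      apply filter_eq_empty_iff.mpr
      intro a _ ha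
      exact hex ⟨a, ha.1⟩
    rw [this]
    simp
  obtain ⟨a0, ha0⟩ := hex
  obtain ⟨σ, hσ⟩ := DET_update_dot (fun l => x (v l)) i
  obtain ⟨ψ0, hψ0⟩ := L5_solve (fun l => x (update v i a0 l)) (hgp _ ha0)
    (fun l => h (update v i a0 l))
  have hψ0' : ∀ l, l ≠ i → ψ0 ⬝ᵥ x (v l) = h (v l) := by
    intro l hl
    have := hψ0 l
    simpa only [update_of_ne hl] using this
  have hinjX := L5_inj_iff v i a0 ha0
  -- the set X
  set X : Finset V := univ.filter (fun a => ∀ l, l ≠ i → a ≠ v l) with hX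
  have hmemX : ∀ a, a ∈ X ↔ Injective (update v i a) := by
    intro a
    rw [hX, mem_filter, hinjX a]
    simp
  have hσX : ∀ a ∈ X, σ ⬝ᵥ x a ≠ 0 := by
    intro a ha
    rw [hσ, L5_update_comp]
    exact hgp _ ((hmemX a).mp ha)
  have hσ0 : ∀ l, l ≠ i → σ ⬝ᵥ x (v l) = 0 := by
    intro l hl
    rw [hσ]
    unfold DET
    apply Matrix.det_zero_of_row_eq (i := i) (j := l) hl.symm
    funext t
    simp [update_of_ne hl]
  have hnotX : ∀ p, p ∉ X → ∃ l, l ≠ i ∧ p = v l := by
    intro p hp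
    rw [hX, mem_filter] at hp
    push Not at hp
    exact hp (mem_univ p)
  set lam : V → ℝ := fun a => (h a - ψ0 ⬝ᵥ x a) / (σ ⬝ᵥ x a) with hlam
  have hlamX : ∀ p ∈ X, h p - ψ0 ⬝ᵥ x p = lam p * (σ ⬝ᵥ x p) := by
    intro p hp
    rw [hlam]
    field_simp [hσX p hp]
  -- the functional of update v i a
  have hψa : ∀ a ∈ X, ∀ l, (ψ0 + lam a • σ) ⬝ᵥ x (update v i a l) = h (update v i a l) := by
    intro a ha l
    rw [add_dotProduct, smul_dotProduct, smul_eq_mul]
    by_cases hl : l = i
    · rw [hl, update_self, ← hlamX a ha]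
      ring
    · rw [update_of_ne hl, hσ0 l hl, hψ0' l hl]
      ring
  have hlt : ∀ a ∈ X, ∀ p, (ψ0 + lam a • σ) ⬝ᵥ x p < h p ↔
      p ∈ X ∧ ((0 < σ ⬝ᵥ x p ∧ lam a < lam p) ∨ (¬ 0 < σ ⬝ᵥ x p ∧ lam p < lam a)) := by
    intro a ha p
    rw [add_dotProduct, smul_dotProduct, smul_eq_mul]
    by_cases hp : p ∈ X
    · have h1 := hlamX p hp
      have h2 : (ψ0 ⬝ᵥ x p + lam a * (σ ⬝ᵥ x p) < h p) ↔
          lam a * (σ ⬝ᵥ x p) < lam p * (σ ⬝ᵥ x p) := by
        rw [← h1]
        constructor <;> intro h3 <;> linarith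
      rw [h2]
      rcases lt_or_gt_of_ne (hσX p hp) with h3 | h3
      · rw [mul_lt_mul_right_of_neg h3]
        constructor
        · intro h4
          exact ⟨hp, Or.inr ⟨not_lt.mpr h3.le, h4⟩⟩
        · rintro ⟨_, h4 | h4⟩
          · exact absurd h4.1 (not_lt.mpr h3.le)
          · exact h4.2
      · rw [mul_lt_mul_iff_of_pos_right h3]
        constructor
        · intro h4
          exact ⟨hp, Or.inl ⟨h3, h4⟩⟩
        · rintro ⟨_, h4 | h4⟩
          · exact h4.2
          · exact absurd h3 h4.1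
    · obtain ⟨l, hl, hpl⟩ := hnotX p hp
      constructor
      · intro h3
        rw [hpl, hσ0 l hl, hψ0' l hl] at h3
        simp at h3
      · intro h3
        exact absurd h3.1 hp
  have hcount : ∀ a ∈ X, (univ.filter (fun p => (ψ0 + lam a • σ) ⬝ᵥ x p < h p)).card =
      (X.filter (fun p => 0 < σ ⬝ᵥ x p ∧ lam a < lam p)).card +
        (X.filter (fun p => ¬ 0 < σ ⬝ᵥ x p ∧ lam p < lam a)).card := by
    intro a ha
    rw [← card_union_of_disjoint]
    · congr 1
      ext p
      simp only [mem_filter, mem_univ, true_and, mem_union]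
      rw [hlt a ha p]
      tauto
    · rw [disjoint_filter]
      intro p _ h1 h2
      exact h2.1 h1.1
  have hLev : ∀ a ∈ X, (Lev x h (update v i a) k ↔
      (X.filter (fun p => 0 < σ ⬝ᵥ x p ∧ lam a < lam p)).card +
        (X.filter (fun p => ¬ 0 < σ ⬝ᵥ x p ∧ lam p < lam a)).card = k) := by
    intro a ha
    rw [← hcount a ha]
    constructor
    · rintro ⟨ψ, h1, h2⟩
      have h3 : ψ = ψ0 + lam a • σ := by
        apply L5_unique (fun l => x (update v i a l)) (hgp _ ((hmemX a).mp ha))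
        intro l
        rw [h1 l, hψa a ha l]
      rw [← h3]
      exact h2
    · intro h2
      exact ⟨ψ0 + lam a • σ, hψa a ha, h2⟩
  have hinj : Set.InjOn lam (X : Set V) := by
    intro a ha b hb hab
    by_contra hne
    have ha' : a ∈ X := ha
    have hb' : b ∈ X := hb
    have h1 := hh (ψ0 + lam a • σ)
    have hsub : insert b (univ.image (update v i a)) ⊆
        univ.filter (fun p => (ψ0 + lam a • σ) ⬝ᵥ x p = h p) := by
      intro p hp
      rw [mem_insert] at hp
      rw [mem_filter]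
      refine ⟨mem_univ _, ?_⟩
      rcases hp with hp | hp
      · rw [hp, hab]
        have := hψa b hb' i
        rwa [update_self] at this
      · rw [mem_image] at hp
        obtain ⟨l, _, hl⟩ := hp
        rw [← hl]
        exact hψa a ha' l
    have hcard : (insert b (univ.image (update v i a))).card = m + 1 := by
      rw [card_insert_of_notMem]
      · rw [card_image_of_injective _ ((hmemX a).mp ha'), card_univ, Fintype.card_fin]
      · intro hb2
        rw [mem_image] at hb2
        obtain ⟨l, _, hl⟩ := hb2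
        by_cases hli : l = i
        · rw [hli, update_self] at hl
          exact hne hl
        · rw [update_of_ne hli] at hl
          rw [hX, mem_filter] at hb'
          exact hb'.2 l hli hl.symm
    have := card_le_card hsub
    omega
  have key := label_walk X (fun p => 0 < σ ⬝ᵥ x p) lam hinj k
  have hrew : ∀ P : ℝ → Prop, (univ.filter (fun a : V => Injective (update v i a) ∧
      Lev x h (update v i a) k ∧ P (DET (update (fun l => x (v l)) i (x a))))) =
      X.filter (fun a => P (σ ⬝ᵥ x a) ∧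
        (X.filter (fun p => 0 < σ ⬝ᵥ x p ∧ lam a < lam p)).card +
        (X.filter (fun p => ¬ 0 < σ ⬝ᵥ x p ∧ lam p < lam a)).card = k) := by
    intro P
    ext a
    rw [mem_filter, mem_filter, hσ (x a)]
    constructor
    · rintro ⟨_, h1, h2, h3⟩
      have ha : a ∈ X := (hmemX a).mpr h1
      exact ⟨ha, h3, (hLev a ha).mp h2⟩
    · rintro ⟨ha, h3, h2⟩
      exact ⟨mem_univ _, (hmemX a).mp ha, (hLev a ha).mpr h2, h3⟩
  rw [hrew (fun t => e * t < 0), hrew (fun t => 0 < e * t)]
  rcases lt_or_gt_of_ne he with he' | he'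
  · have e1 : ∀ a ∈ X, (e * (σ ⬝ᵥ x a) < 0 ↔ 0 < σ ⬝ᵥ x a) := by
      intro a _
      constructor
      · intro h1; by_contra h2; push Not at h2; nlinarith
      · intro h1; nlinarith
    have e2 : ∀ a ∈ X, (0 < e * (σ ⬝ᵥ x a) ↔ ¬ 0 < σ ⬝ᵥ x a) := by
      intro a ha
      have := hσX a ha
      constructor
      · intro h1 h2; nlinarith
      · intro h1
        push Not at h1
        have h2 : σ ⬝ᵥ x a < 0 := lt_of_le_of_ne h1 this
        nlinarith
    have f1 : X.filter (fun a => e * (σ ⬝ᵥ x a) < 0 ∧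
        (X.filter (fun p => 0 < σ ⬝ᵥ x p ∧ lam a < lam p)).card +
        (X.filter (fun p => ¬ 0 < σ ⬝ᵥ x p ∧ lam p < lam a)).card = k) =
        X.filter (fun a => 0 < σ ⬝ᵥ x a ∧
        (X.filter (fun p => 0 < σ ⬝ᵥ x p ∧ lam a < lam p)).card +
        (X.filter (fun p => ¬ 0 < σ ⬝ᵥ x p ∧ lam p < lam a)).card = k) := by
      apply filter_congr
      intro a ha
      rw [e1 a ha]
    have f2 : X.filter (fun a => 0 < e * (σ ⬝ᵥ x a) ∧
        (X.filter (fun p => 0 < σ ⬝ᵥ x p ∧ lam a < lam p)).card +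
        (X.filter (fun p => ¬ 0 < σ ⬝ᵥ x p ∧ lam p < lam a)).card = k) =
        X.filter (fun a => ¬ 0 < σ ⬝ᵥ x a ∧
        (X.filter (fun p => 0 < σ ⬝ᵥ x p ∧ lam a < lam p)).card +
        (X.filter (fun p => ¬ 0 < σ ⬝ᵥ x p ∧ lam p < lam a)).card = k) := by
      apply filter_congr
      intro a ha
      rw [e2 a ha]
    rw [f1, f2]
    exact key.1
  · have e1 : ∀ a ∈ X, (e * (σ ⬝ᵥ x a) < 0 ↔ ¬ 0 < σ ⬝ᵥ x a) := by
      intro a ha
      have := hσX a ha
      constructor
      · intro h1 h2; nlinarith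
      · intro h1
        push Not at h1
        have h2 : σ ⬝ᵥ x a < 0 := lt_of_le_of_ne h1 this
        nlinarith
    have e2 : ∀ a ∈ X, (0 < e * (σ ⬝ᵥ x a) ↔ 0 < σ ⬝ᵥ x a) := by
      intro a _
      constructor
      · intro h1; by_contra h2; push Not at h2; nlinarith
      · intro h1; nlinarith
    have f1 : X.filter (fun a => e * (σ ⬝ᵥ x a) < 0 ∧
        (X.filter (fun p => 0 < σ ⬝ᵥ x p ∧ lam a < lam p)).card +
        (X.filter (fun p => ¬ 0 < σ ⬝ᵥ x p ∧ lam p < lam a)).card = k) =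
        X.filter (fun a => ¬ 0 < σ ⬝ᵥ x a ∧
        (X.filter (fun p => 0 < σ ⬝ᵥ x p ∧ lam a < lam p)).card +
        (X.filter (fun p => ¬ 0 < σ ⬝ᵥ x p ∧ lam p < lam a)).card = k) := by
      apply filter_congr
      intro a ha
      rw [e1 a ha]
    have f2 : X.filter (fun a => 0 < e * (σ ⬝ᵥ x a) ∧
        (X.filter (fun p => 0 < σ ⬝ᵥ x p ∧ lam a < lam p)).card +
        (X.filter (fun p => ¬ 0 < σ ⬝ᵥ x p ∧ lam p < lam a)).card = k) =
        X.filter (fun a => 0 < σ ⬝ᵥ x a ∧
        (X.filter (fun p => 0 < σ ⬝ᵥ x p ∧ lam a < lam p)).card +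
        (X.filter (fun p => ¬ 0 < σ ⬝ᵥ x p ∧ lam p < lam a)).card = k) := by
      apply filter_congr
      intro a ha
      rw [e2 a ha]
    rw [f1, f2]
    exact key.2

end KS39
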