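import Pool.Agent.LibKS39.E0
import Pool.Agent.LibKS39.L5
import Pool.Agent.LibKS39.Defs

open Finset Function
open scoped Classical

namespace KS39

theorem L4_neg (a b : ℝ) : (a * b < 0) ↔ a / b < 0 := by
  rw [mul_neg_iff, div_neg_iff]

theorem L4_pos (a b : ℝ) : (0 < a * b) ↔ 0 < a / b := by
  rw [mul_pos_iff, div_pos_iff]

theorem L4_DET_add {m : ℕ} (M : Fin m → Fin m → ℝ) (l : Fin m) (y w : Fin m → ℝ) (s : ℝ) :
    DET (update M l (y + s • w)) = DET (update M l y) + s * DET (update M l w) := by
  obtain ⟨f, hf⟩ := DET_update_dot M l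
  rw [← hf, ← hf, ← hf, dotProduct_add, dotProduct_smul, smul_eq_mul]

/-- the point `y + s w` has the same coordinates in every frame of the ridge. -/
theorem L4_coord {V : Type} {m : ℕ} (x : V → Fin m → ℝ) (hgp : GP x) (y w : Fin m → ℝ)
    (v : Fin m → V) (i : Fin m) (a : V) (ha : Injective (update v i a)) (s : ℝ)
    (c : Fin m → ℝ) (hc : y + s • w = ∑ l, (if l = i then 0 else c l) • x (v l)) (l : Fin m) :
    al x (update v i a) y l + s * al x (update v i a) w l = if l = i then 0 else c l := by
  have hD := hgp _ ha
  have h1 : y + s • w = ∑ l', (if l' = i then (0 : ℝ) else c l') •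
      (fun l => x (update v i a l)) l' := by
    rw [hc]
    apply sum_congr rfl
    intro l' _
    by_cases hl : l' = i
    · simp [hl]
    · simp only [if_neg hl, update_of_ne hl]
  have h2 := L4_DET_add (fun l => x (update v i a l)) l y w s
  rw [h1, DET_update_sum] at h2
  unfold al
  rw [mul_div_assoc', ← add_div, ← h2, mul_div_assoc, div_self hD, mul_one]

/-- per ridge: exits minus enters is at most one. -/
theorem ridge_event {V : Type} [Fintype V] {m : ℕ} (x : V → Fin m → ℝ) (hgp : GP x) (h : V → ℝ)
    (hh : ∀ ψ : Fin m → ℝ, (univ.filter (fun p => ψ ⬝ᵥ x p = h p)).card ≤ m) (k : ℕ)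
    (y w : Fin m → ℝ) (v : Fin m → V) (i : Fin m) :
    (univ.filter (fun a : V => Injective (update v i a) ∧ Lev x h (update v i a) k ∧
        Exit x y w (update v i a) i)).card ≤
      (univ.filter (fun a : V => Injective (update v i a) ∧ Lev x h (update v i a) k ∧
        Enter x y w (update v i a) i)).card + 1 := by
  by_cases hex : ∃ a0 : V, Injective (update v i a0) ∧
      (Exit x y w (update v i a0) i ∨ Enter x y w (update v i a0) i)
  swap
  · have : (univ.filter (fun a : V => Injective (update v i a) ∧ Lev x h (update v i a) k ∧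
        Exit x y w (update v i a) i)) = ∅ := by
      apply filter_eq_empty_iff.mpr
      intro a _ ha
      exact hex ⟨a, ha.1, Or.inl ha.2.2⟩
    rw [this]
    simp
  obtain ⟨a0, ha0, hev⟩ := hex
  -- common data
  have hdata : ∃ s : ℝ, 0 < s ∧ al x (update v i a0) w i ≠ 0 ∧
      al x (update v i a0) y i + s * al x (update v i a0) w i = 0 ∧
      ∀ l, l ≠ i → 0 < al x (update v i a0) y l + s * al x (update v i a0) w l := by
    rcases hev with ⟨h1, s, hs, h2, h3⟩ | ⟨h1, s, hs, h2, h3⟩
    · exact ⟨s, hs, h1.ne, h2, h3⟩
    · exact ⟨s, hs, h1.ne', h2, h3⟩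
  obtain ⟨s, hs, hwi, h0, hpos⟩ := hdata
  set c : Fin m → ℝ := fun l => al x (update v i a0) y l + s * al x (update v i a0) w l with hc
  have hD0 := hgp _ ha0
  have hsum : y + s • w = ∑ l, (if l = i then 0 else c l) • x (v l) := by
    have hy := cramer_rows (fun l => x (update v i a0 l)) hD0 y
    have hw := cramer_rows (fun l => x (update v i a0 l)) hD0 w
    have h4 : y + s • w = ∑ l, c l • x (update v i a0 l) := by
      conv_lhs => rw [hy, hw]
      rw [smul_sum, ← sum_add_distrib]
      apply sum_congr rfl
      intro l _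
      rw [hc, smul_smul, ← add_smul]
      rfl
    rw [h4]
    apply sum_congr rfl
    intro l _
    by_cases hl : l = i
    · rw [if_pos hl]
      have : c l = 0 := by rw [hl]; exact h0
      rw [this, zero_smul, zero_smul]
    · rw [if_neg hl, update_of_ne hl]
  -- the coordinates of w
  set e : ℝ := DET (update (fun l => x (v l)) i w) with he
  have hal : ∀ a : V, al x (update v i a) w i =
      e / DET (update (fun l => x (v l)) i (x a)) := by
    intro a
    unfold al
    rw [← L5_update_comp, update_idem]
  have he0 : e ≠ 0 := by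
    intro he1
    apply hwi
    rw [hal a0, he1, zero_div]
  have hsign : ∀ a : V, Injective (update v i a) →
      ((Exit x y w (update v i a) i ↔ e * DET (update (fun l => x (v l)) i (x a)) < 0) ∧
       (Enter x y w (update v i a) i ↔ 0 < e * DET (update (fun l => x (v l)) i (x a)))) := by
    intro a ha
    have hco := L4_coord x hgp y w v i a ha s c hsum
    have hi := hco i
    rw [if_pos rfl] at hi
    have hl : ∀ l, l ≠ i → 0 < al x (update v i a) y l + s * al x (update v i a) w l := by
      intro l hl
      rw [hco l, if_neg hl]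
      exact hpos l hl
    constructor
    · rw [show (e * DET (update (fun l => x (v l)) i (x a)) < 0) ↔
          e / DET (update (fun l => x (v l)) i (x a)) < 0 from L4_neg _ _, ← hal a]
      exact ⟨fun h1 => h1.1, fun h1 => ⟨h1, s, hs, hi, hl⟩⟩
    · rw [show (0 < e * DET (update (fun l => x (v l)) i (x a))) ↔
          0 < e / DET (update (fun l => x (v l)) i (x a)) from L4_pos _ _, ← hal a]
      exact ⟨fun h1 => h1.1, fun h1 => ⟨h1, s, hs, hi, hl⟩⟩
  have key := ridge x hgp h hh k v i e he0
  have f1 : (univ.filter (fun a : V => Injective (update v i a) ∧ Lev x h (update v i a) k ∧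
        Exit x y w (update v i a) i)) =
      (univ.filter (fun a : V => Injective (update v i a) ∧ Lev x h (update v i a) k ∧
        e * DET (update (fun l => x (v l)) i (x a)) < 0)) := by
    apply filter_congr
    intro a _
    constructor
    · rintro ⟨h1, h2, h3⟩
      exact ⟨h1, h2, (hsign a h1).1.mp h3⟩
    · rintro ⟨h1, h2, h3⟩
      exact ⟨h1, h2, (hsign a h1).1.mpr h3⟩
  have f2 : (univ.filter (fun a : V => Injective (update v i a) ∧ Lev x h (update v i a) k ∧
        Enter x y w (update v i a) i)) =
      (univ.filter (fun a : V => Injective (update v i a) ∧ Lev x h (update v i a) k ∧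
        0 < e * DET (update (fun l => x (v l)) i (x a)))) := by
    apply filter_congr
    intro a _
    constructor
    · rintro ⟨h1, h2, h3⟩
      exact ⟨h1, h2, (hsign a h1).2.mp h3⟩
    · rintro ⟨h1, h2, h3⟩
      exact ⟨h1, h2, (hsign a h1).2.mpr h3⟩
  rw [f1, f2]
  exact key

end KS39
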