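import Pool.Agent.LibKS39.E0
import Pool.Agent.LibKS39.E1
import Pool.Agent.LibKS39.L1
import Pool.Agent.LibKS39.L3
import Pool.Agent.LibKS39.L4
import Pool.Agent.LibKS39.T1
import Pool.Agent.LibKS39.Defs

open Finset Function
open scoped Classical

namespace KS39

theorem L7_al_pos {V : Type} {m : ℕ} (x : V → Fin m → ℝ) (v : Fin m → V)
    (hD : DET (fun i => x (v i)) ≠ 0) (y : Fin m → ℝ) (hc : InCone x v y) (i : Fin m) :
    0 < al x v y i := by
  obtain ⟨t, ht, hy⟩ := hc
  have h := DET_update_sum (fun l => x (v l)) t i
  unfold al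
  rw [hy, h, mul_div_assoc, div_self hD, mul_one]
  exact ht i

theorem L7_sum_al {V : Type} {m : ℕ} (x : V → Fin m → ℝ) (ℓ : Fin m → ℝ)
    (hℓ : ∀ v, ℓ ⬝ᵥ x v = 1) (v : Fin m → V)
    (hD : DET (fun i => x (v i)) ≠ 0) (w : Fin m → ℝ) :
    ∑ i, al x v w i = ℓ ⬝ᵥ w := by
  have h := cramer_rows (fun l => x (v l)) hD w
  have h2 : ℓ ⬝ᵥ w = ℓ ⬝ᵥ (∑ l, (DET (update (fun l => x (v l)) l w) /
      DET (fun l => x (v l))) • x (v l)) := by
    rw [← h]
  rw [h2, dotProduct_sum]
  apply Finset.sum_congr rfl
  intro l _
  rw [dotProduct_smul, hℓ, smul_eq_mul, mul_one]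
  rfl

/-- Lovász lemma for open cones and levels. -/
theorem lovasz {V : Type} [Fintype V] {m : ℕ} (hm : 2 ≤ m) (x : V → Fin m → ℝ)
    (ℓ : Fin m → ℝ) (hℓ : ∀ v, ℓ ⬝ᵥ x v = 1) (hgp : GP x) (h : V → ℝ)
    (hh : ∀ ψ : Fin m → ℝ, (univ.filter (fun p => ψ ⬝ᵥ x p = h p)).card ≤ m) (k : ℕ)
    (y : Fin m → ℝ) :
    ((univ.filter (fun v : Fin m → V => Injective v ∧ InCone x v y ∧ Lev x h v k)).card : ℝ) ≤
      m * (Fintype.card V : ℝ) ^ (m - 1) := by
  rcases isEmpty_or_nonempty V with hV | hV
  · have h0 : (univ.filter (fun v : Fin m → V =>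
        Injective v ∧ InCone x v y ∧ Lev x h v k)) = ∅ := by
      apply Finset.filter_eq_empty_iff.2
      intro v _
      exact (hV.false (v ⟨0, by omega⟩)).elim
    rw [h0]
    simp only [Finset.card_empty, Nat.cast_zero]
    positivity
  obtain ⟨y', w, hcone, hw, hgen⟩ := generic hm x ℓ hℓ hgp y
  have key : ∀ v : Fin m → V,
      (if Injective v ∧ InCone x v y ∧ Lev x h v k then (1 : ℝ) else 0) ≤
        ∑ i, ((if Injective v ∧ Lev x h v k ∧ Exit x y' w v i then (1 : ℝ) else 0) -
          (if Injective v ∧ Lev x h v k ∧ Enter x y' w v i then (1 : ℝ) else 0)) := by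
    intro v
    by_cases hv : Injective v ∧ Lev x h v k
    · obtain ⟨hinj, hlev⟩ := hv
      have hD := hgp v hinj
      have h3 := exit_enter hm (al x v y') (al x v w)
        (by rw [L7_sum_al x ℓ hℓ v hD w]; exact hw)
        (by
          intro i j hij heq
          apply hgen v hinj i j hij
          have hp := plucker (fun l => x (v l)) i j hij y' w hD
          have h0 : DET (update (fun l => x (v l)) i y') * DET (update (fun l => x (v l)) j w) -
              DET (update (fun l => x (v l)) j y') * DET (update (fun l => x (v l)) i w) = 0 := by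
            unfold al at heq
            rw [div_mul_div_comm, div_mul_div_comm] at heq
            have hDD : DET (fun l => x (v l)) * DET (fun l => x (v l)) ≠ 0 := mul_ne_zero hD hD
            have := (div_left_inj' hDD).1 heq
            linarith
          rw [h0] at hp
          exact (mul_eq_zero.1 hp).resolve_right hD)
      have h3n : (if ∀ i, 0 < al x v y' i then 1 else 0) +
          (univ.filter (fun i => Enter x y' w v i)).card ≤
          (univ.filter (fun i => Exit x y' w v i)).card := by
        unfold Enter Exit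
        convert h3
      have h3' : ((if ∀ i, 0 < al x v y' i then (1 : ℝ) else 0)) +
          ((univ.filter (fun i => Enter x y' w v i)).card : ℝ) ≤
          ((univ.filter (fun i => Exit x y' w v i)).card : ℝ) := by
        have h4 : (((if ∀ i, 0 < al x v y' i then 1 else 0) +
          (univ.filter (fun i => Enter x y' w v i)).card : ℕ) : ℝ) ≤
          ((univ.filter (fun i => Exit x y' w v i)).card : ℝ) := by
          exact_mod_cast h3n
        rw [Nat.cast_add] at h4
        have e : (((if ∀ i, 0 < al x v y' i then 1 else 0 : ℕ)) : ℝ) =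
            (if ∀ i, 0 < al x v y' i then (1 : ℝ) else 0) := by
          split_ifs <;> simp
        rw [e] at h4
        exact h4
      have hs : ∑ i, ((if Injective v ∧ Lev x h v k ∧ Exit x y' w v i then (1 : ℝ) else 0) -
          (if Injective v ∧ Lev x h v k ∧ Enter x y' w v i then (1 : ℝ) else 0)) =
          ((univ.filter (fun i => Exit x y' w v i)).card : ℝ) -
          ((univ.filter (fun i => Enter x y' w v i)).card : ℝ) := by
        rw [Finset.sum_sub_distrib]
        congr 1
        · rw [Finset.card_filter, Nat.cast_sum]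
          apply Finset.sum_congr rfl
          intro i _
          by_cases hE : Exit x y' w v i <;> simp [hE, hinj, hlev]
        · rw [Finset.card_filter, Nat.cast_sum]
          apply Finset.sum_congr rfl
          intro i _
          by_cases hE : Enter x y' w v i <;> simp [hE, hinj, hlev]
      rw [hs]
      have hle : (if Injective v ∧ InCone x v y ∧ Lev x h v k then (1 : ℝ) else 0) ≤
          (if ∀ i, 0 < al x v y' i then (1 : ℝ) else 0) := by
        by_cases hc : InCone x v y
        · have : ∀ i, 0 < al x v y' i := L7_al_pos x v hD y' (hcone v hinj hc)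
          simp [this, hc, hinj, hlev]
        · simp only [hc, false_and, and_false, if_false]
          split_ifs <;> norm_num
      linarith
    · have h1 : ¬ (Injective v ∧ InCone x v y ∧ Lev x h v k) := fun hc => hv ⟨hc.1, hc.2.2⟩
      rw [if_neg h1]
      apply le_of_eq
      symm
      apply Finset.sum_eq_zero
      intro i _
      rw [if_neg (fun hc => hv ⟨hc.1, hc.2.1⟩), if_neg (fun hc => hv ⟨hc.1, hc.2.1⟩), sub_zero]
  have hfix : ∀ i : Fin m, ∑ v : Fin m → V,
      ((if Injective v ∧ Lev x h v k ∧ Exit x y' w v i then (1 : ℝ) else 0) -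
          (if Injective v ∧ Lev x h v k ∧ Enter x y' w v i then (1 : ℝ) else 0)) ≤
      (Fintype.card V : ℝ) ^ (m - 1) := by
    intro i
    have hT := sum_update (V := V) (fun v : Fin m → V =>
      ((if Injective v ∧ Lev x h v k ∧ Exit x y' w v i then (1 : ℝ) else 0) -
          (if Injective v ∧ Lev x h v k ∧ Enter x y' w v i then (1 : ℝ) else 0))) i
    have hb : ∀ v : Fin m → V, ∑ a,
        ((if Injective (update v i a) ∧ Lev x h (update v i a) k ∧
            Exit x y' w (update v i a) i then (1 : ℝ) else 0) -
          (if Injective (update v i a) ∧ Lev x h (update v i a) k ∧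
            Enter x y' w (update v i a) i then (1 : ℝ) else 0)) ≤ 1 := by
      intro v
      have h4 := ridge_event x hgp h hh k y' w v i
      have h5 : ((univ.filter (fun a : V => Injective (update v i a) ∧ Lev x h (update v i a) k ∧
        Exit x y' w (update v i a) i)).card : ℝ) ≤
      ((univ.filter (fun a : V => Injective (update v i a) ∧ Lev x h (update v i a) k ∧
        Enter x y' w (update v i a) i)).card : ℝ) + 1 := by exact_mod_cast h4
      rw [Finset.sum_sub_distrib]
      rw [Finset.card_filter, Finset.card_filter, Nat.cast_sum, Nat.cast_sum] at h5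
      simp only [Nat.cast_ite, Nat.cast_one, Nat.cast_zero] at h5
      linarith
    have hsum : ∑ v : Fin m → V, ∑ a,
        ((if Injective (update v i a) ∧ Lev x h (update v i a) k ∧
            Exit x y' w (update v i a) i then (1 : ℝ) else 0) -
          (if Injective (update v i a) ∧ Lev x h (update v i a) k ∧
            Enter x y' w (update v i a) i then (1 : ℝ) else 0)) ≤ (Fintype.card V : ℝ) ^ m := by
      calc _ ≤ ∑ v : Fin m → V, (1 : ℝ) := Finset.sum_le_sum (fun v _ => hb v)
        _ = (Fintype.card V : ℝ) ^ m := by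
          rw [Finset.sum_const, Finset.card_univ, Fintype.card_fun, Fintype.card_fin,
            nsmul_eq_mul, mul_one, Nat.cast_pow]
    rw [hT] at hsum
    have hpos : (0 : ℝ) < Fintype.card V := by exact_mod_cast Fintype.card_pos
    have hpow : (Fintype.card V : ℝ) ^ m = Fintype.card V * (Fintype.card V : ℝ) ^ (m - 1) := by
      rw [← pow_succ']
      congr 1
      omega
    rw [hpow] at hsum
    exact le_of_mul_le_mul_left hsum hpos
  calc ((univ.filter (fun v : Fin m → V =>
        Injective v ∧ InCone x v y ∧ Lev x h v k)).card : ℝ)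
      = ∑ v : Fin m → V, (if Injective v ∧ InCone x v y ∧ Lev x h v k then (1 : ℝ) else 0) := by
        rw [Finset.card_filter, Nat.cast_sum]
        apply Finset.sum_congr rfl
        intro v _
        split_ifs <;> simp
    _ ≤ ∑ v : Fin m → V, ∑ i,
        ((if Injective v ∧ Lev x h v k ∧ Exit x y' w v i then (1 : ℝ) else 0) -
          (if Injective v ∧ Lev x h v k ∧ Enter x y' w v i then (1 : ℝ) else 0)) :=
        Finset.sum_le_sum (fun v _ => key v)
    _ = ∑ i, ∑ v : Fin m → V,
        ((if Injective v ∧ Lev x h v k ∧ Exit x y' w v i then (1 : ℝ) else 0) -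
          (if Injective v ∧ Lev x h v k ∧ Enter x y' w v i then (1 : ℝ) else 0)) :=
        Finset.sum_comm
    _ ≤ ∑ i : Fin m, (Fintype.card V : ℝ) ^ (m - 1) := Finset.sum_le_sum (fun i _ => hfix i)
    _ = m * (Fintype.card V : ℝ) ^ (m - 1) := by
        rw [Finset.sum_const, Finset.card_univ, Fintype.card_fin, nsmul_eq_mul]

end KS39
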