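import Pool.Agent.LibKS39.Defs

open Finset Function
open scoped Classical

namespace KS39

theorem R1_contra (d : ℕ) (S : Finset (Fin d → ℝ)) (hS : GenPos d S)
    (v : Fin d → {p // p ∈ S}) (hv : Injective v) (p0 : Fin d → ℝ) (hp0 : p0 ∈ S)
    (hp1 : ∀ l, (v l : Fin d → ℝ) ≠ p0) (a : Fin d → ℝ) (b : ℝ) (ha : a ≠ 0)
    (h : ∀ l, a ⬝ᵥ (v l : Fin d → ℝ) = b) (h0 : a ⬝ᵥ p0 = b) : False := by
  have hsub : insert p0 (univ.image (fun l => (v l : Fin d → ℝ))) ⊆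
      S.filter (fun p => a ⬝ᵥ p = b) := by
    intro p hp
    rw [Finset.mem_insert, Finset.mem_image] at hp
    rw [Finset.mem_filter]
    rcases hp with rfl | ⟨l, _, rfl⟩
    · exact ⟨hp0, h0⟩
    · exact ⟨(v l).2, h l⟩
  have hcard : (insert p0 (univ.image (fun l => (v l : Fin d → ℝ)))).card = d + 1 := by
    rw [Finset.card_insert_of_notMem, Finset.card_image_of_injective, Finset.card_univ,
      Fintype.card_fin]
    · intro i j hij
      exact hv (Subtype.ext hij)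
    · rw [Finset.mem_image]
      rintro ⟨l, _, hl⟩
      exact hp1 l hl
  have h1 := Finset.card_le_card hsub
  have h2 := hS a b ha
  omega

theorem R1_line (d : ℕ) (hd : 2 ≤ d) (S : Finset (Fin d → ℝ)) (hS : GenPos d S)
    (hcard : d + 1 ≤ S.card) (v : Fin d → {p // p ∈ S}) (hv : Injective v) :
    ∃ c : Fin d → ℝ, c ≠ 0 ∧ ∀ (a : Fin d → ℝ) (b : ℝ),
      (∀ l, a ⬝ᵥ (v l : Fin d → ℝ) = b) → ∃ t : ℝ, a = t • c := by
  obtain ⟨p0, hp0, hp1⟩ : ∃ p0 ∈ S, p0 ∉ univ.image (fun l => (v l : Fin d → ℝ)) := by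
    by_contra hcon
    push Not at hcon
    have h1 : S ⊆ univ.image (fun l => (v l : Fin d → ℝ)) := hcon
    have h2 := Finset.card_le_card h1
    have h3 : (univ.image (fun l => (v l : Fin d → ℝ))).card ≤ d := by
      refine Finset.card_image_le.trans ?_
      simp
    omega
  have hp1' : ∀ l, (v l : Fin d → ℝ) ≠ p0 := by
    intro l hl
    exact hp1 (Finset.mem_image.2 ⟨l, Finset.mem_univ _, hl⟩)
  by_cases hex : ∃ (a : Fin d → ℝ) (b : ℝ), a ≠ 0 ∧ ∀ l, a ⬝ᵥ (v l : Fin d → ℝ) = b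
  · obtain ⟨a, b, ha, hab⟩ := hex
    refine ⟨a, ha, ?_⟩
    intro a' b' hab'
    have hs : a ⬝ᵥ p0 - b ≠ 0 := by
      intro h0
      exact R1_contra d S hS v hv p0 hp0 hp1' a b ha hab (sub_eq_zero.1 h0)
    have hz : (a ⬝ᵥ p0 - b) • a' - (a' ⬝ᵥ p0 - b') • a = 0 := by
      by_contra hne
      apply R1_contra d S hS v hv p0 hp0 hp1' _
        ((a ⬝ᵥ p0 - b) * b' - (a' ⬝ᵥ p0 - b') * b) hne
      · intro l
        rw [sub_dotProduct, smul_dotProduct, smul_dotProduct, hab l, hab' l, smul_eq_mul,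
          smul_eq_mul]
      · rw [sub_dotProduct, smul_dotProduct, smul_dotProduct, smul_eq_mul, smul_eq_mul]
        ring
    refine ⟨(a' ⬝ᵥ p0 - b') / (a ⬝ᵥ p0 - b), ?_⟩
    have hz' : (a ⬝ᵥ p0 - b) • a' = (a' ⬝ᵥ p0 - b') • a := sub_eq_zero.1 hz
    rw [div_eq_inv_mul, mul_smul, ← hz', smul_smul, inv_mul_cancel₀ hs, one_smul]
  · refine ⟨Pi.single ⟨0, by omega⟩ 1, ?_, ?_⟩
    · intro h0
      have := congrFun h0 ⟨0, by omega⟩
      simp at this
    · intro a b hab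
      refine ⟨0, ?_⟩
      rw [zero_smul]
      by_contra hne
      exact hex ⟨a, b, hne, hab⟩

/-- a direction not parallel to any hyperplane spanned by points of `S`. -/
theorem direction (d : ℕ) (hd : 2 ≤ d) (S : Finset (Fin d → ℝ)) (hS : GenPos d S)
    (hcard : d + 1 ≤ S.card) :
    ∃ u : Fin d → ℝ, ∀ v : Fin d → {p // p ∈ S}, Injective v → ∀ (a : Fin d → ℝ) (b : ℝ),
      a ≠ 0 → (∀ l, a ⬝ᵥ (v l : Fin d → ℝ) = b) → a ⬝ᵥ u ≠ 0 := by
  have hc := fun v : {v : Fin d → {p // p ∈ S} // Injective v} =>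
    R1_line d hd S hS hcard v.1 v.2
  choose c hc0 hc1 using hc
  obtain ⟨f, hf⟩ := Module.exists_dual_forall_apply_ne_zero (K := ℝ) c hc0
  refine ⟨fun i => f (Pi.single i 1), ?_⟩
  intro v hv a b ha hab
  obtain ⟨t, ht⟩ := hc1 ⟨v, hv⟩ a b hab
  have hfa : ∀ z : Fin d → ℝ, z ⬝ᵥ (fun i => f (Pi.single i 1)) = f z := by
    intro z
    conv_rhs => rw [← Finset.univ_sum_single z, map_sum]
    apply Finset.sum_congr rfl
    intro i _
    have : (Pi.single i (z i) : Fin d → ℝ) = z i • Pi.single i (1 : ℝ) := by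
      rw [← Pi.single_smul, smul_eq_mul, mul_one]
    rw [this, map_smul, smul_eq_mul]
  rw [hfa, ht, map_smul, smul_eq_mul]
  apply mul_ne_zero
  · rintro rfl
    apply ha
    rw [ht, zero_smul]
  · exact hf _

end KS39
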