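import Pool.Agent.LibKS39.E0
import Pool.Agent.LibKS39.R1
import Pool.Agent.LibKS39.Defs

open Finset Function
open scoped Classical

namespace KS39

theorem R2_card {d : ℕ} (S : Finset (Fin d → ℝ)) (P : (Fin d → ℝ) → Prop) :
    (univ.filter (fun p : {p // p ∈ S} => P p)).card = (S.filter P).card := by
  have h : (univ.filter (fun p : {p // p ∈ S} => P p)).map (Embedding.subtype _) = S.filter P := by
    ext p
    simp only [mem_map, mem_filter, mem_univ, true_and, Embedding.coe_subtype, Subtype.exists,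
      exists_and_right, exists_eq_right]
    constructor
    · rintro ⟨h1, h2⟩; exact ⟨h1, h2⟩
    · rintro ⟨h1, h2⟩; exact ⟨h1, h2⟩
  rw [← h, card_map]

/-- a hyperplane through `d` points. -/
theorem R2_hyper {d : ℕ} (hd : 1 ≤ d) (w : Fin d → Fin d → ℝ) :
    ∃ (a : Fin d → ℝ) (b : ℝ), a ≠ 0 ∧ ∀ l, a ⬝ᵥ w l = b := by
  -- linear map (a,b) ↦ (a·w l - b)_l has a nontrivial kernel
  let f : ((Fin d → ℝ) × ℝ) →ₗ[ℝ] (Fin d → ℝ) :=
    { toFun := fun q l => q.1 ⬝ᵥ w l - q.2
      map_add' := by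
        intro q r; ext l; simp [add_dotProduct]; ring
      map_smul' := by
        intro c q; ext l; simp [smul_dotProduct]; ring }
  have hker : LinearMap.ker f ≠ ⊥ := by
    apply LinearMap.ker_ne_bot_of_finrank_lt
    simp
  obtain ⟨q, hq, hq0⟩ := Submodule.exists_mem_ne_zero_of_ne_bot hker
  have hf : ∀ l, q.1 ⬝ᵥ w l = q.2 := by
    intro l
    have := congrFun (LinearMap.mem_ker.1 hq) l
    simp only [f, LinearMap.coe_mk, AddHom.coe_mk, Pi.zero_apply] at this
    linarith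
  refine ⟨q.1, q.2, ?_, hf⟩
  intro h0
  apply hq0
  have h2 := hf ⟨0, hd⟩
  rw [h0, zero_dotProduct] at h2
  exact Prod.ext h0 h2.symm

/-- homogeneous coordinates and heights. -/
theorem lift (d : ℕ) (hd : 2 ≤ d) (S : Finset (Fin d → ℝ)) (hS : GenPos d S)
    (hcard : d + 1 ≤ S.card) :
    ∃ (x : {p // p ∈ S} → Fin d → ℝ) (ℓ : Fin d → ℝ) (h : {p // p ∈ S} → ℝ),
      (∀ p, ℓ ⬝ᵥ x p = 1) ∧ GP x ∧
      (∀ ψ : Fin d → ℝ, (univ.filter (fun p => ψ ⬝ᵥ x p = h p)).card ≤ d) ∧
      ∀ (k : ℕ) (T : Finset (Fin d → ℝ)), IsKHyp S k T →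
        ∀ v : Fin d → {p // p ∈ S}, Injective v → (∀ l, (v l : Fin d → ℝ) ∈ T) →
          Lev x h v k ∨ Lev x h v (S.card - d - k) := by
  obtain ⟨u, hu⟩ := direction d hd S hS hcard
  have hu0 : u ≠ 0 := by
    have h1 : Fintype.card (Fin d) ≤ Fintype.card {p // p ∈ S} := by
      simp; omega
    obtain ⟨v⟩ := Function.Embedding.nonempty_of_card_le h1
    obtain ⟨a, b, ha, hab⟩ := R2_hyper (by omega) (fun l => (v l : Fin d → ℝ))
    have := hu v v.injective a b ha hab
    intro h0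
    rw [h0, dotProduct_zero] at this
    exact this rfl
  have huu : u ⬝ᵥ u ≠ 0 := fun h => hu0 (dotProduct_self_eq_zero.1 h)
  obtain ⟨g, hgu⟩ : ∃ g : Fin d → ℝ, g ⬝ᵥ u = 1 := by
    refine ⟨(u ⬝ᵥ u)⁻¹ • u, ?_⟩
    rw [smul_dotProduct, smul_eq_mul, inv_mul_cancel₀ huu]
  obtain ⟨x, hx⟩ : ∃ x : {p // p ∈ S} → Fin d → ℝ,
    x = fun p : {p // p ∈ S} => (p : Fin d → ℝ) + (1 - g ⬝ᵥ (p : Fin d → ℝ)) • u := ⟨_, rfl⟩
  have hdot : ∀ (ψ : Fin d → ℝ) (p : {p // p ∈ S}), ψ ⬝ᵥ x p
      = ψ ⬝ᵥ (p : Fin d → ℝ) + (1 - g ⬝ᵥ (p : Fin d → ℝ)) * (ψ ⬝ᵥ u) := by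
    intro ψ p
    rw [hx]; simp only [dotProduct_add, dotProduct_smul, smul_eq_mul]
  refine ⟨x, g, fun p => g ⬝ᵥ (p : Fin d → ℝ), ?_, ?_, ?_, ?_⟩
  · intro p
    rw [hdot, hgu]; ring
  · intro v hv hdet
    unfold DET at hdet
    obtain ⟨φ, hφ0, hφ⟩ := Matrix.exists_mulVec_eq_zero_iff.2 hdet
    have h1 : ∀ l, φ ⬝ᵥ x (v l) = 0 := by
      intro l
      have := congrFun hφ l
      rw [Matrix.mulVec] at this
      rw [dotProduct_comm]
      exact this
    have h2 : ∀ l, (φ - (φ ⬝ᵥ u) • g) ⬝ᵥ (v l : Fin d → ℝ) = -(φ ⬝ᵥ u) := by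
      intro l
      have := h1 l
      rw [hdot] at this
      rw [sub_dotProduct, smul_dotProduct, smul_eq_mul]
      linarith
    have ha : φ - (φ ⬝ᵥ u) • g ≠ 0 := by
      intro h0
      have h3 := h2 ⟨0, by omega⟩
      rw [h0, zero_dotProduct] at h3
      have h4 : φ ⬝ᵥ u = 0 := by linarith
      rw [h4, zero_smul, sub_zero] at h0
      exact hφ0 h0
    have := hu v hv _ _ ha h2
    apply this
    rw [sub_dotProduct, smul_dotProduct, hgu, smul_eq_mul, mul_one, sub_self]
  · intro ψ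
    have h1 : (univ.filter (fun p : {p // p ∈ S} => ψ ⬝ᵥ x p = g ⬝ᵥ (p : Fin d → ℝ)))
        = univ.filter (fun p : {p // p ∈ S} =>
          ((1 + ψ ⬝ᵥ u) • g - ψ) ⬝ᵥ (p : Fin d → ℝ) = ψ ⬝ᵥ u) := by
      ext p
      simp only [mem_filter, mem_univ, true_and]
      rw [hdot, sub_dotProduct, smul_dotProduct, smul_eq_mul]
      constructor
      · intro h; linarith
      · intro h; linarith
    rw [h1, R2_card S (fun p => ((1 + ψ ⬝ᵥ u) • g - ψ) ⬝ᵥ p = ψ ⬝ᵥ u)]
    apply hS
    intro h0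
    have h2 : ((1 + ψ ⬝ᵥ u) • g - ψ) ⬝ᵥ u = 1 := by
      rw [sub_dotProduct, smul_dotProduct, hgu, smul_eq_mul]; ring
    rw [h0, zero_dotProduct] at h2
    exact zero_ne_one h2
  · rintro k T ⟨hTS, hTd, a, b, ha, hab, hk⟩ v hv hvT
    have hab' : ∀ l, a ⬝ᵥ (v l : Fin d → ℝ) = b := fun l => hab _ (hvT l)
    have hau := hu v hv a b ha hab'
    obtain ⟨c, hc⟩ : ∃ c : ℝ, c = a ⬝ᵥ u := ⟨_, rfl⟩
    rw [← hc] at hau
    -- the functional
    have key : ∀ p : {p // p ∈ S},
        g ⬝ᵥ (p : Fin d → ℝ) - ((1 + b / c) • g - c⁻¹ • a) ⬝ᵥ x p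
          = (a ⬝ᵥ (p : Fin d → ℝ) - b) / c := by
      intro p
      rw [hdot]
      simp only [sub_dotProduct, smul_dotProduct, hgu, ← hc, smul_eq_mul]
      field_simp
      ring
    have hpt : ∀ l, ((1 + b / c) • g - c⁻¹ • a) ⬝ᵥ x (v l) = g ⬝ᵥ (v l : Fin d → ℝ) := by
      intro l
      have := key (v l)
      rw [hab' l, sub_self, zero_div] at this
      linarith
    rcases lt_or_gt_of_ne hau with hneg | hpos
    · right
      refine ⟨(1 + b / c) • g - c⁻¹ • a, hpt, ?_⟩
      have h1 : (univ.filter (fun p : {p // p ∈ S} =>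
          ((1 + b / c) • g - c⁻¹ • a) ⬝ᵥ x p < g ⬝ᵥ (p : Fin d → ℝ)))
          = univ.filter (fun p : {p // p ∈ S} => a ⬝ᵥ (p : Fin d → ℝ) < b) := by
        ext p
        simp only [mem_filter, mem_univ, true_and]
        have hk := key p
        constructor
        · intro h
          have h5 : 0 < (a ⬝ᵥ (p : Fin d → ℝ) - b) / c := by rw [← hk]; linarith
          rcases div_pos_iff.1 h5 with h6 | h6
          · linarith [h6.2]
          · linarith [h6.1]
        · intro h
          have h5 : 0 < (a ⬝ᵥ (p : Fin d → ℝ) - b) / c :=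
            div_pos_of_neg_of_neg (by linarith) hneg
          rw [← hk] at h5; linarith
      rw [h1, R2_card S (fun p => a ⬝ᵥ p < b)]
      -- counting
      have e1 : (S.filter (fun p => a ⬝ᵥ p = b)).card = d := by
        apply le_antisymm (hS a b ha)
        refine le_trans (le_of_eq hTd.symm) ?_
        apply card_le_card
        intro p hp
        rw [mem_filter]
        exact ⟨hTS hp, hab p hp⟩
      have e2 : (S.filter (fun p => a ⬝ᵥ p < b)).card + (S.filter (fun p => a ⬝ᵥ p = b)).card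
          + (S.filter (fun p => b < a ⬝ᵥ p)).card = S.card := by
        have e3 : (S.filter (fun p => a ⬝ᵥ p ≤ b)).card
            = (S.filter (fun p => a ⬝ᵥ p < b)).card + (S.filter (fun p => a ⬝ᵥ p = b)).card := by
          rw [← card_union_of_disjoint]
          · congr 1
            ext p
            simp only [mem_filter, mem_union]
            constructor
            · rintro ⟨h1, h2⟩
              rcases lt_or_eq_of_le h2 with h3 | h3
              · exact Or.inl ⟨h1, h3⟩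
              · exact Or.inr ⟨h1, h3⟩
            · rintro (⟨h1, h2⟩ | ⟨h1, h2⟩)
              · exact ⟨h1, h2.le⟩
              · exact ⟨h1, h2.le⟩
          · rw [disjoint_left]
            intro p hp hp'
            rw [mem_filter] at hp hp'
            linarith [hp.2, hp'.2]
        rw [← e3]
        have e4 := card_filter_add_card_filter_not (s := S) (fun p => a ⬝ᵥ p ≤ b)
        have e5 : (S.filter (fun p => ¬ a ⬝ᵥ p ≤ b)) = S.filter (fun p => b < a ⬝ᵥ p) := by
          ext p; simp only [mem_filter, not_le]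
        rw [e5] at e4
        exact e4
      rw [e1, hk] at e2
      omega
    · left
      refine ⟨(1 + b / c) • g - c⁻¹ • a, hpt, ?_⟩
      have h1 : (univ.filter (fun p : {p // p ∈ S} =>
          ((1 + b / c) • g - c⁻¹ • a) ⬝ᵥ x p < g ⬝ᵥ (p : Fin d → ℝ)))
          = univ.filter (fun p : {p // p ∈ S} => b < a ⬝ᵥ (p : Fin d → ℝ)) := by
        ext p
        simp only [mem_filter, mem_univ, true_and]
        have hk := key p
        constructor
        · intro h
          have h5 : 0 < (a ⬝ᵥ (p : Fin d → ℝ) - b) / c := by rw [← hk]; linarith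
          rcases div_pos_iff.1 h5 with h6 | h6
          · linarith [h6.1]
          · linarith [h6.2]
        · intro h
          have h5 : 0 < (a ⬝ᵥ (p : Fin d → ℝ) - b) / c :=
            div_pos (by linarith) hpos
          rw [← hk] at h5; linarith
      rw [h1, R2_card S (fun p => b < a ⬝ᵥ p)]
      exact hk

end KS39
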