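import Pool.Agent.LibKS39.E0
import Pool.Agent.LibKS39.E5
import Pool.Agent.LibKS39.F5
import Pool.Agent.LibKS39.G5
import Pool.Agent.LibKS39.H1
import Pool.Agent.LibKS39.Defs

open Finset Function
open scoped Classical

namespace KS39

/-- vertices of the box of `Q` -/
noncomputable def S1_X {V : Type} [Fintype V] {m : ℕ} (x : V → Fin m → ℝ) (q : V → V)
    (Q : Fin m → V) (i : Fin m) : Finset V :=
  univ.filter (fun a => q a = Q i ∧ a ≠ Q i ∧ 0 < coef x Q a i)

/-- normalised off-diagonal coordinates -/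
noncomputable def S1_A {V : Type} {m : ℕ} (x : V → Fin m → ℝ)
    (Q : Fin m → V) (i j : Fin m) (a : V) : ℝ :=
  |coef x Q a j| / coef x Q a i

noncomputable def S1_y {V : Type} {m : ℕ} (x : V → Fin m → ℝ)
    (Q : Fin m → V) (g : Fin m → ℝ) : Fin m → ℝ := ∑ j, g j • x (Q j)

theorem S1_injX {V : Type} [Fintype V] {m : ℕ} (q : V → V)
    (hq : ∀ v, q (q v) = q v) (Q : Fin m → V) (hQ : ∀ i, Q i ∈ univ.image q)
    (hinj : Injective Q) (i j : Fin m) (hij : i ≠ j) (a : V) (h1 : q a = Q i) (h2 : a ≠ Q i) :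
    Injective (update Q j a) := by
  have hQq : ∀ l, q (Q l) = Q l := by
    intro l
    obtain ⟨b, _, hb⟩ := Finset.mem_image.1 (hQ l)
    rw [← hb, hq]
  have hne : ∀ l, a ≠ Q l := by
    intro l hl
    by_cases hli : l = i
    · subst hli; exact h2 hl
    · have : Q i = Q l := by rw [← h1, hl, hQq]
      exact hli (hinj this.symm)
  intro s t hst
  by_cases hs : s = j
  · by_cases ht : t = j
    · rw [hs, ht]
    · subst hs
      rw [update_self, update_of_ne ht] at hst
      exact absurd hst (hne t)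
  · by_cases ht : t = j
    · subst ht
      rw [update_self, update_of_ne hs] at hst
      exact absurd hst.symm (hne s)
    · rw [update_of_ne hs, update_of_ne ht] at hst
      exact hinj hst

theorem S1_coef_ne {V : Type} [Fintype V] {m : ℕ} (x : V → Fin m → ℝ) (hgp : GP x) (q : V → V)
    (hq : ∀ v, q (q v) = q v) (Q : Fin m → V) (hQ : ∀ i, Q i ∈ univ.image q)
    (hinj : Injective Q) (i j : Fin m) (hij : i ≠ j) (a : V) (h1 : q a = Q i) (h2 : a ≠ Q i) :
    coef x Q a j ≠ 0 := by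
  unfold coef
  have h := hgp _ (S1_injX q hq Q hQ hinj i j hij a h1 h2)
  have e : (fun l => x (update Q j a l)) = update (fun l => x (Q l)) j (x a) := by
    funext l
    by_cases hl : l = j
    · subst hl; simp
    · simp [update_of_ne hl]
  rw [e] at h
  exact div_ne_zero h (hgp _ hinj)

/-- if the weights fit, then the cone contains the point. -/
theorem S1_cone {V : Type} [Fintype V] {m : ℕ} (x : V → Fin m → ℝ) (hgp : GP x)
    (Q : Fin m → V) (hinj : Injective Q) (v : Fin m → V) (g : Fin m → ℝ) (hg : ∀ i, 0 < g i)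
    (hpos : ∀ i, 0 < coef x Q (v i) i)
    (hA : ∀ i j, i ≠ j → S1_A x Q i j (v i) * g i ≤ (1 / (4 * m)) * g j) :
    InCone x v (S1_y x Q g) := by
  obtain ⟨t, ht, hs⟩ := positivity (m := m) (fun i j => coef x Q (v i) j) g hg hpos (by
    intro i j hij
    have h := hA i j hij
    unfold S1_A at h
    have hc := hpos i
    have h2 : |coef x Q (v i) j| * g i = coef x Q (v i) i * (|coef x Q (v i) j| / coef x Q (v i) i * g i) := by
      field_simp
    rw [h2]
    calc coef x Q (v i) i * (|coef x Q (v i) j| / coef x Q (v i) i * g i)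
        ≤ coef x Q (v i) i * ((1 / (4 * m)) * g j) := mul_le_mul_of_nonneg_left h hc.le
      _ = (1 / (4 * m)) * (coef x Q (v i) i * g j) := by ring)
  refine ⟨t, ht, ?_⟩
  have hx : ∀ i, x (v i) = ∑ j, coef x Q (v i) j • x (Q j) := by
    intro i
    exact cramer_rows (fun l => x (Q l)) (hgp _ hinj) (x (v i))
  unfold S1_y
  calc ∑ j, g j • x (Q j) = ∑ j, (∑ i, t i * coef x Q (v i) j) • x (Q j) := by
        refine Finset.sum_congr rfl fun j _ => ?_
        rw [hs j]
    _ = ∑ j, ∑ i, (t i * coef x Q (v i) j) • x (Q j) := by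
        refine Finset.sum_congr rfl fun j _ => ?_
        rw [Finset.sum_smul]
    _ = ∑ i, ∑ j, (t i * coef x Q (v i) j) • x (Q j) := Finset.sum_comm
    _ = ∑ i, t i • x (v i) := by
        refine Finset.sum_congr rfl fun i _ => ?_
        conv_rhs => rw [hx i, Finset.smul_sum]
        refine Finset.sum_congr rfl fun j _ => ?_
        rw [mul_smul]

/-- selection, before the choice of parameters. -/
theorem select_pre (m : ℕ) (hm : 2 ≤ m) : ∃ C : ℝ, 0 < C ∧
    ∀ (V : Type) [Fintype V] (x : V → Fin m → ℝ), GP x → 1 ≤ Fintype.card V →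
    ∀ (q : V → V), (∀ v, q (q v) = q v) → ∀ κ F r : ℝ,
      ((univ.image q).card : ℝ) ≤ r →
      (∀ c, ((univ.filter (fun v => q v = c)).card : ℝ) ≤ F) →
      (∀ φ : Fin m → ℝ,
        ((univ.filter (fun v => (φ ⬝ᵥ x v) * (φ ⬝ᵥ x (q v)) < 0)).card : ℝ) ≤ κ) →
      ∀ K : ℕ, 1 ≤ K → ∀ T : Finset (Fin m → V), ∃ y : Fin m → ℝ,
        (T.card : ℝ) - C * ((κ + r + F) * (Fintype.card V : ℝ) ^ (m - 1) +
            (Fintype.card V : ℝ) ^ m / K) ≤
          C * r ^ m * (K : ℝ) ^ (m - 1) *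
            ((T.filter (fun v => Injective v ∧ InCone x v y)).card : ℝ) := by
  have hm1 : 1 ≤ m := by omega
  have hmR : (0 : ℝ) < m := by exact_mod_cast (by omega : 0 < m)
  set δ : ℝ := 1 / (4 * m) with hδdef
  have hδ : 0 < δ := by positivity
  have hδ1 : δ ≤ 1 := by
    rw [hδdef, div_le_one (by positivity)]
    have : (1 : ℝ) ≤ m := by exact_mod_cast hm1
    linarith
  obtain ⟨L, hL, hstruct⟩ := nice_struct m (δ ^ m) (by positivity)
  set C1 : ℝ := 2 ^ m * m ^ 2 * (8 * L + 17) with hC1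
  have hC1pos : 0 ≤ C1 := by positivity
  set Nc : ℝ := (m : ℝ) ^ (m + 1) with hNc
  have hNcpos : 0 ≤ Nc := by positivity
  set C : ℝ := (1 + Nc) * C1 + Nc * m + (m : ℝ) ^ m * 2 ^ (m - 1) with hC
  have hCpos : 0 < C := by positivity
  refine ⟨C, hCpos, ?_⟩
  intro V _ x hgp hV q hq κ F r hr hF hκ K hK T
  have hr0 : 0 ≤ r := le_trans (by positivity) hr
  have hκ0 : 0 ≤ κ := le_trans (by positivity) (hκ 0)
  obtain ⟨v0⟩ : Nonempty V := Fintype.card_pos_iff.1 (by omega)
  have hF0 : 0 ≤ F := le_trans (by positivity) (hF v0)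
  have hKR : (0 : ℝ) < K := by exact_mod_cast (by omega : 0 < K)
  set n : ℝ := (Fintype.card V : ℝ) with hn
  have hn0 : 0 ≤ n := by positivity
  -- not nice tuples
  set NN : Finset (Fin m → V) := univ.filter (fun v : Fin m → V => ¬ Nice x q (1 / L) v) with hNN
  have hB : (NN.card : ℝ) ≤ C1 * (κ + r + F) * n ^ (m - 1) := by
    have := count_not_nice hm1 x hgp q hq κ F r hV hr hF hκ L hL
    exact this
  set QQ : Finset (Fin m → V) := Fintype.piFinset (fun _ => univ.image q) with hQQ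
  have hQQcard : (QQ.card : ℝ) ≤ r ^ m := by
    rw [hQQ, Fintype.card_piFinset]
    simp only [Finset.prod_const, Finset.card_univ, Fintype.card_fin]
    push_cast
    exact pow_le_pow_left₀ (by positivity) hr m
  -- the weights for each frame
  have key : ∀ Q : Fin m → V, ∃ G : Finset (Fin m → ℝ),
      G.card ≤ m ^ m * (2 * K) ^ (m - 1) ∧ (∀ g ∈ G, ∀ i, 0 < g i) ∧
      (Q ∈ QQ → Injective Q →
        K * ((Fintype.piFinset (S1_X x q Q)).filter (fun v => ¬ ∃ g ∈ G, ∀ i j, i ≠ j →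
          S1_A x Q i j (v i) * g i ≤ δ * g j)).card ≤
        m ^ (m + 1) * (K * ((Fintype.piFinset (S1_X x q Q)).filter (fun v =>
          ∃ (k : ℕ) (f : Fin (k + 2) → Fin m), Injective f ∧
            δ ^ m < ∏ a, S1_A x Q (f a) (f (a + 1)) (v (f a)))).card +
          m * (Fintype.piFinset (S1_X x q Q)).card)) := by
    intro Q
    by_cases hc : Q ∈ QQ ∧ Injective Q
    · have hQmem : ∀ i, Q i ∈ univ.image q := fun i => (Fintype.mem_piFinset.1 hc.1) i
      obtain ⟨G, h1, h2, h3⟩ := box hm1 (S1_X x q Q) (S1_A x Q) (by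
        intro i j hij a ha
        simp only [S1_X, Finset.mem_filter, Finset.mem_univ, true_and] at ha
        unfold S1_A
        exact div_pos (abs_pos.2 (S1_coef_ne x hgp q hq Q hQmem hc.2 i j hij a ha.1 ha.2.1))
          ha.2.2) K hK δ hδ hδ1
      exact ⟨G, h1, h2, fun _ _ => h3⟩
    · exact ⟨∅, by simp, by simp, fun h1 h2 => absurd ⟨h1, h2⟩ hc⟩
  choose G hG1 hG2 hG3 using key
  set QI : Finset (Fin m → V) := QQ.filter Injective with hQI
  -- bad tuples in the boxes
  set BB : (Fin m → V) → Finset (Fin m → V) := fun Q =>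
    (Fintype.piFinset (S1_X x q Q)).filter (fun v => ¬ ∃ g ∈ G Q, ∀ i j, i ≠ j →
          S1_A x Q i j (v i) * g i ≤ δ * g j) with hBB
  set CC : (Fin m → V) → Finset (Fin m → V) := fun Q =>
    (Fintype.piFinset (S1_X x q Q)).filter (fun v =>
          ∃ (k : ℕ) (f : Fin (k + 2) → Fin m), Injective f ∧
            δ ^ m < ∏ a, S1_A x Q (f a) (f (a + 1)) (v (f a))) with hCC
  have hframe : ∀ Q : Fin m → V, ∀ v ∈ Fintype.piFinset (S1_X x q Q), (fun l => q (v l)) = Q := by
    intro Q v hv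
    funext l
    have := (Fintype.mem_piFinset.1 hv) l
    simp only [S1_X, Finset.mem_filter, Finset.mem_univ, true_and] at this
    exact this.1
  -- disjointness
  have hdisj : ∀ (W : (Fin m → V) → Finset (Fin m → V)),
      (∀ Q, W Q ⊆ Fintype.piFinset (S1_X x q Q)) →
      ∀ U : Finset (Fin m → V), (∀ Q ∈ QI, W Q ⊆ U) → ∑ Q ∈ QI, (W Q).card ≤ U.card := by
    intro W hW U hU
    rw [← Finset.card_biUnion]
    · exact Finset.card_le_card (Finset.biUnion_subset.2 hU)
    · intro Q _ Q' _ hne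
      rw [Function.onFun, Finset.disjoint_left]
      intro v hv hv'
      exact hne ((hframe Q v (hW Q hv)).symm.trans (hframe Q' v (hW Q' hv')))
  have hsumC : ∑ Q ∈ QI, (CC Q).card ≤ NN.card := by
    refine hdisj CC (fun Q => Finset.filter_subset _ _) NN ?_
    intro Q hQ v hv
    rw [hCC] at hv
    obtain ⟨hv1, k, f, hf, hlt⟩ := Finset.mem_filter.1 hv
    rw [hNN, Finset.mem_filter]
    refine ⟨Finset.mem_univ _, fun hnice => ?_⟩
    have hst := (hstruct V x hgp q v hnice).2 k f hf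
    have hfr := hframe Q v hv1
    rw [hfr] at hst
    exact absurd hst (not_le.2 hlt)
  have hsumP : ∑ Q ∈ QI, (Fintype.piFinset (S1_X x q Q)).card ≤
      (univ : Finset (Fin m → V)).card :=
    hdisj (fun Q => Fintype.piFinset (S1_X x q Q)) (fun Q => Finset.Subset.refl _) univ
      (fun Q _ => Finset.subset_univ _)
  have hsumB : (∑ Q ∈ QI, ((BB Q).card : ℝ)) ≤ Nc * (NN.card + m * (n ^ m / K)) := by
    have h1 : ∀ Q ∈ QI, (K : ℝ) * ((BB Q).card : ℝ) ≤
        Nc * (K * ((CC Q).card : ℝ) + m * ((Fintype.piFinset (S1_X x q Q)).card : ℝ)) := by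
      intro Q hQ
      rw [hQI, Finset.mem_filter] at hQ
      have := hG3 Q hQ.1 hQ.2
      have h' : ((K * (BB Q).card : ℕ) : ℝ) ≤ ((m ^ (m + 1) * (K * (CC Q).card +
          m * (Fintype.piFinset (S1_X x q Q)).card) : ℕ) : ℝ) := by
        exact_mod_cast this
      push_cast at h'
      simpa [hNc] using h'
    have h2 : (K : ℝ) * ∑ Q ∈ QI, ((BB Q).card : ℝ) ≤
        Nc * (K * (∑ Q ∈ QI, ((CC Q).card : ℝ)) +
          m * ∑ Q ∈ QI, ((Fintype.piFinset (S1_X x q Q)).card : ℝ)) := by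
      rw [Finset.mul_sum]
      refine (Finset.sum_le_sum h1).trans (le_of_eq ?_)
      rw [← Finset.mul_sum, Finset.sum_add_distrib, Finset.mul_sum, Finset.mul_sum]
    have h3 : (∑ Q ∈ QI, ((CC Q).card : ℝ)) ≤ NN.card := by exact_mod_cast hsumC
    have h4 : (∑ Q ∈ QI, ((Fintype.piFinset (S1_X x q Q)).card : ℝ)) ≤ n ^ m := by
      have h5 : (((univ : Finset (Fin m → V)).card : ℕ) : ℝ) = n ^ m := by
        rw [Finset.card_univ, Fintype.card_fun, Fintype.card_fin]
        push_cast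
        rfl
      rw [← h5]
      exact_mod_cast hsumP
    have h6 : (K : ℝ) * ∑ Q ∈ QI, ((BB Q).card : ℝ) ≤ Nc * (K * NN.card + m * n ^ m) := by
      refine h2.trans (mul_le_mul_of_nonneg_left ?_ hNcpos)
      exact add_le_add (mul_le_mul_of_nonneg_left h3 hKR.le)
        (mul_le_mul_of_nonneg_left h4 hmR.le)
    have h7 : Nc * (K * NN.card + m * n ^ m) = K * (Nc * (NN.card + m * (n ^ m / K))) := by
      field_simp
    rw [h7] at h6
    exact le_of_mul_le_mul_left h6 hKR
  -- the candidate points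
  set f : (Fin m → ℝ) → ℕ := fun y =>
    (T.filter (fun v => Injective v ∧ InCone x v y)).card with hf
  set YY : Finset (Fin m → ℝ) := QI.biUnion (fun Q => (G Q).image (S1_y x Q)) with hYY
  have hYcard : (YY.card : ℝ) ≤ r ^ m * ((m : ℝ) ^ m * (2 * K) ^ (m - 1)) := by
    have h1 : YY.card ≤ QQ.card * (m ^ m * (2 * K) ^ (m - 1)) := by
      refine (Finset.card_biUnion_le_card_mul _ _ _ fun Q _ =>
        (Finset.card_image_le.trans (hG1 Q))).trans ?_
      exact Nat.mul_le_mul_right _ (Finset.card_le_card (Finset.filter_subset _ _))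
    have h2 : (YY.card : ℝ) ≤ QQ.card * ((m : ℝ) ^ m * (2 * K) ^ (m - 1)) := by
      exact_mod_cast h1
    refine h2.trans (mul_le_mul_of_nonneg_right hQQcard (by positivity))
  obtain ⟨y, hy⟩ : ∃ y, ∀ y' ∈ YY, f y' ≤ f y := by
    rcases YY.eq_empty_or_nonempty with h | h
    · exact ⟨0, by simp [h]⟩
    · obtain ⟨y, _, hy⟩ := Finset.exists_max_image YY f h
      exact ⟨y, hy⟩
  refine ⟨y, ?_⟩
  -- covering T
  have hcover : T ⊆ NN ∪ (QI.biUnion BB) ∪
      (YY.biUnion (fun y' => T.filter (fun v => Injective v ∧ InCone x v y'))) := by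
    intro v hvT
    by_cases hnice : Nice x q (1 / L) v
    · set Q : Fin m → V := fun l => q (v l) with hQdef
      have hst := hstruct V x hgp q v hnice
      have hQinj : Injective Q := hnice.basic.injq
      have hQmem : Q ∈ QI := by
        rw [hQI, Finset.mem_filter, hQQ, Fintype.mem_piFinset]
        exact ⟨fun i => Finset.mem_image_of_mem q (Finset.mem_univ _), hQinj⟩
      have hvX : v ∈ Fintype.piFinset (S1_X x q Q) := by
        rw [Fintype.mem_piFinset]
        intro i
        simp only [S1_X, Finset.mem_filter, Finset.mem_univ, true_and]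
        exact ⟨rfl, (hnice.basic.ne i).symm, hst.1 i⟩
      by_cases hb : ∃ g ∈ G Q, ∀ i j, i ≠ j → S1_A x Q i j (v i) * g i ≤ δ * g j
      · obtain ⟨g, hg, hgA⟩ := hb
        refine Finset.mem_union_right _ (Finset.mem_biUnion.2 ⟨S1_y x Q g, ?_, ?_⟩)
        · exact Finset.mem_biUnion.2 ⟨Q, hQmem, Finset.mem_image_of_mem _ hg⟩
        · rw [Finset.mem_filter]
          exact ⟨hvT, hnice.basic.inj, S1_cone x hgp Q hQinj v g (hG2 Q g hg) hst.1 hgA⟩
      · refine Finset.mem_union_left _ (Finset.mem_union_right _ ?_)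
        refine Finset.mem_biUnion.2 ⟨Q, hQmem, ?_⟩
        rw [hBB, Finset.mem_filter]
        exact ⟨hvX, hb⟩
    · refine Finset.mem_union_left _ (Finset.mem_union_left _ ?_)
      rw [hNN, Finset.mem_filter]
      exact ⟨Finset.mem_univ _, hnice⟩
  have hcount : (T.card : ℝ) ≤ NN.card + (∑ Q ∈ QI, ((BB Q).card : ℝ)) + YY.card * f y := by
    have h1 : T.card ≤ NN.card + (∑ Q ∈ QI, (BB Q).card) + YY.card * f y := by
      refine (Finset.card_le_card hcover).trans ?_
      refine (Finset.card_union_le _ _).trans (Nat.add_le_add ?_ ?_)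
      · refine (Finset.card_union_le _ _).trans (Nat.add_le_add_left Finset.card_biUnion_le _)
      · exact Finset.card_biUnion_le_card_mul _ _ _ fun y' hy' => hy y' hy'
    exact_mod_cast h1
  have hfin : (T.card : ℝ) ≤ (1 + Nc) * (C1 * (κ + r + F) * n ^ (m - 1)) + Nc * m * (n ^ m / K) +
      (r ^ m * ((m : ℝ) ^ m * (2 * K) ^ (m - 1))) * f y := by
    have h1 : (YY.card : ℝ) * f y ≤ (r ^ m * ((m : ℝ) ^ m * (2 * K) ^ (m - 1))) * f y :=
      mul_le_mul_of_nonneg_right hYcard (by positivity)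
    have h2 : (NN.card : ℝ) + Nc * (NN.card + m * (n ^ m / K)) ≤
        (1 + Nc) * (C1 * (κ + r + F) * n ^ (m - 1)) + Nc * m * (n ^ m / K) := by
      have := mul_le_mul_of_nonneg_left hB (by positivity : (0 : ℝ) ≤ 1 + Nc)
      nlinarith [this]
    linarith [hcount, hsumB]
  have hs0 : 0 ≤ κ + r + F := by positivity
  have hA1 : (1 + Nc) * (C1 * (κ + r + F) * n ^ (m - 1)) ≤ C * ((κ + r + F) * n ^ (m - 1)) := by
    have : (1 + Nc) * C1 ≤ C := by
      rw [hC]
      have h1 : 0 ≤ Nc * m := by positivity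
      have h2 : (0 : ℝ) ≤ (m : ℝ) ^ m * 2 ^ (m - 1) := by positivity
      linarith
    calc (1 + Nc) * (C1 * (κ + r + F) * n ^ (m - 1))
        = ((1 + Nc) * C1) * ((κ + r + F) * n ^ (m - 1)) := by ring
      _ ≤ C * ((κ + r + F) * n ^ (m - 1)) := mul_le_mul_of_nonneg_right this (by positivity)
  have hA2 : Nc * m * (n ^ m / K) ≤ C * (n ^ m / K) := by
    refine mul_le_mul_of_nonneg_right ?_ (by positivity)
    rw [hC]
    have h1 : 0 ≤ (1 + Nc) * C1 := by positivity
    have h2 : (0 : ℝ) ≤ (m : ℝ) ^ m * 2 ^ (m - 1) := by positivity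
    linarith
  have hA3 : (r ^ m * ((m : ℝ) ^ m * (2 * K) ^ (m - 1))) * f y ≤
      C * r ^ m * (K : ℝ) ^ (m - 1) * f y := by
    refine mul_le_mul_of_nonneg_right ?_ (by positivity)
    have h3 : r ^ m * ((m : ℝ) ^ m * (2 * K) ^ (m - 1)) =
        ((m : ℝ) ^ m * 2 ^ (m - 1)) * (r ^ m * (K : ℝ) ^ (m - 1)) := by
      rw [mul_pow]; ring
    have h4 : C * r ^ m * (K : ℝ) ^ (m - 1) = C * (r ^ m * (K : ℝ) ^ (m - 1)) := by ring
    rw [h3, h4]
    refine mul_le_mul_of_nonneg_right ?_ (by positivity)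
    rw [hC]
    have h1 : 0 ≤ (1 + Nc) * C1 := by positivity
    have h2 : 0 ≤ Nc * m := by positivity
    linarith
  have : C * ((κ + r + F) * n ^ (m - 1) + n ^ m / K) =
      C * ((κ + r + F) * n ^ (m - 1)) + C * (n ^ m / K) := by ring
  rw [this]
  linarith [hfin, hA1, hA2, hA3]

end KS39
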