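import Pool.Agent.LibKS39.A2
import Pool.Agent.LibKS39.C3
import Pool.Agent.LibKS39.S1
import Pool.Agent.LibKS39.Defs

open Finset Function
open scoped Classical

namespace KS39

/-- numerical part of the choice of parameters -/
private theorem S2_num (M : ℕ) (A α N L s P : ℝ) (hA : 0 < A) (hα : 0 < α) (hα1 : α ≤ 1)
    (hN : 3 ≤ N) (hL : L = Real.log N) (hs1 : 1 ≤ s)
    (hs : 8 * A * (4 + 3 * ((M + 1 : ℕ) : ℝ)) * L / α ≤ s)
    (hs2 : s < 8 * A * (4 + 3 * ((M + 1 : ℕ) : ℝ)) * L / α + 1)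
    (hP1 : s ≤ P) (hP2 : P ≤ (s + 1) ^ M)
    (hC : 8 * A * (3 * ((M + 1 : ℕ) : ℝ) +
      2 * (8 * A * (4 + 3 * ((M + 1 : ℕ) : ℝ)) + 2) ^ M) * L ^ (M + 1) ≤ α ^ (M + 1) * N) :
    P * L + 1 ≤ 2 * (8 * A * (4 + 3 * ((M + 1 : ℕ) : ℝ)) + 2) ^ M * (L ^ (M + 1) / α ^ M) ∧
    ((N / P + 1) * (((M + 1 : ℕ) : ℝ) * Real.log (N + 1)) + 4 * N * L / s) + (P * L + 1) +
      (N / P + 1) ≤ α * N / (4 * A) := by
  set mm : ℝ := ((M + 1 : ℕ) : ℝ) with hmm
  set Cs : ℝ := 8 * A * (4 + 3 * mm) with hCs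
  set R0 : ℝ := 2 * (Cs + 2) ^ M with hR0
  have hmm1 : 1 ≤ mm := by rw [hmm]; exact_mod_cast Nat.succ_le_succ (Nat.zero_le M)
  have hL1 : 1 ≤ L := by
    rw [hL, Real.le_log_iff_exp_le (by linarith)]
    have := Real.exp_one_lt_d9
    linarith
  have hL0 : 0 < L := by linarith
  have hCs0 : 0 < Cs := by positivity
  have hR00 : 0 < R0 := by positivity
  have hLα : 1 ≤ L / α := by
    rw [le_div_iff₀ hα]; linarith
  have hs0 : 0 < s := by linarith
  have hP0 : 0 < P := lt_of_lt_of_le hs0 hP1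
  have hP1' : 1 ≤ P := le_trans hs1 hP1
  have hN0 : 0 < N := by linarith
  -- the quantity Q
  set Q : ℝ := L ^ (M + 1) / α ^ M with hQ
  have hαM : 0 < α ^ M := by positivity
  have hαM1 : α ^ M ≤ 1 := pow_le_one₀ hα.le hα1
  have hLQ : L ≤ Q := by
    rw [hQ, le_div_iff₀ hαM]
    calc L * α ^ M ≤ L * 1 := mul_le_mul_of_nonneg_left hαM1 (by linarith)
      _ = L ^ 1 := by ring
      _ ≤ L ^ (M + 1) := pow_le_pow_right₀ hL1 (by omega)
  have hCQ : 8 * A * (3 * mm + R0) * Q ≤ α * N := by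
    rw [hQ, ← mul_div_assoc, div_le_iff₀ hαM]
    calc 8 * A * (3 * mm + R0) * L ^ (M + 1) ≤ α ^ (M + 1) * N := hC
      _ = α * N * α ^ M := by ring
  have hPL : P * L + 1 ≤ R0 * Q := by
    have h1 : s + 1 ≤ (Cs + 2) * (L / α) := by
      have : s + 1 ≤ Cs * L / α + 2 := by linarith
      calc s + 1 ≤ Cs * L / α + 2 := this
        _ ≤ Cs * L / α + 2 * (L / α) := by linarith
        _ = (Cs + 2) * (L / α) := by ring
    have h2 : P ≤ ((Cs + 2) * (L / α)) ^ M :=
      le_trans hP2 (pow_le_pow_left₀ (by linarith) h1 M)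
    have h3 : 1 ≤ P * L := by nlinarith
    calc P * L + 1 ≤ 2 * (P * L) := by linarith
      _ ≤ 2 * (((Cs + 2) * (L / α)) ^ M * L) := by
          apply mul_le_mul_of_nonneg_left _ (by norm_num)
          exact mul_le_mul_of_nonneg_right h2 hL0.le
      _ = R0 * Q := by
          rw [hR0, hQ, mul_pow, div_pow]
          ring
  refine ⟨hPL, ?_⟩
  have hBL : N / P * L ≤ α * N / Cs := by
    rw [div_mul_eq_mul_div, div_le_div_iff₀ hP0 hCs0]
    have h1 : Cs * L ≤ P * α := by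
      have : Cs * L / α ≤ P := le_trans hs hP1
      rwa [div_le_iff₀ hα] at this
    calc N * L * Cs = N * (Cs * L) := by ring
      _ ≤ N * (P * α) := mul_le_mul_of_nonneg_left h1 hN0.le
      _ = α * N * P := by ring
  have hsL : 4 * N * L / s ≤ 4 * (α * N / Cs) := by
    rw [← mul_div_assoc, div_le_div_iff₀ hs0 hCs0]
    have h1 : Cs * L ≤ s * α := by rwa [div_le_iff₀ hα] at hs
    calc 4 * N * L * Cs = 4 * N * (Cs * L) := by ring
      _ ≤ 4 * N * (s * α) := mul_le_mul_of_nonneg_left h1 (by linarith)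
      _ = 4 * (α * N) * s := by ring
  have hlog : Real.log (N + 1) ≤ 2 * L := by
    have h1 : Real.log (N + 1) ≤ Real.log (N ^ 2) := by
      apply Real.log_le_log (by linarith)
      nlinarith
    rw [Real.log_pow] at h1
    rw [hL]
    simpa using h1
  have hlog0 : 0 ≤ Real.log (N + 1) := Real.log_nonneg (by linarith)
  have hB0 : 0 ≤ N / P := by positivity
  have hmL : 1 ≤ mm * L := by nlinarith
  have e1 : (N / P + 1) * (mm * Real.log (N + 1)) + (N / P + 1) ≤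
      3 * mm * (N / P * L + L) := by
    have : (N / P + 1) * (mm * Real.log (N + 1)) ≤ (N / P + 1) * (mm * (2 * L)) := by
      apply mul_le_mul_of_nonneg_left _ (by linarith)
      exact mul_le_mul_of_nonneg_left hlog (by linarith)
    have h2 : (N / P + 1) * 1 ≤ (N / P + 1) * (mm * L) :=
      mul_le_mul_of_nonneg_left hmL (by linarith)
    calc (N / P + 1) * (mm * Real.log (N + 1)) + (N / P + 1)
        ≤ (N / P + 1) * (mm * (2 * L)) + (N / P + 1) * (mm * L) := by linarith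
      _ = 3 * mm * (N / P * L + L) := by ring
  have e2 : 3 * mm * (N / P * L + L) ≤ 3 * mm * (α * N / Cs + Q) := by
    apply mul_le_mul_of_nonneg_left _ (by linarith)
    linarith
  have e3 : α * N / Cs * (4 + 3 * mm) = α * N / (8 * A) := by
    rw [hCs]
    field_simp
  have e4 : (3 * mm + R0) * Q ≤ α * N / (8 * A) := by
    rw [le_div_iff₀ (by positivity)]
    calc (3 * mm + R0) * Q * (8 * A) = 8 * A * (3 * mm + R0) * Q := by ring
      _ ≤ α * N := hCQ
  have e5 : α * N / (4 * A) = α * N / (8 * A) + α * N / (8 * A) := by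
    field_simp
    norm_num
  calc ((N / P + 1) * (mm * Real.log (N + 1)) + 4 * N * L / s) + (P * L + 1) + (N / P + 1)
      = ((N / P + 1) * (mm * Real.log (N + 1)) + (N / P + 1)) + 4 * N * L / s + (P * L + 1) := by
        ring
    _ ≤ 3 * mm * (α * N / Cs + Q) + 4 * (α * N / Cs) + R0 * Q := by linarith
    _ = α * N / Cs * (4 + 3 * mm) + (3 * mm + R0) * Q := by ring
    _ ≤ α * N / (8 * A) + α * N / (8 * A) := by rw [e3]; linarith
    _ = α * N / (4 * A) := e5.symm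

/-- second selection lemma with exponent `m ^ 2` (up to logarithms). -/
theorem selection (m : ℕ) (hm : 2 ≤ m) : ∃ C c : ℝ, 0 < C ∧ 0 < c ∧
    ∀ (V : Type) [Fintype V] (x : V → Fin m → ℝ) (ℓ : Fin m → ℝ), (∀ v, ℓ ⬝ᵥ x v = 1) →
      GP x → 3 ≤ Fintype.card V → ∀ (T : Finset (Fin m → V)) (α : ℝ), 0 < α →
      α * (Fintype.card V : ℝ) ^ m ≤ T.card →
      C * Real.log (Fintype.card V) ^ m ≤ α ^ m * Fintype.card V →
      ∃ y : Fin m → ℝ, c * α ^ (m ^ 2) * (Fintype.card V : ℝ) ^ m ≤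
        Real.log (Fintype.card V) ^ (m ^ 2) *
          ((T.filter (fun v => Injective v ∧ InCone x v y)).card : ℝ) := by
  obtain ⟨M, rfl⟩ : ∃ M, m = M + 1 := ⟨m - 1, by omega⟩
  obtain ⟨A, hA, hS⟩ := select_pre (M + 1) hm
  set mm : ℝ := ((M + 1 : ℕ) : ℝ) with hmm
  have hmm1 : 1 ≤ mm := by rw [hmm]; exact_mod_cast Nat.succ_le_succ (Nat.zero_le M)
  set Cs : ℝ := 8 * A * (4 + 3 * mm) with hCs
  set R0 : ℝ := 2 * (Cs + 2) ^ M with hR0
  have hCs0 : 0 < Cs := by positivity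
  have hR00 : 0 < R0 := by positivity
  refine ⟨8 * A * (3 * mm + R0), 1 / (2 * A * R0 ^ (M + 1) * (8 * A + 1) ^ M),
    by positivity, by positivity, ?_⟩
  intro V _ x ℓ hℓ hGP hn T α hα hT hC
  set N : ℝ := (Fintype.card V : ℝ) with hN
  have hN3 : (3 : ℝ) ≤ N := by rw [hN]; exact_mod_cast hn
  have hN0 : 0 < N := by linarith
  set L : ℝ := Real.log N with hL
  have hL1 : 1 ≤ L := by
    rw [hL, Real.le_log_iff_exp_le (by linarith)]
    have := Real.exp_one_lt_d9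
    linarith
  have hL0 : 0 < L := by linarith
  have hα1 : α ≤ 1 := by
    have h1 : (T.card : ℝ) ≤ N ^ (M + 1) := by
      have : T.card ≤ Fintype.card V ^ (M + 1) := by
        refine le_trans (Finset.card_le_univ T) ?_
        simp
      rw [hN]
      exact_mod_cast this
    have h2 : α * N ^ (M + 1) ≤ 1 * N ^ (M + 1) := by linarith
    exact le_of_mul_le_mul_right h2 (by positivity)
  -- parameters
  set s : ℕ := ⌈Cs * L / α⌉₊ with hsdef
  have hsle : Cs * L / α ≤ (s : ℝ) := Nat.le_ceil _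
  have hslt : (s : ℝ) < Cs * L / α + 1 := Nat.ceil_lt_add_one (by positivity)
  have hs1 : 1 ≤ s := by
    rw [hsdef, Nat.one_le_ceil_iff]
    positivity
  set K : ℕ := ⌈8 * A / α⌉₊ with hKdef
  have hKle : 8 * A / α ≤ (K : ℝ) := Nat.le_ceil _
  have hKlt : (K : ℝ) < 8 * A / α + 1 := Nat.ceil_lt_add_one (by positivity)
  have hK1 : 1 ≤ K := by
    rw [hKdef, Nat.one_le_ceil_iff]
    positivity
  obtain ⟨q, hq, hr, hF, hκ⟩ := assign (by omega) x ℓ hℓ (by omega) s hs1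
  obtain ⟨y, hy⟩ := hS V x hGP (by omega) q hq _ _ _ hr hF hκ K hK1 T
  refine ⟨y, ?_⟩
  set X : ℝ := ((T.filter (fun v => Injective v ∧ InCone x v y)).card : ℝ) with hX
  have hX0 : 0 ≤ X := by rw [hX]; positivity
  set P : ℝ := (Phi (M + 1) s : ℝ) with hP
  have hP1 : (s : ℝ) ≤ P := by rw [hP]; exact_mod_cast le_Phi hm
  have hP2 : P ≤ ((s : ℝ) + 1) ^ M := by rw [hP]; exact_mod_cast Phi_le M s
  obtain ⟨hPL, hsum⟩ := S2_num M A α N L s P hA hα hα1 hN3 hL (by exact_mod_cast hs1) hsle hslt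
    hP1 hP2 hC
  set Q : ℝ := L ^ (M + 1) / α ^ M with hQ
  have hQ0 : 0 < Q := by positivity
  have hP0 : 0 < P := lt_of_lt_of_le (by exact_mod_cast hs1) hP1
  have hM : M + 1 - 1 = M := rfl
  rw [hM] at hy
  -- lower bound for the left side
  have hK0 : (0 : ℝ) < K := by exact_mod_cast hK1
  have l1 : A * ((((N / P + 1) * (mm * Real.log (N + 1)) + 4 * N * L / s) + (P * L + 1) +
      (N / P + 1)) * N ^ M) ≤ α * N ^ (M + 1) / 4 := by
    calc A * ((((N / P + 1) * (mm * Real.log (N + 1)) + 4 * N * L / s) + (P * L + 1) +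
          (N / P + 1)) * N ^ M) ≤ A * ((α * N / (4 * A)) * N ^ M) := by
            apply mul_le_mul_of_nonneg_left _ hA.le
            exact mul_le_mul_of_nonneg_right hsum (by positivity)
      _ = α * N ^ (M + 1) / 4 := by
            field_simp
            ring
  have l2 : A * (N ^ (M + 1) / K) ≤ α * N ^ (M + 1) / 8 := by
    have h1 : 8 * A ≤ K * α := by rwa [div_le_iff₀ hα] at hKle
    rw [← mul_div_assoc, div_le_div_iff₀ hK0 (by norm_num)]
    have h2 : 8 * A * N ^ (M + 1) ≤ K * α * N ^ (M + 1) :=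
      mul_le_mul_of_nonneg_right h1 (by positivity)
    linarith
  have l3 : α * N ^ (M + 1) / 2 ≤ A * (P * L + 1) ^ (M + 1) * (K : ℝ) ^ M * X := by
    have hpos : 0 < α * N ^ (M + 1) := by positivity
    have := hy
    have e : A * ((((N / P + 1) * (mm * Real.log (N + 1)) + 4 * N * L / s) + (P * L + 1) +
          (N / P + 1)) * N ^ M + N ^ (M + 1) / K) ≤ α * N ^ (M + 1) / 4 + α * N ^ (M + 1) / 8 := by
      rw [mul_add]
      linarith
    linarith
  -- upper bound for the right side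
  have hKle' : (K : ℝ) ≤ (8 * A + 1) / α := by
    have h1 : 1 ≤ 1 / α := by rw [le_div_iff₀ hα]; linarith
    calc (K : ℝ) ≤ 8 * A / α + 1 := hKlt.le
      _ ≤ 8 * A / α + 1 / α := by linarith
      _ = (8 * A + 1) / α := by ring
  have u1 : A * (P * L + 1) ^ (M + 1) * (K : ℝ) ^ M * X ≤
      A * (R0 * Q) ^ (M + 1) * ((8 * A + 1) / α) ^ M * X := by
    apply mul_le_mul_of_nonneg_right _ hX0
    have hPL0 : 0 ≤ P * L + 1 := by positivity
    apply mul_le_mul
    · apply mul_le_mul_of_nonneg_left _ hA.le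
      exact pow_le_pow_left₀ hPL0 hPL _
    · exact pow_le_pow_left₀ hK0.le hKle' _
    · positivity
    · positivity
  have u2 : A * (R0 * Q) ^ (M + 1) * ((8 * A + 1) / α) ^ M * X =
      (A * R0 ^ (M + 1) * (8 * A + 1) ^ M) * (L ^ ((M + 1) ^ 2) * X) /
        α ^ (M * (M + 1) + M) := by
    rw [hQ]
    have e1 : (M + 1) ^ 2 = (M + 1) * (M + 1) := by ring
    rw [e1, pow_add α, pow_mul α, pow_mul L]
    rw [mul_pow, div_pow, div_pow]
    field_simp
  have hfin : α * N ^ (M + 1) / 2 ≤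
      (A * R0 ^ (M + 1) * (8 * A + 1) ^ M) * (L ^ ((M + 1) ^ 2) * X) /
        α ^ (M * (M + 1) + M) := by
    rw [← u2]; exact le_trans l3 u1
  rw [le_div_iff₀ (by positivity)] at hfin
  have e2 : (M + 1) ^ 2 = M * (M + 1) + M + 1 := by ring
  have e3 : α * N ^ (M + 1) / 2 * α ^ (M * (M + 1) + M) =
      α ^ ((M + 1) ^ 2) * N ^ (M + 1) / 2 := by
    rw [e2, pow_succ]
    ring
  rw [e3] at hfin
  rw [div_mul_eq_mul_div, div_mul_eq_mul_div, div_le_iff₀ (by positivity)]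
  calc 1 * α ^ (M + 1) ^ 2 * N ^ (M + 1)
      = 2 * (α ^ ((M + 1) ^ 2) * N ^ (M + 1) / 2) := by ring
    _ ≤ 2 * ((A * R0 ^ (M + 1) * (8 * A + 1) ^ M) * (L ^ ((M + 1) ^ 2) * X)) := by
        linarith
    _ = L ^ (M + 1) ^ 2 * X * (2 * A * R0 ^ (M + 1) * (8 * A + 1) ^ M) := by ring

end KS39
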