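import Pool.Agent.LibKS39.L7
import Pool.Agent.LibKS39.S2
import Pool.Agent.LibKS39.Defs

open Finset Function
open scoped Classical

namespace KS39

theorem Z1_root (p : ℕ) (hp : p ≠ 0) (β K n : ℝ) (hβ : 0 ≤ β) (hK : 0 ≤ K) (hn : 0 < n)
    (h : β ^ p * n ≤ K) : β ≤ K ^ ((p : ℝ)⁻¹) * n ^ (-(p : ℝ)⁻¹) := by
  have h1 : β ^ p ≤ K / n := by rw [le_div_iff₀ hn]; exact h
  have h2 : β = (β ^ p) ^ ((p : ℝ)⁻¹) := (Real.pow_rpow_inv_natCast hβ hp).symm
  have h3 : (β ^ p) ^ ((p : ℝ)⁻¹) ≤ (K / n) ^ ((p : ℝ)⁻¹) :=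
    Real.rpow_le_rpow (pow_nonneg hβ p) h1 (by positivity)
  rw [h2]
  refine h3.trans (le_of_eq ?_)
  rw [Real.div_rpow hK hn.le, Real.rpow_neg hn.le, div_eq_mul_inv]

/-- the bound in homogeneous form. -/
theorem homogeneous_bound (m : ℕ) (hm : 2 ≤ m) : ∃ C : ℝ, 0 < C ∧
    ∀ (V : Type) [Fintype V] (x : V → Fin m → ℝ) (ℓ : Fin m → ℝ), (∀ v, ℓ ⬝ᵥ x v = 1) →
      GP x → 3 ≤ Fintype.card V → ∀ h : V → ℝ,
      (∀ ψ : Fin m → ℝ, (univ.filter (fun p => ψ ⬝ᵥ x p = h p)).card ≤ m) → ∀ k k' : ℕ,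
      ((univ.filter (fun v : Fin m → V => Injective v ∧
        (Lev x h v k ∨ Lev x h v k'))).card : ℝ) ≤
        C * (Fintype.card V : ℝ) ^ ((m : ℝ) - 1 / (m : ℝ) ^ 2) *
          Real.log (Fintype.card V) := by
  obtain ⟨C, c, hC, hc, hsel⟩ := selection m hm
  have hm0 : (0 : ℝ) < m := by exact_mod_cast (by omega : 0 < m)
  refine ⟨C ^ ((m : ℝ)⁻¹) + (2 * m / c) ^ (((m ^ 2 : ℕ) : ℝ)⁻¹), by positivity, ?_⟩
  intro V _ x ℓ hℓ hgp hcard h hh k k'
  set T := univ.filter (fun v : Fin m → V => Injective v ∧ (Lev x h v k ∨ Lev x h v k')) with hT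
  set n : ℝ := (Fintype.card V : ℝ) with hn
  have hn3 : (3 : ℝ) ≤ n := by rw [hn]; exact_mod_cast hcard
  have hn0 : 0 < n := by linarith
  have hn1 : 1 ≤ n := by linarith
  have hL : 0 < Real.log n := Real.log_pos (by linarith)
  set L := Real.log n with hLdef
  set N : ℝ := (T.card : ℝ) with hN
  have hN0 : 0 ≤ N := by rw [hN]; positivity
  -- normalised density
  set β : ℝ := N / n ^ m / L with hβ
  have hβ0 : 0 ≤ β := by rw [hβ]; positivity
  have hkey : β ≤ (C ^ ((m : ℝ)⁻¹) + (2 * m / c) ^ (((m ^ 2 : ℕ) : ℝ)⁻¹)) *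
      n ^ (-(((m ^ 2 : ℕ) : ℝ)⁻¹)) := by
    rcases eq_or_lt_of_le hN0 with h0 | hpos
    · have : β = 0 := by rw [hβ, ← h0]; simp
      rw [this]; positivity
    · set α : ℝ := N / n ^ m with hα
      have hα0 : 0 < α := by rw [hα]; positivity
      have hαβ : α = β * L := by rw [hβ]; field_simp
      have hnm : α * n ^ m = N := by rw [hα]; field_simp
      by_cases hcase : C * L ^ m ≤ α ^ m * n
      · obtain ⟨y, hy⟩ := hsel V x ℓ hℓ hgp hcard T α hα0 (le_of_eq hnm) hcase
        have hsub : ((T.filter (fun v => Injective v ∧ InCone x v y)).card : ℝ) ≤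
            2 * m * n ^ (m - 1) := by
          have h1 := lovasz hm x ℓ hℓ hgp h hh k y
          have h2 := lovasz hm x ℓ hℓ hgp h hh k' y
          have h3 : (T.filter (fun v => Injective v ∧ InCone x v y)).card ≤
              (univ.filter (fun v : Fin m → V => Injective v ∧ InCone x v y ∧ Lev x h v k)).card +
              (univ.filter (fun v : Fin m → V =>
                Injective v ∧ InCone x v y ∧ Lev x h v k')).card := by
            refine (card_le_card ?_).trans (card_union_le _ _)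
            intro v hv
            simp only [hT, mem_filter, mem_univ, true_and, mem_union] at hv ⊢
            rcases hv with ⟨⟨hi, hk | hk⟩, _, hcone⟩
            · exact Or.inl ⟨hi, hcone, hk⟩
            · exact Or.inr ⟨hi, hcone, hk⟩
          have h4 : ((T.filter (fun v => Injective v ∧ InCone x v y)).card : ℝ) ≤
              ((univ.filter (fun v : Fin m → V =>
                Injective v ∧ InCone x v y ∧ Lev x h v k)).card : ℝ) +
              ((univ.filter (fun v : Fin m → V =>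
                Injective v ∧ InCone x v y ∧ Lev x h v k')).card : ℝ) := by
            exact_mod_cast h3
          linarith
        have hLp : 0 < L ^ (m ^ 2) := by positivity
        have h5 : c * α ^ (m ^ 2) * n ^ m ≤ L ^ (m ^ 2) * (2 * m * n ^ (m - 1)) :=
          hy.trans (mul_le_mul_of_nonneg_left hsub hLp.le)
        have h6 : n ^ m = n ^ (m - 1) * n := by
          rw [← pow_succ]; congr 1; omega
        have hnp : 0 < n ^ (m - 1) := by positivity
        have h7 : β ^ (m ^ 2) * n ≤ 2 * m / c := by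
          rw [le_div_iff₀ hc]
          have h8 : (c * (β ^ (m ^ 2)) * n) * (L ^ (m ^ 2) * n ^ (m - 1)) ≤
              (2 * m) * (L ^ (m ^ 2) * n ^ (m - 1)) := by
            have e1 : (c * (β ^ (m ^ 2)) * n) * (L ^ (m ^ 2) * n ^ (m - 1)) =
                c * α ^ (m ^ 2) * n ^ m := by
              rw [hαβ, h6, mul_pow]; ring
            have e2 : (2 * m : ℝ) * (L ^ (m ^ 2) * n ^ (m - 1)) =
                L ^ (m ^ 2) * (2 * m * n ^ (m - 1)) := by ring
            rw [e1, e2]; exact h5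
          have h9 := le_of_mul_le_mul_right h8 (by positivity)
          linarith
        have h10 := Z1_root (m ^ 2) (by positivity) β (2 * m / c) n hβ0 (by positivity) hn0 h7
        refine h10.trans (mul_le_mul_of_nonneg_right ?_ (by positivity))
        have : 0 ≤ C ^ ((m : ℝ)⁻¹) := by positivity
        linarith
      · push Not at hcase
        have h7 : β ^ m * n ≤ C := by
          have hLp : 0 < L ^ m := by positivity
          have h8 : (β ^ m * n) * L ^ m ≤ C * L ^ m := by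
            have e1 : (β ^ m * n) * L ^ m = α ^ m * n := by rw [hαβ, mul_pow]; ring
            rw [e1]; exact hcase.le
          exact le_of_mul_le_mul_right h8 hLp
        have h10 := Z1_root m (by omega) β C n hβ0 hC.le hn0 h7
        have h11 : n ^ (-(m : ℝ)⁻¹) ≤ n ^ (-(((m ^ 2 : ℕ) : ℝ)⁻¹)) := by
          apply Real.rpow_le_rpow_of_exponent_le hn1
          apply neg_le_neg
          apply inv_anti₀ hm0
          have : (m : ℕ) ≤ m ^ 2 := by nlinarith
          exact_mod_cast this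
        have h12 : 0 ≤ C ^ ((m : ℝ)⁻¹) := by positivity
        have h13 : 0 ≤ (2 * m / c : ℝ) ^ (((m ^ 2 : ℕ) : ℝ)⁻¹) := by positivity
        calc β ≤ C ^ ((m : ℝ)⁻¹) * n ^ (-(m : ℝ)⁻¹) := h10
          _ ≤ C ^ ((m : ℝ)⁻¹) * n ^ (-(((m ^ 2 : ℕ) : ℝ)⁻¹)) :=
              mul_le_mul_of_nonneg_left h11 h12
          _ ≤ _ := mul_le_mul_of_nonneg_right (by linarith) (by positivity)
  have hNβ : N = β * L * n ^ m := by rw [hβ]; field_simp
  have hexp : n ^ ((m : ℝ) - 1 / (m : ℝ) ^ 2) = n ^ m * n ^ (-(((m ^ 2 : ℕ) : ℝ)⁻¹)) := by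
    rw [← Real.rpow_natCast n m, ← Real.rpow_add hn0]
    congr 1
    push_cast
    rw [one_div]; ring
  rw [hexp, hNβ]
  have hp : 0 < n ^ m * L := by positivity
  calc β * L * n ^ m = β * (n ^ m * L) := by ring
    _ ≤ ((C ^ ((m : ℝ)⁻¹) + (2 * m / c) ^ (((m ^ 2 : ℕ) : ℝ)⁻¹)) *
      n ^ (-(((m ^ 2 : ℕ) : ℝ)⁻¹))) * (n ^ m * L) := mul_le_mul_of_nonneg_right hkey hp.le
    _ = _ := by ring

end KS39
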