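import Pool.Agent.LibKS39.R2
import Pool.Agent.LibKS39.Z1
import Pool.Agent.LibKS39.Defs

open Finset Function
open scoped Classical

namespace KS39

/-- enumeration of a `d`-subset by an injective tuple. -/
theorem Z2_enum {d : ℕ} (S T : Finset (Fin d → ℝ)) (hTS : T ⊆ S) (hT : T.card = d) :
    ∃ v : Fin d → {p // p ∈ S}, Injective v ∧ (∀ l, (v l : Fin d → ℝ) ∈ T) ∧
      univ.image (fun l => (v l : Fin d → ℝ)) = T := by
  let e := (T.equivFinOfCardEq hT).symm
  refine ⟨fun i => ⟨(e i : Fin d → ℝ), hTS (e i).2⟩, ?_, fun l => (e l).2, ?_⟩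
  · intro i j hij
    have h1 : (e i : Fin d → ℝ) = (e j : Fin d → ℝ) :=
      congrArg (fun q : {p // p ∈ S} => (q : Fin d → ℝ)) hij
    exact e.injective (Subtype.ext h1)
  · ext p
    simp only [mem_image, mem_univ, true_and]
    constructor
    · rintro ⟨i, rfl⟩; exact (e i).2
    · intro hp
      obtain ⟨i, hi⟩ := e.surjective ⟨p, hp⟩
      exact ⟨i, by rw [hi]⟩

/-- main theorem. -/
theorem main (d : ℕ) (hd : 2 ≤ d) : ∃ C : ℝ, 0 < C ∧
    ∀ S : Finset (Fin d → ℝ), GenPos d S → 2 ≤ S.card → ∀ k : ℕ,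
      ((S.powerset.filter (fun T => IsKHyp S k T)).card : ℝ) ≤
        C * (S.card : ℝ) ^ ((d : ℝ) - 1 / (d : ℝ) ^ 2) * Real.log S.card := by
  obtain ⟨C, hC, hmain⟩ := homogeneous_bound d hd
  have hlog2 : 0 < Real.log 2 := Real.log_pos (by norm_num)
  refine ⟨C + (Real.log 2)⁻¹, by positivity, ?_⟩
  intro S hS hn k
  have hnR : (2 : ℝ) ≤ (S.card : ℝ) := by exact_mod_cast hn
  have hlogn : Real.log 2 ≤ Real.log S.card := Real.log_le_log (by norm_num) hnR
  have hdR : (2 : ℝ) ≤ (d : ℝ) := by exact_mod_cast hd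
  have hexp : 0 ≤ (d : ℝ) - 1 / (d : ℝ) ^ 2 := by
    have h1 : 1 / (d : ℝ) ^ 2 ≤ 1 := by
      rw [div_le_one (by positivity)]
      nlinarith
    linarith
  have hpow : 1 ≤ (S.card : ℝ) ^ ((d : ℝ) - 1 / (d : ℝ) ^ 2) :=
    Real.one_le_rpow (by linarith) hexp
  have hsplit : (C + (Real.log 2)⁻¹) * (S.card : ℝ) ^ ((d : ℝ) - 1 / (d : ℝ) ^ 2)
        * Real.log S.card
      = C * (S.card : ℝ) ^ ((d : ℝ) - 1 / (d : ℝ) ^ 2) * Real.log S.card
        + (Real.log 2)⁻¹ * (S.card : ℝ) ^ ((d : ℝ) - 1 / (d : ℝ) ^ 2)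
        * Real.log S.card := by ring
  have hnn1 : 0 ≤ C * (S.card : ℝ) ^ ((d : ℝ) - 1 / (d : ℝ) ^ 2) * Real.log S.card := by
    apply mul_nonneg (mul_nonneg hC.le (by linarith)) (by linarith)
  have hnn2 : 1 ≤ (Real.log 2)⁻¹ * (S.card : ℝ) ^ ((d : ℝ) - 1 / (d : ℝ) ^ 2)
      * Real.log S.card := by
    have h1 : 1 ≤ (Real.log 2)⁻¹ * Real.log S.card := by
      rw [inv_mul_eq_div, le_div_iff₀ hlog2]; linarith
    calc (1 : ℝ) ≤ (Real.log 2)⁻¹ * Real.log S.card := h1
      _ = (Real.log 2)⁻¹ * 1 * Real.log S.card := by ring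
      _ ≤ _ := by
        apply mul_le_mul_of_nonneg_right _ (by linarith)
        apply mul_le_mul_of_nonneg_left hpow (by positivity)
  rw [hsplit]
  rcases Nat.lt_or_ge d S.card with hdn | hdn
  · -- many points
    obtain ⟨x, ℓ, h, hℓ, hGP, hh, hlev⟩ := lift d hd S hS hdn
    have hb := hmain {p // p ∈ S} x ℓ hℓ hGP (by rw [Fintype.card_coe]; omega) h hh k
      (S.card - d - k)
    rw [Fintype.card_coe] at hb
    have hle : (S.powerset.filter (fun T => IsKHyp S k T)).card ≤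
        (univ.filter (fun v : Fin d → {p // p ∈ S} => Injective v ∧
          (Lev x h v k ∨ Lev x h v (S.card - d - k)))).card := by
      apply card_le_card_of_surjOn (fun v => univ.image (fun l => (v l : Fin d → ℝ)))
      intro T hT
      rw [mem_coe, mem_filter, mem_powerset] at hT
      obtain ⟨v, hv, hvT, him⟩ := Z2_enum S T hT.1 hT.2.2.1
      refine ⟨v, ?_, him⟩
      rw [mem_coe, mem_filter]
      exact ⟨mem_univ _, hv, hlev k T hT.2 v hv hvT⟩
    have hle' : ((S.powerset.filter (fun T => IsKHyp S k T)).card : ℝ) ≤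
        ((univ.filter (fun v : Fin d → {p // p ∈ S} => Injective v ∧
          (Lev x h v k ∨ Lev x h v (S.card - d - k)))).card : ℝ) := by exact_mod_cast hle
    have hb2 : ((univ.filter (fun v : Fin d → {p // p ∈ S} => Injective v ∧
          (Lev x h v k ∨ Lev x h v (S.card - d - k)))).card : ℝ) ≤
        C * (S.card : ℝ) ^ ((d : ℝ) - 1 / (d : ℝ) ^ 2) * Real.log S.card := by
      convert hb
    refine le_trans hle' (le_trans hb2 ?_)
    linarith
  · -- few points: at most one hyperplane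
    have hle : (S.powerset.filter (fun T => IsKHyp S k T)).card ≤ 1 := by
      rw [card_le_one]
      intro T hT T' hT'
      rw [mem_filter, mem_powerset] at hT hT'
      have h1 : T = S := eq_of_subset_of_card_le hT.1 (by rw [hT.2.2.1]; exact hdn)
      have h2 : T' = S := eq_of_subset_of_card_le hT'.1 (by rw [hT'.2.2.1]; exact hdn)
      rw [h1, h2]
    have hle' : ((S.powerset.filter (fun T => IsKHyp S k T)).card : ℝ) ≤ 1 := by
      exact_mod_cast hle
    linarith

end KS39
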